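import Mathlib

/-!
# Forms with given coefficients
-/

set_option autoImplicit false

namespace Pool.Agent.Lib.MP_6a3dac_ag

open MvPolynomial

/-- The monomials of degree `d` in `n + 1` variables, given by their exponents. -/
abbrev Mono (n d : ℕ) : Type := {μ : Fin (n + 1) → Fin (d + 1) // ∑ i, (μ i : ℕ) = d}

/-- The form of degree `d` in `n + 1` variables with the coefficients `a`. -/
noncomputable def form {n d : ℕ} {R : Type} [CommRing R] (a : Mono n d → R) :
    MvPolynomial (Fin (n + 1)) R :=
  ∑ μ : Mono n d, C (a μ) * ∏ i, X i ^ (μ.1 i : ℕ)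

/-- The box of the integer vectors with coordinates of absolute value at most `H`. -/
noncomputable def box (ι : Type) [Fintype ι] [DecidableEq ι] (H : ℕ) : Finset (ι → ℤ) :=
  Fintype.piFinset fun _ => Finset.Icc (-(H : ℤ)) H

end Pool.Agent.Lib.MP_6a3dac_ag
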