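import Mathlib
import Pool.Agent.Lib.MP_6a3dac_ag.Dens.Defs

/-!
# The coprime pair
-/

set_option autoImplicit false

namespace Pool.Agent.Lib.MP_6a3dac_ag

open MvPolynomial

namespace DensPair

/-! ### the Jacobian criterion -/

theorem pd_aeval {σ τ : Type} [Fintype σ] (f : σ → MvPolynomial τ ℤ) (t : τ)
    (p : MvPolynomial σ ℤ) :
    pderiv t (aeval f p) = ∑ v, aeval f (pderiv v p) * pderiv t (f v) := by
  classical
  induction p using MvPolynomial.induction_on with
  | C a => simp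
  | add p q hp hq => simp only [map_add, hp, hq, add_mul, Finset.sum_add_distrib]
  | mul_X p i hp =>
    rw [map_mul, aeval_X, pderiv_mul, hp]
    simp only [pderiv_mul, map_add, map_mul, aeval_X, add_mul, Finset.sum_add_distrib, pderiv_X]
    congr 1
    · rw [Finset.sum_mul]
      exact Finset.sum_congr rfl fun v _ => by ring
    · rw [Finset.sum_eq_single i]
      · simp
      · intro b _ hb
        simp [hb]
      · simp

theorem totalDegree_pd {σ : Type} (i : σ) (p : MvPolynomial σ ℤ) :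
    (pderiv i p).totalDegree ≤ p.totalDegree - 1 := by
  classical
  apply Finset.sup_le
  intro m hm
  rw [mem_support_iff, coeff_pderiv] at hm
  have h1 : m + Finsupp.single i 1 ∈ p.support := by
    rw [mem_support_iff]; exact left_ne_zero_of_mul hm
  have h2 := le_totalDegree h1
  rw [Finsupp.sum_add_index' (fun _ => rfl) (fun _ _ _ => rfl), Finsupp.sum_single_index rfl] at h2
  omega

/-- if all derivatives with respect to the variables outside `S` vanish, then only the variables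
in `S` occur -/
theorem aeval_eq_self {σ : Type} (S : Set σ) (p : MvPolynomial σ ℤ)
    (h : ∀ i, i ∉ S → pderiv i p = 0) (f : σ → MvPolynomial σ ℤ) (hf : ∀ i ∈ S, f i = X i) :
    aeval f p = p := by
  classical
  have h1 : aeval f p = aeval X p := by
    rw [aeval_def, aeval_def]
    apply eval₂Hom_congr' (f₁ := algebraMap ℤ _) (f₂ := algebraMap ℤ _) rfl _ rfl
    intro i hi _
    apply hf
    by_contra hcon
    rw [mem_vars_iff_mem_support] at hi
    obtain ⟨m, hm, hmi⟩ := hi
    have h2 := congrArg (coeff (m - Finsupp.single i 1)) (h i hcon)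
    rw [coeff_pderiv] at h2
    have h3 : m - Finsupp.single i 1 + Finsupp.single i 1 = m := by
      ext j
      by_cases hj : j = i
      · subst hj
        have : m j ≠ 0 := by simpa using hmi
        simp; omega
      · simp [Ne.symm hj]
    rw [h3, coeff_zero] at h2
    rcases mul_eq_zero.1 h2 with h4 | h4
    · exact (mem_support_iff.1 hm) h4
    · have : (0 : ℤ) < ((m - Finsupp.single i 1 : σ →₀ ℕ) i : ℤ) + 1 := by positivity
      omega
  rw [h1, aeval_X_left_apply]

section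

variable {R J : Type} [Fintype R] [Fintype J] [DecidableEq J]

/-- the substitution -/
noncomputable def sb (G : MvPolynomial (R ⊕ J) ℤ) : R ⊕ J → MvPolynomial (R ⊕ J) ℤ :=
  Sum.elim (fun ρ => X (Sum.inl ρ)) (fun j => - pderiv (Sum.inr j) G)

/-- the Hessian matrix -/
noncomputable def hess (G : MvPolynomial (R ⊕ J) ℤ) : Matrix J J (MvPolynomial (R ⊕ J) ℤ) :=
  Matrix.of fun j l : J => pderiv (Sum.inr j) (pderiv (Sum.inr l) G)

theorem sb_inj_aux (G : MvPolynomial (R ⊕ J) ℤ) (hD : (hess G).det ≠ 0) (N : ℕ) :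
    ∀ p : MvPolynomial (R ⊕ J) ℤ, p.totalDegree ≤ N → aeval (sb G) p = 0 → p = 0 := by
  induction N with
  | zero =>
    intro p hp h
    have h1 := totalDegree_eq_zero_iff_eq_C.1 (Nat.le_zero.1 hp)
    rw [h1, aeval_C] at h
    rw [h1]
    simpa using h
  | succ N ih =>
    intro p hp h
    have h1 : (fun j => aeval (sb G) (pderiv (Sum.inr j) p)) = 0 := by
      apply Matrix.eq_zero_of_mulVec_eq_zero hD
      funext i
      have h2 := congrArg (pderiv (Sum.inr i)) h
      rw [pd_aeval, Fintype.sum_sum_type, map_zero] at h2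
      simp only [sb, Sum.elim_inl, Sum.elim_inr, map_neg] at h2
      simp only [Matrix.mulVec, dotProduct, hess, Matrix.of_apply, Pi.zero_apply]
      have h3 : ∀ ρ : R, pderiv (Sum.inr i) (X (Sum.inl ρ) : MvPolynomial (R ⊕ J) ℤ) = 0 :=
        fun ρ => pderiv_X_of_ne (by simp)
      simp only [h3, mul_zero, Finset.sum_const_zero, zero_add, mul_neg, Finset.sum_neg_distrib,
        neg_eq_zero] at h2
      rw [← h2]
      exact Finset.sum_congr rfl fun j _ => mul_comm _ _
    have h4 : ∀ j, pderiv (Sum.inr j) p = 0 := by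
      intro j
      apply ih
      · have := totalDegree_pd (Sum.inr j) p
        omega
      · exact congrFun h1 j
    rw [← h]
    symm
    apply aeval_eq_self (Set.range Sum.inl) p
    · rintro (ρ | j) hi
      · exact absurd ⟨ρ, rfl⟩ hi
      · exact h4 j
    · rintro _ ⟨ρ, rfl⟩
      simp [sb]

theorem sb_inj (G : MvPolynomial (R ⊕ J) ℤ) (hD : (hess G).det ≠ 0)
    (p : MvPolynomial (R ⊕ J) ℤ) (h : aeval (sb G) p = 0) : p = 0 :=
  sb_inj_aux G hD _ p le_rfl h

/-- the substitution on polynomials in one more variable -/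
noncomputable def sbHom (G z : MvPolynomial (R ⊕ J) ℤ) :
    Polynomial (MvPolynomial (R ⊕ J) ℤ) →+* MvPolynomial (R ⊕ J) ℤ :=
  Polynomial.eval₂RingHom
    (aeval (sb G) : MvPolynomial (R ⊕ J) ℤ →ₐ[ℤ] MvPolynomial (R ⊕ J) ℤ).toRingHom z

omit [Fintype R] [Fintype J] [DecidableEq J] in
theorem sbHom_C (G z p : MvPolynomial (R ⊕ J) ℤ) :
    sbHom G z (Polynomial.C p) = aeval (sb G) p := by
  simp [sbHom]

omit [Fintype R] [Fintype J] [DecidableEq J] in
theorem sbHom_X (G z : MvPolynomial (R ⊕ J) ℤ) : sbHom G z Polynomial.X = z := by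
  simp [sbHom]

omit [Fintype R] [Fintype J] [DecidableEq J] in
theorem sbHom_option (G z : MvPolynomial (R ⊕ J) ℤ) (p : MvPolynomial (Option (R ⊕ J)) ℤ) :
    sbHom G z (optionEquivLeft ℤ (R ⊕ J) p) =
      aeval (fun o : Option (R ⊕ J) => o.elim z (sb G)) p := by
  induction p using MvPolynomial.induction_on with
  | C a => rw [optionEquivLeft_C, sbHom_C, aeval_C, aeval_C]
  | add p q hp hq => rw [map_add, map_add, hp, hq, map_add]
  | mul_X p i hp =>
    rw [map_mul, map_mul, hp, map_mul, aeval_X]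
    congr 1
    rcases i with _ | i
    · rw [optionEquivLeft_X_none, sbHom_X]; rfl
    · rw [optionEquivLeft_X_some, sbHom_C, aeval_X]; rfl

omit [DecidableEq J] in
/-- algebraic dependence -/
theorem exists_rel (G : MvPolynomial (R ⊕ J) ℤ) (z : MvPolynomial (R ⊕ J) ℤ) :
    ∃ F : Polynomial (MvPolynomial (R ⊕ J) ℤ), F ≠ 0 ∧ sbHom G z F = 0 := by
  have hna : ¬ AlgebraicIndependent ℤ (fun o : Option (R ⊕ J) => o.elim z (sb G)) := by
    intro h
    have h1 := h.cardinalMk_le_trdeg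
    rw [MvPolynomial.trdeg_of_isDomain] at h1
    simp only [Cardinal.mk_fintype, Fintype.card_option, Cardinal.lift_natCast,
      Nat.cast_le] at h1
    omega
  rw [algebraicIndependent_iff] at hna
  push Not at hna
  obtain ⟨p, hp, hp0⟩ := hna
  refine ⟨optionEquivLeft ℤ (R ⊕ J) p, ?_, ?_⟩
  · intro h
    exact hp0 ((optionEquivLeft ℤ (R ⊕ J)).injective (by rw [h, map_zero]))
  · rw [sbHom_option, hp]

theorem pair_abs (G : MvPolynomial (R ⊕ J) ℤ) (hD : (hess G).det ≠ 0)
    (z : MvPolynomial (R ⊕ J) ℤ) :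
    ∃ g P : MvPolynomial (Option (R ⊕ J)) ℤ, Irreducible g ∧ ¬ g ∣ P ∧
      aeval (fun o : Option (R ⊕ J) => o.elim z (sb G)) g = 0 ∧
      (hess G).det ∣ aeval (fun o : Option (R ⊕ J) => o.elim z (sb G)) P := by
  -- the irreducible polynomial
  obtain ⟨F, hF0, hF⟩ := exists_rel G z
  have hprime : (RingHom.ker (sbHom G z)).IsPrime := RingHom.ker_isPrime _
  have hbot : RingHom.ker (sbHom G z) ≠ ⊥ := by
    intro h
    have : F ∈ RingHom.ker (sbHom G z) := hF
    rw [h] at this
    exact hF0 this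
  obtain ⟨g, hgk, hg⟩ := hprime.exists_mem_prime_of_ne_bot hbot
  -- the other polynomial
  obtain ⟨F', hF'0, hF'⟩ := exists_rel G (hess G).det
  obtain ⟨k, F2, hF2, hF2d⟩ : ∃ (k : ℕ) (F2 : Polynomial (MvPolynomial (R ⊕ J) ℤ)),
      F' = Polynomial.X ^ k * F2 ∧ F2.coeff 0 ≠ 0 := by
    obtain ⟨k, hk⟩ : ∃ k, k = Polynomial.natTrailingDegree F' := ⟨_, rfl⟩
    obtain ⟨F2, hF2⟩ := Polynomial.X_pow_dvd_iff.2
      (fun m hm => Polynomial.coeff_eq_zero_of_lt_natTrailingDegree (by rwa [← hk]) :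
        ∀ m < k, F'.coeff m = 0)
    refine ⟨k, F2, hF2, ?_⟩
    have h1 : F'.coeff k ≠ 0 := by
      rw [hk, ← Polynomial.trailingCoeff]
      exact Polynomial.trailingCoeff_nonzero_iff_nonzero.2 hF'0
    have h2 : F'.coeff k = F2.coeff 0 := by
      rw [hF2, Polynomial.coeff_X_pow_mul', if_pos le_rfl, Nat.sub_self]
    rwa [← h2]
  have hF2z : sbHom G (hess G).det F2 = 0 := by
    rw [hF2, map_mul, map_pow, sbHom_X] at hF'
    exact (mul_eq_zero.1 hF').resolve_left (pow_ne_zero _ hD)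
  have hdvd : (hess G).det ∣ aeval (sb G) (F2.coeff 0) := by
    have h1 := congrArg (sbHom G (hess G).det) (Polynomial.X_mul_divX_add F2)
    rw [map_add, map_mul, sbHom_X, sbHom_C, hF2z] at h1
    exact ⟨- sbHom G (hess G).det F2.divX, by linear_combination h1⟩
  refine ⟨(optionEquivLeft ℤ (R ⊕ J)).symm g,
    (optionEquivLeft ℤ (R ⊕ J)).symm (Polynomial.C (F2.coeff 0)), ?_, ?_, ?_, ?_⟩
  · exact (MulEquiv.irreducible_iff (optionEquivLeft ℤ (R ⊕ J)).symm.toMulEquiv).2 hg.irreducible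
  · intro h
    have h1 : g ∣ Polynomial.C (F2.coeff 0) := by
      have := map_dvd (optionEquivLeft ℤ (R ⊕ J)) h
      simpa using this
    have h2 : g.natDegree = 0 := by
      have := Polynomial.natDegree_le_of_dvd h1 (by simpa using hF2d)
      simpa using this
    rw [Polynomial.eq_C_of_natDegree_eq_zero h2] at hgk
    have h3 : aeval (sb G) (g.coeff 0) = 0 := by
      rw [← sbHom_C G z]; exact hgk
    have h4 := sb_inj G hD _ h3
    apply hg.ne_zero
    rw [Polynomial.eq_C_of_natDegree_eq_zero h2, h4, Polynomial.C_0]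
  · rw [← sbHom_option, AlgEquiv.apply_symm_apply]
    exact hgk
  · rw [← sbHom_option, AlgEquiv.apply_symm_apply, sbHom_C]
    exact hdvd

end

/-! ### the monomials -/

section Geo

variable {n d : ℕ}

/-- the monomial with exponents `μ` -/
noncomputable def mon (μ : Mono n d) : MvPolynomial (Fin (n + 1)) ℤ :=
  ∏ m, X m ^ (μ.1 m : ℕ)

theorem form_eq {k : Type} [CommRing k] (a : Mono n d → k) :
    form a = ∑ μ, C (a μ) * map (algebraMap ℤ k) (mon μ) := by
  unfold form mon
  refine Finset.sum_congr rfl fun μ _ => ?_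
  rw [map_prod]
  simp only [map_pow, map_X]

theorem eval_form_eq {k : Type} [CommRing k] (a : Mono n d → k) (x : Fin (n + 1) → k) :
    eval x (form a) = ∑ μ, a μ * aeval x (mon μ) := by
  rw [form_eq, map_sum]
  refine Finset.sum_congr rfl fun μ _ => ?_
  rw [map_mul, eval_C, eval_map, aeval_def]

theorem eval_pd_form {k : Type} [CommRing k] (a : Mono n d → k) (x : Fin (n + 1) → k)
    (l : Fin (n + 1)) :
    eval x (pderiv l (form a)) = ∑ μ, a μ * aeval x (pderiv l (mon μ)) := by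
  rw [form_eq, map_sum, map_sum]
  refine Finset.sum_congr rfl fun μ _ => ?_
  rw [pderiv_C_mul, pderiv_map, map_mul, eval_C, eval_map, aeval_def]

theorem eval_pd2_form {k : Type} [CommRing k] (a : Mono n d → k) (x : Fin (n + 1) → k)
    (j l : Fin (n + 1)) :
    eval x (pderiv j (pderiv l (form a))) = ∑ μ, a μ * aeval x (pderiv j (pderiv l (mon μ))) := by
  rw [form_eq, map_sum, map_sum, map_sum]
  refine Finset.sum_congr rfl fun μ _ => ?_
  rw [pderiv_C_mul, pderiv_C_mul, pderiv_map, pderiv_map, map_mul, eval_C, eval_map, aeval_def]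

/-- the monomial `X_i ^ d` -/
def cm (n d : ℕ) (i : Fin (n + 1)) : Mono n d :=
  ⟨fun m => if m = i then Fin.last d else 0, by
    rw [Finset.sum_eq_single i]
    · simp
    · intro b _ hb; simp [hb]
    · simp⟩

/-- the monomial `X_i ^ (d - 1) * X_j` -/
def bm (hd : 2 ≤ d) (i : Fin (n + 1)) (j : {l : Fin (n + 1) // l ≠ i}) : Mono n d :=
  ⟨fun m => if m = i then ⟨d - 1, by omega⟩ else if m = j.1 then ⟨1, by omega⟩ else 0, by
    have h : ∀ m, (((if m = i then ⟨d - 1, by omega⟩ else if m = j.1 then ⟨1, by omega⟩ else 0 :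
        Fin (d + 1)) : Fin (d + 1)) : ℕ) =
        (if m = i then d - 1 else 0) + (if m = j.1 then 1 else 0) := by
      intro m
      by_cases h1 : m = i
      · subst h1; simp [j.2.symm]
      · by_cases h2 : m = j.1
        · subst h2; simp [h1]
        · simp [h1, h2]
    simp only [h, Finset.sum_add_distrib, Finset.sum_ite_eq', Finset.mem_univ, if_true]
    omega⟩

/-- the monomial `X_i ^ (d - 2) * X_j ^ 2` -/
def dm (hd : 2 ≤ d) (i : Fin (n + 1)) (j : {l : Fin (n + 1) // l ≠ i}) : Mono n d :=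
  ⟨fun m => if m = i then ⟨d - 2, by omega⟩ else if m = j.1 then ⟨2, by omega⟩ else 0, by
    have h : ∀ m, (((if m = i then ⟨d - 2, by omega⟩ else if m = j.1 then ⟨2, by omega⟩ else 0 :
        Fin (d + 1)) : Fin (d + 1)) : ℕ) =
        (if m = i then d - 2 else 0) + (if m = j.1 then 2 else 0) := by
      intro m
      by_cases h1 : m = i
      · subst h1; simp [j.2.symm]
      · by_cases h2 : m = j.1
        · subst h2; simp [h1]
        · simp [h1, h2]
    simp only [h, Finset.sum_add_distrib, Finset.sum_ite_eq', Finset.mem_univ, if_true]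
    omega⟩

theorem mon_cm (i : Fin (n + 1)) : mon (cm n d i) = X i ^ d := by
  unfold mon
  rw [Finset.prod_eq_single i]
  · simp [cm]
  · intro b _ hb; simp [cm, hb]
  · simp

theorem prod_two (i : Fin (n + 1)) (j : {l : Fin (n + 1) // l ≠ i}) (e : Fin (n + 1) → ℕ)
    (he : ∀ m, m ≠ i → m ≠ j.1 → e m = 0) :
    (∏ m, X m ^ e m : MvPolynomial (Fin (n + 1)) ℤ) = X i ^ e i * X j.1 ^ e j.1 := by
  rw [← Finset.mul_prod_erase Finset.univ _ (Finset.mem_univ i)]
  congr 1
  rw [← Finset.mul_prod_erase _ _ (Finset.mem_erase.2 ⟨j.2, Finset.mem_univ j.1⟩)]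
  rw [Finset.prod_eq_one, mul_one]
  intro m hm
  rw [Finset.mem_erase, Finset.mem_erase] at hm
  rw [he m hm.2.1 hm.1, pow_zero]

theorem mon_bm (hd : 2 ≤ d) (i : Fin (n + 1)) (j : {l : Fin (n + 1) // l ≠ i}) :
    mon (bm hd i j) = X i ^ (d - 1) * X j.1 := by
  unfold mon
  rw [prod_two i j]
  · simp [bm, j.2]
  · intro m h1 h2
    simp [bm, h1, h2]

theorem mon_dm (hd : 2 ≤ d) (i : Fin (n + 1)) (j : {l : Fin (n + 1) // l ≠ i}) :
    mon (dm hd i j) = X i ^ (d - 2) * X j.1 ^ 2 := by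
  unfold mon
  rw [prod_two i j]
  · simp [dm, j.2]
  · intro m h1 h2
    simp [dm, h1, h2]

theorem cm_ne_bm (hd : 2 ≤ d) (i : Fin (n + 1)) (j : {l : Fin (n + 1) // l ≠ i}) :
    cm n d i ≠ bm hd i j := by
  intro h
  have := congrArg (fun μ : Mono n d => (μ.1 i : ℕ)) h
  simp [cm, bm] at this
  omega

theorem dm_ne_cm (hd : 2 ≤ d) (i : Fin (n + 1)) (j : {l : Fin (n + 1) // l ≠ i}) :
    dm hd i j ≠ cm n d i := by
  intro h
  have := congrArg (fun μ : Mono n d => (μ.1 i : ℕ)) h
  simp [cm, dm] at this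
  omega

theorem dm_ne_bm (hd : 2 ≤ d) (i : Fin (n + 1)) (j l : {l : Fin (n + 1) // l ≠ i}) :
    dm hd i j ≠ bm hd i l := by
  intro h
  have := congrArg (fun μ : Mono n d => (μ.1 i : ℕ)) h
  simp [bm, dm] at this
  omega

theorem bm_inj (hd : 2 ≤ d) (i : Fin (n + 1)) (j l : {l : Fin (n + 1) // l ≠ i})
    (h : bm hd i j = bm hd i l) : j = l := by
  by_contra hne
  have hne' : j.1 ≠ l.1 := fun h => hne (Subtype.ext h)
  have := congrArg (fun μ : Mono n d => (μ.1 j.1 : ℕ)) h
  simp [bm, j.2, hne'] at this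

/-- the other monomials -/
abbrev Rest (hd : 2 ≤ d) (i : Fin (n + 1)) : Type :=
  {μ : Mono n d // μ ≠ cm n d i ∧ ∀ j, μ ≠ bm hd i j}

/-- all monomials -/
def emap (hd : 2 ≤ d) (i : Fin (n + 1)) :
    Option (Rest hd i ⊕ {l : Fin (n + 1) // l ≠ i}) → Mono n d
  | none => cm n d i
  | some (Sum.inl ρ) => ρ.1
  | some (Sum.inr j) => bm hd i j

theorem emap_bij (hd : 2 ≤ d) (i : Fin (n + 1)) : Function.Bijective (emap hd i) := by
  constructor
  · rintro (_ | ρ | j) (_ | ρ' | j') h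
    · rfl
    · exact absurd h.symm ρ'.2.1
    · exact absurd h (cm_ne_bm hd i j')
    · exact absurd h ρ.2.1
    · simp only [emap] at h
      rw [Subtype.ext h]
    · exact absurd h (ρ.2.2 j')
    · exact absurd h.symm (cm_ne_bm hd i j)
    · exact absurd h.symm (ρ'.2.2 j)
    · simp only [emap] at h
      rw [bm_inj hd i j j' h]
  · intro μ
    by_cases h1 : μ = cm n d i
    · exact ⟨none, h1.symm⟩
    · by_cases h2 : ∀ j, μ ≠ bm hd i j
      · exact ⟨some (Sum.inl ⟨μ, h1, h2⟩), rfl⟩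
      · push Not at h2
        obtain ⟨j, hj⟩ := h2
        exact ⟨some (Sum.inr j), hj.symm⟩

theorem sum_mono {A : Type} [AddCommMonoid A] (hd : 2 ≤ d) (i : Fin (n + 1)) (f : Mono n d → A) :
    ∑ μ, f μ = f (cm n d i) + (∑ ρ : Rest hd i, f ρ.1 + ∑ j, f (bm hd i j)) := by
  rw [← (Equiv.ofBijective _ (emap_bij hd i)).sum_comp, Fintype.sum_option,
    Fintype.sum_sum_type]
  rfl

/-- setting `x_i = 1` -/
noncomputable def sbx (hd : 2 ≤ d) (i : Fin (n + 1)) :
    MvPolynomial (Fin (n + 1)) ℤ →ₐ[ℤ] MvPolynomial (Rest hd i ⊕ {l : Fin (n + 1) // l ≠ i}) ℤ :=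
  aeval fun m => if h : m = i then 1 else X (Sum.inr ⟨m, h⟩)

theorem pd_sbx (hd : 2 ≤ d) (i : Fin (n + 1)) (j : {l : Fin (n + 1) // l ≠ i})
    (f : MvPolynomial (Fin (n + 1)) ℤ) :
    pderiv (Sum.inr j) (sbx hd i f) = sbx hd i (pderiv j.1 f) := by
  unfold sbx
  rw [pd_aeval, Finset.sum_eq_single j.1]
  · rw [dif_neg j.2, pderiv_X_self, mul_one]
  · intro b _ hb
    by_cases h : b = i
    · rw [dif_pos h, pderiv_one, mul_zero]
    · rw [dif_neg h, pderiv_X_of_ne, mul_zero]
      intro h2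
      apply hb
      rw [Sum.inr.injEq] at h2
      rw [← h2]
  · simp

/-- the other part of the form, with `x_i = 1` -/
noncomputable def GG (hd : 2 ≤ d) (i : Fin (n + 1)) :
    MvPolynomial (Rest hd i ⊕ {l : Fin (n + 1) // l ≠ i}) ℤ :=
  ∑ ρ : Rest hd i, X (Sum.inl ρ) * sbx hd i (mon ρ.1)

theorem pd_GG (hd : 2 ≤ d) (i : Fin (n + 1)) (l : {l : Fin (n + 1) // l ≠ i}) :
    pderiv (Sum.inr l) (GG hd i) =
      ∑ ρ : Rest hd i, X (Sum.inl ρ) * sbx hd i (pderiv l.1 (mon ρ.1)) := by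
  unfold GG
  rw [map_sum]
  refine Finset.sum_congr rfl fun ρ _ => ?_
  rw [pderiv_mul, pderiv_X_of_ne (by simp), zero_mul, zero_add, pd_sbx]

theorem pd2_GG (hd : 2 ≤ d) (i : Fin (n + 1)) (j l : {l : Fin (n + 1) // l ≠ i}) :
    pderiv (Sum.inr j) (pderiv (Sum.inr l) (GG hd i)) =
      ∑ ρ : Rest hd i, X (Sum.inl ρ) * sbx hd i (pderiv j.1 (pderiv l.1 (mon ρ.1))) := by
  rw [pd_GG, map_sum]
  refine Finset.sum_congr rfl fun ρ _ => ?_
  rw [pderiv_mul, pderiv_X_of_ne (by simp), zero_mul, zero_add, pd_sbx]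

/-- evaluation -/
noncomputable def evx (hd : 2 ≤ d) (i : Fin (n + 1)) {k : Type} [CommRing k] (a : Rest hd i → k)
    (x : Fin (n + 1) → k) :
    MvPolynomial (Rest hd i ⊕ {l : Fin (n + 1) // l ≠ i}) ℤ →ₐ[ℤ] k :=
  aeval (Sum.elim a fun j => x j.1)

theorem evx_sbx (hd : 2 ≤ d) (i : Fin (n + 1)) {k : Type} [CommRing k] (a : Rest hd i → k)
    (x : Fin (n + 1) → k) (hx : x i = 1) (f : MvPolynomial (Fin (n + 1)) ℤ) :
    evx hd i a x (sbx hd i f) = aeval x f := by
  unfold sbx
  rw [← AlgHom.comp_apply, comp_aeval]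
  congr 2
  funext m
  by_cases h : m = i
  · subst h; simp [hx]
  · rw [dif_neg h]; simp [evx]

theorem evx_inl (hd : 2 ≤ d) (i : Fin (n + 1)) {k : Type} [CommRing k] (a : Rest hd i → k)
    (x : Fin (n + 1) → k) (ρ : Rest hd i) : evx hd i a x (X (Sum.inl ρ)) = a ρ := by
  simp [evx]

theorem evx_inr (hd : 2 ≤ d) (i : Fin (n + 1)) {k : Type} [CommRing k] (a : Rest hd i → k)
    (x : Fin (n + 1) → k) (j : {l : Fin (n + 1) // l ≠ i}) :
    evx hd i a x (X (Sum.inr j)) = x j.1 := by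
  simp [evx]

/-- the monomials whose Hessian is of full rank -/
def dmR (hd : 2 ≤ d) (i : Fin (n + 1)) (j : {l : Fin (n + 1) // l ≠ i}) : Rest hd i :=
  ⟨dm hd i j, dm_ne_cm hd i j, fun l => dm_ne_bm hd i j l⟩

theorem mon_dmR (hd : 2 ≤ d) (i : Fin (n + 1)) (j : {l : Fin (n + 1) // l ≠ i}) :
    mon (dmR hd i j).1 = X i ^ (d - 2) * X j.1 ^ 2 := mon_dm hd i j

theorem pd_two (i : Fin (n + 1)) : pderiv i (2 : MvPolynomial (Fin (n + 1)) ℤ) = 0 := by
  have : (2 : MvPolynomial (Fin (n + 1)) ℤ) = C 2 := (map_ofNat C 2).symm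
  rw [this, pderiv_C]

theorem pd_X_pow_ne (i l : Fin (n + 1)) (h : l ≠ i) (k : ℕ) :
    pderiv l (X i ^ k : MvPolynomial (Fin (n + 1)) ℤ) = 0 := by
  rw [pderiv_pow, pderiv_X_of_ne h.symm, mul_zero]

theorem hess_ne (hd : 2 ≤ d) (i : Fin (n + 1)) : (hess (GG hd i)).det ≠ 0 := by
  classical
  intro h0
  obtain ⟨sp, hsp⟩ : ∃ sp, sp = evx hd i (k := ℤ)
    (fun ρ => ∑ m : {l : Fin (n + 1) // l ≠ i}, if ρ = dmR hd i m then 1 else 0)
    (fun m => if m = i then 1 else 0) := ⟨_, rfl⟩
  have h1 := congrArg sp h0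
  rw [AlgHom.map_det, map_zero] at h1
  have h2 : (sp.mapMatrix (hess (GG hd i))) =
      (2 : ℤ) • (1 : Matrix {l : Fin (n + 1) // l ≠ i} {l : Fin (n + 1) // l ≠ i} ℤ) := by
    ext j l
    rw [AlgHom.mapMatrix_apply, Matrix.map_apply, Matrix.smul_apply, hess, Matrix.of_apply,
      pd2_GG, map_sum]
    simp only [map_mul]
    rw [hsp]
    simp only [evx_inl, evx_sbx hd i _ (fun m => if m = i then (1 : ℤ) else 0) (by simp),
      Finset.sum_mul]
    rw [Finset.sum_comm]
    simp only [ite_mul, one_mul, zero_mul, Finset.sum_ite_eq', Finset.mem_univ, if_true,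
      mon_dmR]
    have h3 : ∀ m : {l : Fin (n + 1) // l ≠ i}, aeval (fun m => if m = i then (1 : ℤ) else 0)
        (pderiv j.1 (pderiv l.1 (X i ^ (d - 2) * X m.1 ^ 2 : MvPolynomial (Fin (n + 1)) ℤ)))
        = if m = l then (if j = l then 2 else 0) else 0 := by
      intro m
      rw [pderiv_mul, pd_X_pow_ne i l.1 l.2, zero_mul, zero_add, pderiv_mul,
        pd_X_pow_ne i j.1 j.2, zero_mul, zero_add, pderiv_pow]
      by_cases hml : m = l
      · subst hml
        rw [if_pos rfl, pderiv_X_self]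
        by_cases hjm : j = m
        · subst hjm
          rw [if_pos rfl]
          simp [pd_two]
        · rw [if_neg hjm]
          have : m.1 ≠ j.1 := fun h => hjm (Subtype.ext h).symm
          simp [this, pd_two]
      · have : m.1 ≠ l.1 := fun h => hml (Subtype.ext h)
        rw [if_neg hml, pderiv_X_of_ne this]
        simp
    simp only [h3, Finset.sum_ite_eq', Finset.mem_univ, if_true]
    rw [Matrix.one_apply]
    split_ifs <;> simp
  rw [h2, Matrix.det_smul, Matrix.det_one, mul_one] at h1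
  exact pow_ne_zero _ two_ne_zero h1

end Geo

end DensPair

open DensPair in
/-- TASK B (the coprime pair). -/
theorem dens_exists_pair {n d : ℕ} (hd : 2 ≤ d) (i : Fin (n + 1)) :
    ∃ g P : MvPolynomial (Mono n d) ℤ, Irreducible g ∧ ¬ g ∣ P ∧
      ∀ (k : Type) [Field k] (a : Mono n d → k) (x : Fin (n + 1) → k), x i = 1 →
        eval x (form a) = 0 → (∀ l, l ≠ i → eval x (pderiv l (form a)) = 0) →
        (Matrix.of fun j l : {l : Fin (n + 1) // l ≠ i} =>
          eval x (pderiv j.1 (pderiv l.1 (form a)))).det = 0 →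
        aeval a g = 0 ∧ aeval a P = 0 := by
  obtain ⟨z, hz⟩ : ∃ z, z = ∑ j : {l : Fin (n + 1) // l ≠ i}, X (Sum.inr j) *
    pderiv (Sum.inr j) (GG hd i) - GG hd i := ⟨_, rfl⟩
  obtain ⟨g, P, hg, hgP, h1, h2⟩ := pair_abs (GG hd i) (hess_ne hd i) z
  obtain ⟨e, he⟩ : ∃ e, e = Equiv.ofBijective _ (emap_bij hd i) := ⟨_, rfl⟩
  refine ⟨rename e g, rename e P, ?_, ?_, ?_⟩
  · exact (MulEquiv.irreducible_iff (renameEquiv ℤ e).toMulEquiv).2 hg
  · intro h
    apply hgP
    have h3 := map_dvd (renameEquiv ℤ e.symm) h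
    simpa [rename_rename] using h3
  · intro k _ a x hx hF hdF hdet
    obtain ⟨ev, hev⟩ : ∃ ev, ev = evx hd i (fun ρ : Rest hd i => a ρ.1) x := ⟨_, rfl⟩
    have ev_sb : ∀ f, ev (sbx hd i f) = aeval x f := by
      intro f; rw [hev]; exact evx_sbx hd i _ x hx f
    have ev_inl : ∀ ρ : Rest hd i, ev (X (Sum.inl ρ)) = a ρ.1 := by
      intro ρ; rw [hev]; exact evx_inl hd i _ x ρ
    have ev_inr : ∀ j, ev (X (Sum.inr j)) = x j.1 := by
      intro j; rw [hev]; exact evx_inr hd i _ x j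
    have hG0 : ev (GG hd i) = ∑ ρ : Rest hd i, a ρ.1 * aeval x (mon ρ.1) := by
      simp only [GG, map_sum, map_mul, ev_inl, ev_sb]
    have hG1 : ∀ l : {l : Fin (n + 1) // l ≠ i}, ev (pderiv (Sum.inr l) (GG hd i)) =
        ∑ ρ : Rest hd i, a ρ.1 * aeval x (pderiv l.1 (mon ρ.1)) := by
      intro l
      simp only [pd_GG, map_sum, map_mul, ev_inl, ev_sb]
    have hG2 : ∀ j l : {l : Fin (n + 1) // l ≠ i},
        ev (pderiv (Sum.inr j) (pderiv (Sum.inr l) (GG hd i))) =
        ∑ ρ : Rest hd i, a ρ.1 * aeval x (pderiv j.1 (pderiv l.1 (mon ρ.1))) := by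
      intro j l
      simp only [pd2_GG, map_sum, map_mul, ev_inl, ev_sb]
    have hb : ∀ l : {l : Fin (n + 1) // l ≠ i},
        a (bm hd i l) = - ev (pderiv (Sum.inr l) (GG hd i)) := by
      intro l
      have h3 := hdF l.1 l.2
      rw [eval_pd_form, sum_mono hd i, ← hG1 l] at h3
      simp only [mon_cm, mon_bm, pd_X_pow_ne i l.1 l.2, map_zero, mul_zero, zero_add,
        pderiv_mul, zero_mul] at h3
      rw [Finset.sum_eq_single l] at h3
      · rw [pderiv_X_self] at h3
        simp [hx] at h3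
        linear_combination h3
      · intro m _ hm
        have : m.1 ≠ l.1 := fun h => hm (Subtype.ext h)
        rw [pderiv_X_of_ne this]
        simp
      · simp
    have hc : a (cm n d i) = ev z := by
      have h3 := hF
      rw [eval_form_eq, sum_mono hd i, ← hG0] at h3
      simp only [mon_cm, mon_bm, map_mul, map_pow, aeval_X, hx, one_pow, one_mul,
        mul_one] at h3
      rw [hz, map_sub, map_sum]
      simp only [map_mul, ev_inr]
      have h4 : ∑ j : {l : Fin (n + 1) // l ≠ i}, a (bm hd i j) * x j.1 =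
          - ∑ j : {l : Fin (n + 1) // l ≠ i}, x j.1 * ev (pderiv (Sum.inr j) (GG hd i)) := by
        rw [← Finset.sum_neg_distrib]
        refine Finset.sum_congr rfl fun j _ => ?_
        rw [hb j]; ring
      rw [h4] at h3
      linear_combination h3
    have hcomp : ∀ f : MvPolynomial (Option (Rest hd i ⊕ {l : Fin (n + 1) // l ≠ i})) ℤ,
        aeval a (rename e f) =
          ev (aeval (fun o : Option (Rest hd i ⊕ {l : Fin (n + 1) // l ≠ i}) =>
            o.elim z (sb (GG hd i))) f) := by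
      intro f
      rw [aeval_rename, ← AlgHom.comp_apply, comp_aeval]
      congr 2
      funext o
      rw [he]
      rcases o with _ | ρ | j
      · exact hc
      · exact (ev_inl ρ).symm
      · simp only [Function.comp_apply, Equiv.ofBijective_apply, emap, Option.elim_some, sb,
          Sum.elim_inr, map_neg]
        exact hb j
    refine ⟨?_, ?_⟩
    · rw [hcomp, h1, map_zero]
    · rw [hcomp]
      obtain ⟨Q, hQ⟩ := h2
      rw [hQ, map_mul, AlgHom.map_det]
      have h3 : (ev.mapMatrix (hess (GG hd i))) =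
          (Matrix.of fun j l : {l : Fin (n + 1) // l ≠ i} =>
          eval x (pderiv j.1 (pderiv l.1 (form a)))) := by
        ext j l
        rw [AlgHom.mapMatrix_apply, Matrix.map_apply, hess, Matrix.of_apply, Matrix.of_apply,
          hG2, eval_pd2_form, sum_mono hd i]
        have h4 : ∀ m : {l : Fin (n + 1) // l ≠ i}, aeval x
            (pderiv j.1 (pderiv l.1 (mon (bm hd i m)))) = 0 := by
          intro m
          rw [mon_bm, pderiv_mul, pd_X_pow_ne i l.1 l.2, zero_mul, zero_add, pderiv_mul,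
            pd_X_pow_ne i j.1 j.2, zero_mul, zero_add]
          by_cases hml : m.1 = l.1
          · rw [hml, pderiv_X_self, pderiv_one, mul_zero, map_zero]
          · rw [pderiv_X_of_ne hml, map_zero, mul_zero, map_zero]
        simp only [mon_cm, pd_X_pow_ne i l.1 l.2, map_zero, mul_zero, zero_add, h4,
          Finset.sum_const_zero, add_zero]
      rw [h3, hdet, zero_mul]

end Pool.Agent.Lib.MP_6a3dac_ag
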