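import Pool.Agent.Lib.MP_6a3dac_ag.Dens.Param

/-!
# Normal form of a hypersurface near a nondegenerate double point of a fibre
-/

set_option autoImplicit false

namespace Pool.Agent.Lib.MP_6a3dac_ag

open MvPolynomial IsLocalRing Matrix

section Sq

/-- Elements of the square of a finitely generated ideal. -/
theorem mem_span_sq {P σ : Type} [CommRing P] [Fintype σ] (y : σ → P) {x : P}
    (hx : x ∈ Ideal.span (Set.range y) ^ 2) :
    ∃ β : Matrix σ σ P, x = ∑ i, ∑ j, β i j * (y i * y j) := by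
  classical
  rw [pow_two] at hx
  induction hx using Submodule.mul_induction_on' with
  | mem_mul_mem a ha b hb =>
    obtain ⟨c, rfl⟩ := (Ideal.mem_span_range_iff_exists_fun).mp ha
    obtain ⟨c', rfl⟩ := (Ideal.mem_span_range_iff_exists_fun).mp hb
    refine ⟨Matrix.of fun i j => c i * c' j, ?_⟩
    rw [Finset.sum_mul_sum]
    refine Finset.sum_congr rfl fun i _ => Finset.sum_congr rfl fun j _ => ?_
    rw [Matrix.of_apply]
    ring
  | add a _ b _ ha hb =>
    obtain ⟨β, rfl⟩ := ha
    obtain ⟨β', rfl⟩ := hb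
    refine ⟨β + β', ?_⟩
    simp only [← Finset.sum_add_distrib]
    refine Finset.sum_congr rfl fun i _ => Finset.sum_congr rfl fun j _ => ?_
    rw [Matrix.add_apply]
    ring

/-- Second derivatives of products modulo an ideal. -/
theorem second_deriv_mem {A P : Type} [CommRing A] [CommRing P] [Algebra A P]
    (D E : Derivation A P P) (Q : Ideal P) {b x y : P} (hx : x ∈ Q) (hy : y ∈ Q) :
    D (E (b * (x * y))) - b * (D x * E y + E x * D y) ∈ Q := by
  have h1 : D (E (b * (x * y))) - b * (D x * E y + E x * D y) =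
      x * (b * D (E y) + D b * E y + y * D (E b) + D y * E b) +
      y * (b * D (E x) + D b * E x + D x * E b) := by
    simp only [Derivation.leibniz, map_add, smul_eq_mul]
    ring
  rw [h1]
  exact Q.add_mem (Q.mul_mem_right _ hx) (Q.mul_mem_right _ hy)

theorem second_deriv_mem₁ {A P : Type} [CommRing A] [CommRing P] [Algebra A P]
    (D E : Derivation A P P) (Q : Ideal P) {b x : P} (hx : x ∈ Q) (hDx : D x ∈ Q)
    (hEx : E x ∈ Q) : D (E (b * x)) - b * D (E x) ∈ Q := by
  have h1 : D (E (b * x)) - b * D (E x) = x * D (E b) + D x * E b + E x * D b := by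
    simp only [Derivation.leibniz, map_add, smul_eq_mul]
    ring
  rw [h1]
  exact Q.add_mem (Q.add_mem (Q.mul_mem_right _ hx) (Q.mul_mem_right _ hDx))
    (Q.mul_mem_right _ hEx)

end Sq

section Normal

variable {σ : Type} [Fintype σ] [DecidableEq σ] {p : ℕ} (hp : p.Prime)
  (Q : Ideal (MvPolynomial σ ℤ)) [hQp : Q.IsPrime] (hQ : C (p : ℤ) ∈ Q)
  {F : MvPolynomial σ ℤ} (hF : F ∈ Q) (hy : ∀ j, pderiv j F ∈ Q)
  (hdet : (Matrix.of fun i j => pderiv i (pderiv j F)).det ∉ Q)
include hp hQ hF hy hdet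

/-- First step: the linear normal form. -/
theorem exists_linear_form {r : ℕ} {t c₀ : MvPolynomial σ ℤ} {c : σ → MvPolynomial σ ℤ}
    (ht : t ∉ Q) (hr : t * C (p : ℤ) ^ r = c₀ * F + ∑ j, c j * pderiv j F) :
    ∃ e, 1 ≤ e ∧ e ≤ r ∧ ∃ s U : MvPolynomial σ ℤ, s ∉ Q ∧ U ∉ Q ∧
      ∃ c : σ → MvPolynomial σ ℤ, s * F = U * C (p : ℤ) ^ e + ∑ j, c j * pderiv j F := by
  by_contra hcon
  push Not at hcon
  have key : ∀ k ≤ r + 1, ∃ s U : MvPolynomial σ ℤ, s ∉ Q ∧
      ∃ c : σ → MvPolynomial σ ℤ, s * F = U * C (p : ℤ) ^ k + ∑ j, c j * pderiv j F := by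
    intro k
    induction k with
    | zero =>
      intro _
      exact ⟨1, F, fun h => hQp.ne_top ((Ideal.eq_top_iff_one _).mpr h), 0, by simp⟩
    | succ k ih =>
      intro hk
      obtain ⟨s, U, hs, c', hc'⟩ := ih (by omega)
      have hU : U ∈ Q := by
        rcases Nat.eq_zero_or_pos k with rfl | hk0
        · have h1 : U = s * F - ∑ j, c' j * pderiv j F := by
            rw [hc']; ring
          rw [h1]
          exact Q.sub_mem (Q.mul_mem_left _ hF) (Q.sum_mem fun j _ => Q.mul_mem_left _ (hy j))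
        · by_contra hU
          exact hcon k hk0 (by omega) s U hs hU c' hc'
      obtain ⟨s', hs', d₀, d, hd⟩ := param_span hp Q hQ hy hdet hU
      refine ⟨s' * s, d₀, hQp.mul_notMem hs' hs, fun j => d j * C (p : ℤ) ^ k + s' * c' j, ?_⟩
      rw [mul_assoc, hc', mul_add, ← mul_assoc, hd, add_mul, Finset.sum_mul, Finset.mul_sum,
        add_assoc, ← Finset.sum_add_distrib]
      congr 1
      · ring
      · refine Finset.sum_congr rfl fun j _ => ?_
        ring
  obtain ⟨s, U, hs, c', hc'⟩ := key (r + 1) le_rfl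
  refine param_pow_notMem hp Q hQ hy hdet r (s := s * t - c₀ * U * C (p : ℤ))
    (c := fun j => c₀ * c' j + s * c j) ?_ ?_
  · intro h
    have h1 : s * t ∈ Q := by
      have := Q.add_mem h (Q.mul_mem_left (c₀ * U) hQ)
      rwa [sub_add_cancel] at this
    exact hQp.mul_notMem hs ht h1
  · have h1 : ∑ j, (c₀ * c' j + s * c j) * pderiv j F =
        c₀ * ∑ j, c' j * pderiv j F + s * ∑ j, c j * pderiv j F := by
      rw [Finset.mul_sum, Finset.mul_sum, ← Finset.sum_add_distrib]
      refine Finset.sum_congr rfl fun j _ => ?_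
      ring
    rw [h1]
    linear_combination s * hr + c₀ * hc'

/-- **Normal form.** -/
theorem exists_normal_form {r : ℕ} {t c₀ : MvPolynomial σ ℤ} {c : σ → MvPolynomial σ ℤ}
    (ht : t ∉ Q) (hr : t * C (p : ℤ) ^ r = c₀ * F + ∑ j, c j * pderiv j F) :
    ∃ e, 1 ≤ e ∧ e ≤ r ∧ ∃ s U : MvPolynomial σ ℤ, s ∉ Q ∧ U ∉ Q ∧
      ∃ β : Matrix σ σ (MvPolynomial σ ℤ),
        s * F = U * C (p : ℤ) ^ e + ∑ i, ∑ j, β i j * (pderiv i F * pderiv j F) ∧
        (β + βᵀ).det ∉ Q := by
  obtain ⟨e, he1, he2, s, U, hs, hU, c, hc⟩ := exists_linear_form hp Q hQ hF hy hdet ht hr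
  let H : Matrix σ σ (MvPolynomial σ ℤ) := Matrix.of fun i j => pderiv i (pderiv j F)
  obtain ⟨h, hh⟩ : ∃ h, h = H.det := ⟨_, rfl⟩
  have hh' : h ∉ Q := by rw [hh]; exact hdet
  obtain ⟨y, hyd⟩ : ∃ y : σ → MvPolynomial σ ℤ, y = fun j => pderiv j F := ⟨_, rfl⟩
  have hyj : ∀ j, y j = pderiv j F := fun j => by rw [hyd]
  have hyQ : ∀ j, y j ∈ Q := fun j => by rw [hyj]; exact hy j
  let I : Ideal (MvPolynomial σ ℤ) := Ideal.span (Set.range y)
  have hyI : ∀ j, y j ∈ I := fun j => Ideal.subset_span ⟨j, rfl⟩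
  have hIQ : I ≤ Q := by
    rw [Ideal.span_le]
    rintro _ ⟨j, rfl⟩
    exact hyQ j
  let D : σ → MvPolynomial σ ℤ → MvPolynomial σ ℤ := fun m x =>
    ∑ k, H.adjugate m k * pderiv k x
  have hDy : ∀ m j, D m (y j) = if m = j then h else 0 := by
    intro m j
    have h1 : (H.adjugate * H) m j = (h • (1 : Matrix σ σ (MvPolynomial σ ℤ))) m j := by
      rw [Matrix.adjugate_mul, hh]
    rw [Matrix.mul_apply, Matrix.smul_apply, Matrix.one_apply, smul_eq_mul] at h1
    change ∑ k, H.adjugate m k * pderiv k (y j) = _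
    rw [hyj]
    refine h1.trans ?_
    split_ifs <;> simp
  have hDmul : ∀ m a b, D m (a * b) = a * D m b + b * D m a := by
    intro m a b
    simp only [D, Finset.mul_sum, ← Finset.sum_add_distrib]
    refine Finset.sum_congr rfl fun k _ => ?_
    rw [Derivation.leibniz, smul_eq_mul, smul_eq_mul]
    ring
  have hDadd : ∀ m a b, D m (a + b) = D m a + D m b := by
    intro m a b
    simp only [D, ← Finset.sum_add_distrib]
    refine Finset.sum_congr rfl fun k _ => ?_
    rw [map_add]
    ring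
  have hDsum : ∀ m (f : σ → MvPolynomial σ ℤ), D m (∑ j, f j) = ∑ j, D m (f j) := by
    intro m f
    simp only [D, map_sum, Finset.mul_sum]
    rw [Finset.sum_comm]
  have hDp : ∀ m, D m (C (p : ℤ) ^ e) = 0 := by
    intro m
    simp only [D]
    refine Finset.sum_eq_zero fun k _ => ?_
    rw [← map_pow, pderiv_C, mul_zero]
  have hDF : ∀ m, D m F ∈ I := by
    intro m
    refine I.sum_mem fun k _ => I.mul_mem_left _ ?_
    rw [← hyj]
    exact hyI k
  -- the coefficients
  have hcm : ∀ m, s * c m * h - C (p : ℤ) ^ e * (D m s * U - s * D m U) ∈ I := by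
    intro m
    have h1 := congrArg (D m) hc
    rw [hDmul, hDadd, hDmul, hDp, mul_zero, zero_add, hDsum] at h1
    have h2 : ∑ j, D m (c j * pderiv j F) = ∑ j, y j * D m (c j) + c m * h := by
      have h3 : ∀ j, D m (c j * pderiv j F) = y j * D m (c j) + c j * if m = j then h else 0 := by
        intro j
        rw [← hyj, hDmul, hDy]
        ring
      simp_rw [h3]
      rw [Finset.sum_add_distrib]
      simp
    rw [h2] at h1
    have h4 : ∑ j, y j * D m (c j) ∈ I := I.sum_mem fun j _ => I.mul_mem_right _ (hyI j)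
    have h5 : ∑ j, c j * pderiv j F ∈ I := I.sum_mem fun j _ => by
      rw [← hyj]; exact I.mul_mem_left _ (hyI j)
    have h6 : s * c m * h - C (p : ℤ) ^ e * (D m s * U - s * D m U) =
        s * s * D m F + D m s * (∑ j, c j * pderiv j F) - s * ∑ j, y j * D m (c j) := by
      linear_combination D m s * hc - s * h1
    rw [h6]
    exact I.sub_mem (I.add_mem (I.mul_mem_left _ (hDF m)) (I.mul_mem_left _ h5))
      (I.mul_mem_left _ h4)
  obtain ⟨V, hV⟩ : ∃ V : σ → MvPolynomial σ ℤ, V = fun m => D m s * U - s * D m U := ⟨_, rfl⟩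
  have hsq : s * s * h * F - (s * h * U + ∑ j, V j * y j) * C (p : ℤ) ^ e ∈ I ^ 2 := by
    have h1 : s * s * h * F - (s * h * U + ∑ j, V j * y j) * C (p : ℤ) ^ e =
        ∑ j, (s * c j * h - C (p : ℤ) ^ e * (D j s * U - s * D j U)) * y j := by
      have h2 : ∑ j, (s * c j * h - C (p : ℤ) ^ e * (D j s * U - s * D j U)) * y j =
          s * h * (∑ j, c j * pderiv j F) - C (p : ℤ) ^ e * ∑ j, V j * y j := by
        rw [Finset.mul_sum, Finset.mul_sum, ← Finset.sum_sub_distrib]
        refine Finset.sum_congr rfl fun j _ => ?_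
        rw [← hyj, hV]
        ring
      rw [h2]
      linear_combination s * h * hc
    rw [h1, pow_two]
    exact Ideal.sum_mem _ fun j _ => Ideal.mul_mem_mul (hcm j) (hyI j)
  obtain ⟨β, hβ⟩ := mem_span_sq y hsq
  have hs' : s * s * h ∉ Q := hQp.mul_notMem (hQp.mul_notMem hs hs) hh'
  have heq : s * s * h * F = (s * h * U + ∑ j, V j * y j) * C (p : ℤ) ^ e +
      ∑ i, ∑ j, β i j * (pderiv i F * pderiv j F) := by
    have h1 : ∑ i, ∑ j, β i j * (pderiv i F * pderiv j F) =
        ∑ i, ∑ j, β i j * (y i * y j) := by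
      simp_rw [hyj]
    rw [h1, ← hβ]
    ring
  refine ⟨e, he1, he2, s * s * h, s * h * U + ∑ j, V j * y j, hs', ?_, β, heq, ?_⟩
  · intro hmem
    have h1 : s * h * U ∈ Q := by
      have h2 := Q.sub_mem hmem (Q.sum_mem (t := Finset.univ) (f := fun j => V j * y j)
        fun j _ => Q.mul_mem_left _ (hyQ j))
      rwa [add_sub_cancel_right] at h2
    exact hQp.mul_notMem (hQp.mul_notMem hs hh') hU h1
  · intro hmem
    -- second derivatives
    have h1 : ∀ k l, s * s * h * H k l - (H * (β + βᵀ) * Hᵀ) k l ∈ Q := by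
      intro k l
      have e1 := second_deriv_mem₁ (pderiv k) (pderiv l) Q (b := s * s * h) hF (hy k) (hy l)
      have e2 : pderiv k (pderiv l ((s * h * U + ∑ j, V j * y j) * C (p : ℤ) ^ e)) ∈ Q := by
        have e3 : pderiv k (pderiv l ((s * h * U + ∑ j, V j * y j) * C (p : ℤ) ^ e)) =
            C (p : ℤ) ^ e * pderiv k (pderiv l (s * h * U + ∑ j, V j * y j)) := by
          rw [← map_pow, mul_comm, pderiv_C_mul, pderiv_C_mul]
        rw [e3]
        exact Q.mul_mem_right _ (Q.pow_mem_of_mem hQ _ (by omega))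
      have e4 : pderiv k (pderiv l (∑ i, ∑ j, β i j * (pderiv i F * pderiv j F))) -
          ∑ i, ∑ j, β i j * (H k i * H l j + H l i * H k j) ∈ Q := by
        rw [map_sum, map_sum, ← Finset.sum_sub_distrib]
        refine Q.sum_mem fun i _ => ?_
        rw [map_sum, map_sum, ← Finset.sum_sub_distrib]
        refine Q.sum_mem fun j _ => ?_
        exact second_deriv_mem (pderiv k) (pderiv l) Q (hy i) (hy j)
      rw [heq, map_add, map_add] at e1
      have e5 : (H * (β + βᵀ) * Hᵀ) k l =
          ∑ i, ∑ j, β i j * (H k i * H l j + H l i * H k j) := by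
        have e6 : ∑ i, ∑ j, β i j * (H k i * H l j + H l i * H k j) =
            ∑ i, ∑ j, β i j * (H k i * H l j) + ∑ i, ∑ j, β i j * (H l i * H k j) := by
          simp only [← Finset.sum_add_distrib, mul_add]
        rw [e6, Finset.sum_comm (f := fun i j => β i j * (H l i * H k j))]
        rw [Matrix.mul_add, Matrix.add_mul, Matrix.add_apply]
        congr 1
        · rw [Matrix.mul_apply, Finset.sum_comm]
          refine Finset.sum_congr rfl fun j _ => ?_
          rw [Matrix.mul_apply, Finset.sum_mul, Matrix.transpose_apply]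
          refine Finset.sum_congr rfl fun i _ => ?_
          ring
        · rw [Matrix.mul_apply, Finset.sum_comm]
          refine Finset.sum_congr rfl fun j _ => ?_
          rw [Matrix.mul_apply, Finset.sum_mul, Matrix.transpose_apply]
          refine Finset.sum_congr rfl fun i _ => ?_
          rw [Matrix.transpose_apply]
          ring
      rw [e5]
      have e7 : s * s * h * H k l - ∑ i, ∑ j, β i j * (H k i * H l j + H l i * H k j) =
          pderiv k (pderiv l ((s * h * U + ∑ j, V j * y j) * C (p : ℤ) ^ e)) +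
          (pderiv k (pderiv l (∑ i, ∑ j, β i j * (pderiv i F * pderiv j F))) -
            ∑ i, ∑ j, β i j * (H k i * H l j + H l i * H k j)) -
          (pderiv k (pderiv l ((s * h * U + ∑ j, V j * y j) * C (p : ℤ) ^ e)) +
            pderiv k (pderiv l (∑ i, ∑ j, β i j * (pderiv i F * pderiv j F))) -
            s * s * h * pderiv k (pderiv l F)) := by
        change s * s * h * pderiv k (pderiv l F) - _ = _
        ring
      rw [e7]
      exact Q.sub_mem (Q.add_mem e2 e4) e1
    have h2 : ((s * s * h) • H).map (Ideal.Quotient.mk Q) =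
        (H * (β + βᵀ) * Hᵀ).map (Ideal.Quotient.mk Q) := by
      ext k l
      rw [Matrix.map_apply, Matrix.map_apply, Ideal.Quotient.eq, Matrix.smul_apply, smul_eq_mul]
      exact h1 k l
    have h3 := congrArg Matrix.det h2
    rw [← RingHom.mapMatrix_apply, ← RingHom.mapMatrix_apply, ← RingHom.map_det,
      ← RingHom.map_det, Matrix.det_smul, Matrix.det_mul, Matrix.det_mul, Matrix.det_transpose,
      Ideal.Quotient.eq] at h3
    have h4 : H.det * (β + βᵀ).det * H.det ∈ Q := Q.mul_mem_right _ (Q.mul_mem_left _ hmem)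
    have h5 := Q.add_mem h3 h4
    rw [sub_add_cancel] at h5
    exact hQp.mul_notMem (fun h6 => hs' (hQp.mem_of_pow_mem _ h6)) hdet h5

end Normal

end Pool.Agent.Lib.MP_6a3dac_ag
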