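import Pool.Agent.Lib.MP_6a3dac_ag.Dens.Indep
import Pool.Agent.Lib.MP_6a3dac_ag.Dens.Normal
import Pool.Agent.Lib.MP_6a3dac_ag.Mg.G002

/-!
# Regularity of the charts over nondegenerate double points
-/

set_option autoImplicit false

namespace Pool.Agent.Lib.MP_6a3dac_ag

open MvPolynomial Matrix IsLocalRing

/-- The exponents of the strict transform. -/
theorem exponent_identity {A : Type} [CommRing A] (v t : A) (k e : ℕ) :
    ((v * t) ^ k * v) ^ 2 * (v ^ (e - (2 * k + 2)) * t ^ (e - 2 * k)) =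
      v ^ (2 * k + 2 - e) * t ^ (2 * k - e) * (v * t) ^ e := by
  have h1 : ((v * t) ^ k * v) ^ 2 * (v ^ (e - (2 * k + 2)) * t ^ (e - 2 * k)) =
      v ^ (2 * k + 2 + (e - (2 * k + 2))) * t ^ (2 * k + (e - 2 * k)) := by
    rw [mul_pow v t k, pow_add, pow_add]
    ring
  have h2 : v ^ (2 * k + 2 - e) * t ^ (2 * k - e) * (v * t) ^ e =
      v ^ (2 * k + 2 - e + e) * t ^ (2 * k - e + e) := by
    rw [mul_pow, pow_add, pow_add]
    ring
  rw [h1, h2]
  congr 2 <;> omega

section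

variable {σ : Type} [Fintype σ] [DecidableEq σ] {p : ℕ} {F : MvPolynomial σ ℤ} {l₀ : σ}
  {U : MvPolynomial σ ℤ} {β : Matrix σ σ (MvPolynomial σ ℤ)} {k e : ℕ}

/-- The ideal of the equations without the last one. -/
noncomputable def preI (p : ℕ) (F : MvPolynomial σ ℤ) (l₀ : σ) (k : ℕ) :
    Ideal (MvPolynomial (CVar σ) ℤ) :=
  Ideal.span (Set.range (fun l => emb (pderiv l F) - C (p : ℤ) ^ k * cv σ * cw l) ∪
    {cv σ * ct σ - C (p : ℤ), cw l₀ - 1})

omit [DecidableEq σ] in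
theorem preI_le : preI p F l₀ k ≤ Ideal.span (Set.range (crel p F l₀ U β k e)) := by
  rw [preI, Ideal.span_le]
  rintro x (⟨l, rfl⟩ | hx)
  · exact Ideal.subset_span ⟨Sum.inl l, rfl⟩
  · rcases hx with rfl | hx
    · exact Ideal.subset_span ⟨Sum.inr 0, rfl⟩
    · rw [Set.mem_singleton_iff] at hx
      rw [hx]
      exact Ideal.subset_span ⟨Sum.inr 1, rfl⟩

omit [Fintype σ] [DecidableEq σ] in
theorem preI_eqs :
    (∀ l, Ideal.Quotient.mk (preI p F l₀ k) (emb (pderiv l F)) =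
      Ideal.Quotient.mk _ (C (p : ℤ)) ^ k * Ideal.Quotient.mk _ (cv σ) *
        Ideal.Quotient.mk _ (cw l)) ∧
    Ideal.Quotient.mk (preI p F l₀ k) (cv σ) * Ideal.Quotient.mk _ (ct σ) =
      Ideal.Quotient.mk _ (C (p : ℤ)) ∧
    Ideal.Quotient.mk (preI p F l₀ k) (cw l₀) = 1 := by
  refine ⟨fun l => ?_, ?_, ?_⟩
  · rw [← map_pow, ← map_mul, ← map_mul, Ideal.Quotient.eq]
    exact Ideal.subset_span (Or.inl ⟨l, rfl⟩)
  · rw [← map_mul, Ideal.Quotient.eq]
    exact Ideal.subset_span (Or.inr (Or.inl rfl))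
  · rw [← map_one (Ideal.Quotient.mk (preI p F l₀ k)), Ideal.Quotient.eq]
    exact Ideal.subset_span (Or.inr (Or.inr rfl))

section Abstract

variable {A : Type} [CommRing A] (π : MvPolynomial (CVar σ) ℤ →+* A)
  (h1 : ∀ l, π (emb (pderiv l F)) = π (C (p : ℤ)) ^ k * π (cv σ) * π (cw l))
  (h2 : π (cv σ) * π (ct σ) = π (C (p : ℤ))) (h3 : π (cw l₀) = 1)
include h1 h2 h3

omit [DecidableEq σ] in
theorem strict_identity_aux {s : MvPolynomial σ ℤ}
    (hF : s * F = U * C (p : ℤ) ^ e + ∑ i, ∑ j, β i j * (pderiv i F * pderiv j F)) :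
    π (emb (pderiv l₀ F) ^ 2 * strictF U β k e) =
      π (emb s * (cv σ ^ (2 * k + 2 - e) * ct σ ^ (2 * k - e)) * emb F) := by
  have hF' := congrArg (fun x => π (emb x)) hF
  simp only [map_add, map_mul, map_sum, map_pow] at hF'
  have hCp : (emb (C (p : ℤ)) : MvPolynomial (CVar σ) ℤ) = C (p : ℤ) := by
    rw [emb, rename_C]
  simp only [hCp, h1] at hF'
  have e1 : π (emb s * (cv σ ^ (2 * k + 2 - e) * ct σ ^ (2 * k - e)) * emb F) =
      π (cv σ) ^ (2 * k + 2 - e) * π (ct σ) ^ (2 * k - e) * (π (emb s) * π (emb F)) := by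
    simp only [map_mul, map_pow]
    ring
  rw [e1, hF', map_mul, map_pow, h1, h3, mul_one, strictF_eq, map_add, map_mul π _ (qpart β),
    map_mul, map_mul, map_mul, map_pow, map_pow, map_pow, map_pow, qpart, ← h2]
  have e2 := exponent_identity (π (cv σ)) (π (ct σ)) k e
  rw [mul_add, mul_add]
  congr 1
  · linear_combination (π (emb U)) * e2
  · simp only [map_sum, map_mul, Finset.mul_sum]
    refine Finset.sum_congr rfl fun i _ => Finset.sum_congr rfl fun j _ => ?_
    ring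

omit [Fintype σ] [DecidableEq σ] in
theorem exists_clear_aux (g : MvPolynomial (CVar σ) ℤ) :
    ∃ (N : ℕ) (g₀ : MvPolynomial σ ℤ),
      π ((C (p : ℤ) * emb (pderiv l₀ F)) ^ N * g) = π (emb g₀) := by
  have hCp : (emb (C (p : ℤ)) : MvPolynomial (CVar σ) ℤ) = C (p : ℤ) := by
    rw [emb, rename_C]
  have hX : ∀ z : CVar σ, ∃ (N : ℕ) (g₀ : MvPolynomial σ ℤ),
      π ((C (p : ℤ) * emb (pderiv l₀ F)) ^ N * X z) = π (emb g₀) := by
    rintro (j | j | b)
    · exact ⟨0, X j, by rw [pow_zero, one_mul, emb, rename_X]⟩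
    · refine ⟨1, C (p : ℤ) * pderiv j F, ?_⟩
      have e1 : (X (Sum.inr (Sum.inl j)) : MvPolynomial (CVar σ) ℤ) = cw j := rfl
      rw [e1, pow_one]
      simp only [map_mul, hCp, h1, h3]
      ring
    · rcases b with _ | _
      · refine ⟨1, C (p : ℤ) * C (p : ℤ) ^ (k + 1), ?_⟩
        have e1 : (X (Sum.inr (Sum.inr false)) : MvPolynomial (CVar σ) ℤ) = ct σ := rfl
        rw [e1, pow_one]
        simp only [map_mul, map_pow, hCp, h1, h3]
        rw [← h2]
        ring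
      · refine ⟨k, pderiv l₀ F ^ k * pderiv l₀ F, ?_⟩
        have e1 : (X (Sum.inr (Sum.inr true)) : MvPolynomial (CVar σ) ℤ) = cv σ := rfl
        rw [e1]
        simp only [map_mul, map_pow, h1, h3, mul_one]
        ring
  induction g using MvPolynomial.induction_on with
  | C a =>
    exact ⟨0, C a, by rw [pow_zero, one_mul, emb, rename_C]⟩
  | add a b ha hb =>
    obtain ⟨N, g₀, h4⟩ := ha
    obtain ⟨N', g₀', h5⟩ := hb
    refine ⟨N + N', (C (p : ℤ) * pderiv l₀ F) ^ N' * g₀ + (C (p : ℤ) * pderiv l₀ F) ^ N * g₀', ?_⟩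
    simp only [map_add, map_mul, map_pow, hCp] at h4 h5 ⊢
    rw [← h4, ← h5]
    ring
  | mul_X a z ha =>
    obtain ⟨N, g₀, h4⟩ := ha
    obtain ⟨N', g₀', h5⟩ := hX z
    refine ⟨N + N', g₀ * g₀', ?_⟩
    simp only [map_mul, map_pow] at h4 h5 ⊢
    rw [← h4, ← h5]
    ring

end Abstract

omit [DecidableEq σ] in
/-- The equation of the strict transform. -/
theorem strict_identity {s : MvPolynomial σ ℤ}
    (hF : s * F = U * C (p : ℤ) ^ e + ∑ i, ∑ j, β i j * (pderiv i F * pderiv j F)) :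
    emb (pderiv l₀ F) ^ 2 * strictF U β k e -
      emb s * (cv σ ^ (2 * k + 2 - e) * ct σ ^ (2 * k - e)) * emb F ∈ preI p F l₀ k := by
  obtain ⟨h1, h2, h3⟩ := preI_eqs (p := p) (F := F) (l₀ := l₀) (k := k)
  rw [← Ideal.Quotient.eq]
  exact strict_identity_aux _ h1 h2 h3 hF

omit [Fintype σ] [DecidableEq σ] in
/-- Clearing denominators. -/
theorem exists_clear (g : MvPolynomial (CVar σ) ℤ) :
    ∃ (N : ℕ) (g₀ : MvPolynomial σ ℤ),
      (C (p : ℤ) * emb (pderiv l₀ F)) ^ N * g - emb g₀ ∈ preI p F l₀ k := by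
  obtain ⟨h1, h2, h3⟩ := preI_eqs (p := p) (F := F) (l₀ := l₀) (k := k)
  obtain ⟨N, g₀, h⟩ := exists_clear_aux _ h1 h2 h3 g
  exact ⟨N, g₀, Ideal.Quotient.eq.mp h⟩

end

section Chart

variable {σ : Type} [Fintype σ] [DecidableEq σ] {p : ℕ} {F : MvPolynomial σ ℤ} {l₀ : σ}
  {U s : MvPolynomial σ ℤ} {β : Matrix σ σ (MvPolynomial σ ℤ)} {k e : ℕ}
  {D : Type} [CommRing D] [IsDomain D] [IsLocalRing D] (φ : MvPolynomial σ ℤ →+* D)

/-- **Regularity of the charts over nondegenerate double points.** -/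
theorem isRegularLocalRing_of_double (hp : p.Prime) (hp2 : p ≠ 2) (he : 1 ≤ e)
    (hφF : φ F = 0) (hker : ∀ g, φ g = 0 → ∃ m : ℤ, m ≠ 0 ∧ ∃ q, C m * g = F * q)
    (hchar : ∀ m : ℤ, m ≠ 0 → (m : D) ≠ 0) (hpD : (p : D) ∈ maximalIdeal D)
    (hy : ∀ l, φ (pderiv l F) ∈ maximalIdeal D) (hs : IsUnit (φ s)) (hU : IsUnit (φ U))
    (hdet : IsUnit (φ (Matrix.of fun i j => pderiv i (pderiv j F)).det))
    (hβ : IsUnit (φ (β + βᵀ).det))
    (hF : s * F = U * C (p : ℤ) ^ e + ∑ i, ∑ j, β i j * (pderiv i F * pderiv j F))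
    {v t : D} {w : σ → D} (hv : (p : D) ^ k * v = φ (pderiv l₀ F)) (ht : v * t = p)
    (hw : ∀ l, φ (pderiv l₀ F) * w l = φ (pderiv l F)) (hy0 : φ (pderiv l₀ F) ≠ 0)
    (hgen : ∀ R' : Subring D, Dom R' → (∀ g, φ g ∈ R') → v ∈ R' → t ∈ R' → (∀ l, w l ∈ R') →
      R' = ⊤) : IsRegularLocalRing D := by
  let δ : MvPolynomial (CVar σ) ℤ →+* D := eval₂Hom (Int.castRingHom D)
    (Sum.elim (fun j => φ (X j)) (Sum.elim w fun b => if b then v else t))
  have hδC : ∀ m : ℤ, δ (C m) = m := fun m => by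
    simp only [δ, coe_eval₂Hom, eval₂_C]
    rfl
  have hδemb : ∀ q, δ (emb q) = φ q := by
    intro q
    have : (δ.comp (emb : MvPolynomial σ ℤ →ₐ[ℤ] _).toRingHom) = φ := by
      apply MvPolynomial.ringHom_ext
      · intro r
        change δ (emb (C r)) = φ (C r)
        rw [emb, rename_C, hδC]
        exact (eq_intCast (φ.comp C) r).symm
      · intro i
        change δ (emb (X i)) = φ (X i)
        rw [emb, rename_X]
        simp only [δ, coe_eval₂Hom, eval₂_X, Sum.elim_inl]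
    exact congrArg (fun f : MvPolynomial σ ℤ →+* D => f q) this
  have hδw : ∀ l, δ (cw l) = w l := fun l => by
    simp only [δ, cw, coe_eval₂Hom, eval₂_X, Sum.elim_inl, Sum.elim_inr]
  have hδv : δ (cv σ) = v := by
    simp [δ, cv]
  have hδt : δ (ct σ) = t := by
    simp [δ, ct]
  have hδp : δ (C (p : ℤ)) = p := by rw [hδC]; simp
  have hp0 : (p : D) ≠ 0 := by
    have := hchar p (by exact_mod_cast hp.ne_zero)
    simpa using this
  have hv0 : v ≠ 0 := by
    rintro rfl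
    rw [zero_mul] at ht
    exact hp0 ht.symm
  have ht0 : t ≠ 0 := by
    rintro rfl
    rw [mul_zero] at ht
    exact hp0 ht.symm
  have hw0 : w l₀ = 1 := by
    apply mul_left_cancel₀ hy0
    rw [hw, mul_one]
  have hpre : preI p F l₀ k ≤ RingHom.ker δ := by
    rw [preI, Ideal.span_le]
    rintro x (⟨l, rfl⟩ | hx)
    · change δ _ = 0
      rw [map_sub, map_mul, map_mul, map_pow, hδemb, hδp, hδv, hδw, hv, hw, sub_self]
    · rcases hx with rfl | hx
      · change δ _ = 0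
        rw [map_sub, map_mul, hδv, hδt, hδp, ht, sub_self]
      · rw [Set.mem_singleton_iff] at hx
        rw [hx]
        change δ _ = 0
        rw [map_sub, map_one, hδw, hw0, sub_self]
  have hid := strict_identity (l₀ := l₀) (k := k) hF
  have hδF : δ (strictF U β k e) = 0 := by
    have h1 : δ _ = 0 := hpre hid
    rw [map_sub, map_mul, map_mul, hδemb F, hφF, mul_zero, sub_zero, map_pow, hδemb] at h1
    exact (mul_eq_zero.mp h1).resolve_left (pow_ne_zero _ hy0)
  have hrel : ∀ i, δ (crel p F l₀ U β k e i) = 0 := by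
    rintro (l | i)
    · exact hpre (Ideal.subset_span (Or.inl ⟨l, rfl⟩))
    · fin_cases i
      · exact hpre (Ideal.subset_span (Or.inr (Or.inl rfl)))
      · exact hpre (Ideal.subset_span (Or.inr (Or.inr rfl)))
      · exact hδF
  let E := Fintype.equivFin (σ ⊕ Fin 3)
  have hrange : Set.range (fun i => crel p F l₀ U β k e (E.symm i)) =
      Set.range (crel p F l₀ U β k e) := by
    ext x
    constructor
    · rintro ⟨i, rfl⟩
      exact ⟨E.symm i, rfl⟩
    · rintro ⟨i, rfl⟩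
      exact ⟨E i, by simp⟩
  have hunit : ∀ x, x ∉ Ideal.comap δ (maximalIdeal D) ↔ IsUnit (δ x) := by
    intro x
    rw [Ideal.mem_comap, IsLocalRing.mem_maximalIdeal, mem_nonunits_iff, not_not]
  refine isRegularLocalRing_of_chart δ (fun i => crel p F l₀ U β k e (E.symm i))
    (fun i => hrel _) ?_ ?_ ?_
  · intro x hx c hc i
    have hQ : (Ideal.comap δ (maximalIdeal D)).IsPrime := Ideal.IsPrime.comap δ
    have h1 := crel_indep (p := p) (F := F) (l₀ := l₀) (U := U) (β := β) (k := k) hp hp2 he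
      (Ideal.comap δ (maximalIdeal D)) (by rw [Ideal.mem_comap, hδp]; exact hpD)
      (fun i => by rw [Ideal.mem_comap, hrel]; exact Ideal.zero_mem _)
      (fun l => by rw [Ideal.mem_comap, hδemb]; exact hy l)
      ((hunit _).mpr (by rw [hδemb]; exact hU)) ((hunit _).mpr (by rw [hδemb]; exact hdet))
      ((hunit _).mpr (by rw [hδemb]; exact hβ)) ((hunit _).mpr hx) (fun i => c (E i)) (by
        have h2 : ∑ i, c (E i) * crel p F l₀ U β k e i =
            ∑ i, c i * crel p F l₀ U β k e (E.symm i) := by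
          rw [← Equiv.sum_comp E]
          simp
        rw [h2]
        exact hc) (E.symm i)
    simpa using h1
  · intro z
    have h1 : locIn δ = ⊤ := by
      refine hgen (locIn δ) (dom_locIn δ) ?_ ?_ ?_ ?_
      · intro g
        rw [← hδemb]
        exact map_mem_locIn δ _
      · rw [← hδv]; exact map_mem_locIn δ _
      · rw [← hδt]; exact map_mem_locIn δ _
      · intro l
        rw [← hδw]; exact map_mem_locIn δ _
    have h2 : z ∈ locIn δ := by rw [h1]; exact Subring.mem_top z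
    obtain ⟨a, b, h3, h4⟩ := h2
    exact ⟨a, b, h3, h4⟩
  · intro g hg
    rw [hrange]
    obtain ⟨N, g₀, hg₀⟩ := exists_clear (p := p) (F := F) (l₀ := l₀) (k := k) g
    have hφg₀ : φ g₀ = 0 := by
      have h1 : δ _ = 0 := hpre hg₀
      rw [map_sub, map_mul, hg, mul_zero, zero_sub, neg_eq_zero, hδemb] at h1
      exact h1
    obtain ⟨m, hm, q, hq⟩ := hker g₀ hφg₀
    refine ⟨C m * (emb s * (cv σ ^ (2 * k + 2 - e) * ct σ ^ (2 * k - e))) *
      (C (p : ℤ) * emb (pderiv l₀ F)) ^ N, ?_, ?_⟩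
    · rw [map_mul, map_mul, map_mul, map_mul, map_pow, map_pow, map_pow, map_mul, hδC, hδemb,
        hδemb, hδv, hδt, hδp]
      exact mul_ne_zero (mul_ne_zero (hchar m hm) (mul_ne_zero hs.ne_zero
        (mul_ne_zero (pow_ne_zero _ hv0) (pow_ne_zero _ ht0)))) (pow_ne_zero _
        (mul_ne_zero hp0 hy0))
    · have h1 : emb (C m * g₀) = emb F * emb q := by
        rw [hq, map_mul]
      have h2 : (emb (C m) : MvPolynomial (CVar σ) ℤ) = C m := by rw [emb, rename_C]
      rw [map_mul, h2] at h1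
      have h3 : C m * (emb s * (cv σ ^ (2 * k + 2 - e) * ct σ ^ (2 * k - e))) *
          (C (p : ℤ) * emb (pderiv l₀ F)) ^ N * g =
          C m * (emb s * (cv σ ^ (2 * k + 2 - e) * ct σ ^ (2 * k - e))) *
            ((C (p : ℤ) * emb (pderiv l₀ F)) ^ N * g - emb g₀) -
          emb q * (emb (pderiv l₀ F) ^ 2 * strictF U β k e -
            emb s * (cv σ ^ (2 * k + 2 - e) * ct σ ^ (2 * k - e)) * emb F) +
          emb q * emb (pderiv l₀ F) ^ 2 * strictF U β k e := by
        linear_combination (emb s * (cv σ ^ (2 * k + 2 - e) * ct σ ^ (2 * k - e))) * h1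
      rw [h3]
      refine Ideal.add_mem _ (Ideal.sub_mem _ (Ideal.mul_mem_left _ _ (preI_le hg₀))
        (Ideal.mul_mem_left _ _ (preI_le hid))) (Ideal.mul_mem_left _ _
        (Ideal.subset_span ⟨Sum.inr 2, rfl⟩))

end Chart

end Pool.Agent.Lib.MP_6a3dac_ag
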