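import Mathlib
import Pool.Agent.Lib.MP_6a3dac_ag.Dens.Defs

/-!
# Smooth residue classes

For every bound there are residue classes of coefficients which are smooth modulo all primes up to
this bound; by Nakayama's lemma the forms in these classes are smooth away from a nonzero integer
prime to all of them.
-/

set_option autoImplicit false

namespace Pool.Agent.Lib.MP_6a3dac_ag

open MvPolynomial

open scoped Pointwise

attribute [local instance] MvPolynomial.gradedAlgebra

/-- The Jacobian ideal of a polynomial. -/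
noncomputable def smJ {n : ℕ} (f : MvPolynomial (Fin (n + 1)) ℤ) :
    Ideal (MvPolynomial (Fin (n + 1)) ℤ) :=
  Ideal.span (insert f (Set.range fun l => pderiv l f))

theorem smForm_isHomogeneous {n d : ℕ} {R : Type} [CommRing R] (a : Mono n d → R) :
    (form a).IsHomogeneous d := by
  unfold form
  refine IsHomogeneous.sum _ _ _ fun μ _ => ?_
  refine IsHomogeneous.C_mul ?_ _
  have := IsHomogeneous.prod Finset.univ
    (fun i => (X i : MvPolynomial (Fin (n + 1)) R) ^ (μ.1 i : ℕ)) (fun i => (μ.1 i : ℕ))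
    (fun i _ => isHomogeneous_X_pow i _)
  rwa [μ.2] at this

theorem smForm_add {n d : ℕ} {R : Type} [CommRing R] (a b : Mono n d → R) :
    form (a + b) = form a + form b := by
  unfold form
  rw [← Finset.sum_add_distrib]
  refine Finset.sum_congr rfl fun μ _ => ?_
  simp [add_mul]

theorem smForm_smul {n d : ℕ} {R : Type} [CommRing R] (c : R) (a : Mono n d → R) :
    form (c • a) = C c * form a := by
  unfold form
  rw [Finset.mul_sum]
  refine Finset.sum_congr rfl fun μ _ => ?_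
  simp [mul_assoc]

theorem smForm_exists {n d : ℕ} {R : Type} [CommRing R] {f : MvPolynomial (Fin (n + 1)) R}
    (hf : f.IsHomogeneous d) : ∃ a : Mono n d → R, form a = f := by
  classical
  rw [as_sum f]
  refine Finset.sum_induction _ (fun g => ∃ a : Mono n d → R, form a = g) ?_ ?_ ?_
  · rintro g h ⟨a, rfl⟩ ⟨b, rfl⟩
    exact ⟨a + b, smForm_add a b⟩
  · exact ⟨0, by simp [form]⟩
  · intro s hs
    have hsd : s.degree = d := by
      by_contra hne
      exact (mem_support_iff.1 hs) (hf.coeff_eq_zero hne)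
    have hsum : ∑ i, s i = d := by
      rw [← hsd, Finsupp.degree_eq_sum]
    have hle : ∀ i, s i < d + 1 := fun i =>
      Nat.lt_succ_of_le (hsum ▸ Finset.single_le_sum (fun _ _ => Nat.zero_le _) (Finset.mem_univ i))
    let μ : Mono n d := ⟨fun i => ⟨s i, hle i⟩, hsum⟩
    refine ⟨Pi.single μ (coeff s f), ?_⟩
    unfold form
    rw [Finset.sum_eq_single μ]
    · rw [Pi.single_eq_same, monomial_eq, Finsupp.prod_fintype _ _ (fun i => pow_zero _)]
    · intro ν _ hν
      rw [Pi.single_eq_of_ne hν]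
      simp
    · intro h
      exact absurd (Finset.mem_univ _) h

theorem smJ_self {n : ℕ} (f : MvPolynomial (Fin (n + 1)) ℤ) : f ∈ smJ f :=
  Ideal.subset_span (Set.mem_insert _ _)

theorem smJ_pderiv {n : ℕ} (f : MvPolynomial (Fin (n + 1)) ℤ) (l : Fin (n + 1)) :
    pderiv l f ∈ smJ f :=
  Ideal.subset_span (Set.mem_insert_of_mem _ ⟨l, rfl⟩)

/-- The Fermat form is smooth modulo the primes not dividing the degree. -/
theorem sm_fermat {n d : ℕ} {p : ℕ} (hp : p.Prime) (hpd : ¬ p ∣ d)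
    (h : MvPolynomial (Fin (n + 1)) ℤ) (P : Ideal (MvPolynomial (Fin (n + 1)) ℤ)) [P.IsPrime]
    (hC : C (p : ℤ) ∈ P) (hJ : smJ (∑ i, X i ^ d + C (p : ℤ) * h) ≤ P) (i : Fin (n + 1)) :
    X i ∈ P := by
  classical
  have h1 := hJ (smJ_pderiv _ i)
  have h2 : pderiv i (∑ j, (X j : MvPolynomial (Fin (n + 1)) ℤ) ^ d + C (p : ℤ) * h) =
      C (d : ℤ) * X i ^ (d - 1) + C (p : ℤ) * pderiv i h := by
    rw [map_add, pderiv_C_mul, map_sum]
    congr 1
    rw [Finset.sum_eq_single i]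
    · rw [pderiv_pow, pderiv_X_self]
      simp
    · intro j _ hj
      rw [pderiv_pow, pderiv_X_of_ne hj, mul_zero]
    · intro h
      exact absurd (Finset.mem_univ _) h
  rw [h2] at h1
  have h3 : C (d : ℤ) * X i ^ (d - 1) ∈ P :=
    (P.add_mem_iff_left (P.mul_mem_right _ hC)).1 h1
  rcases (inferInstance : P.IsPrime).mem_or_mem h3 with h4 | h4
  · exfalso
    have hco : IsCoprime (p : ℤ) (d : ℤ) :=
      Nat.isCoprime_iff_coprime.2 ((Nat.Prime.coprime_iff_not_dvd hp).2 hpd)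
    obtain ⟨u, v, huv⟩ := hco
    apply (inferInstance : P.IsPrime).ne_top
    rw [Ideal.eq_top_iff_one]
    have : (1 : MvPolynomial (Fin (n + 1)) ℤ) = C u * C (p : ℤ) + C v * C (d : ℤ) := by
      rw [← C_mul, ← C_mul, ← C_add, huv, C_1]
    rw [this]
    exact P.add_mem (P.mul_mem_left _ hC) (P.mul_mem_left _ h4)
  · exact (inferInstance : P.IsPrime).mem_of_pow_mem _ h4

/-- The chain form. -/
noncomputable def smChain (n d : ℕ) : MvPolynomial (Fin (n + 1)) ℤ :=
  ∑ i : Fin n, X i.castSucc ^ (d - 1) * X i.succ + X (Fin.last n) ^ d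

theorem smChain_homog {n d : ℕ} (hd : 1 ≤ d) : (smChain n d).IsHomogeneous d := by
  unfold smChain
  refine IsHomogeneous.add (IsHomogeneous.sum _ _ _ fun i _ => ?_) (isHomogeneous_X_pow _ _)
  have := (isHomogeneous_X_pow (R := ℤ) i.castSucc (d - 1)).mul (isHomogeneous_X ℤ i.succ)
  rwa [Nat.sub_add_cancel hd] at this

/-- The chain form is smooth modulo the primes dividing the degree. -/
theorem sm_chain {n d : ℕ} (hd : 3 ≤ d) {p : ℕ} (hpd : p ∣ d)
    (h : MvPolynomial (Fin (n + 1)) ℤ) (P : Ideal (MvPolynomial (Fin (n + 1)) ℤ)) [P.IsPrime]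
    (hC : C (p : ℤ) ∈ P) (hJ : smJ (smChain n d + C (p : ℤ) * h) ≤ P) (i : Fin (n + 1)) :
    X i ∈ P := by
  classical
  have hdP : C (d : ℤ) ∈ P := by
    obtain ⟨e, he⟩ := hpd
    rw [he, Nat.cast_mul, C_mul]
    exact P.mul_mem_right _ hC
  have hder : ∀ l, pderiv l (smChain n d) ∈ P := by
    intro l
    have h1 := hJ (smJ_pderiv _ l)
    rw [map_add, pderiv_C_mul] at h1
    exact (P.add_mem_iff_left (P.mul_mem_right _ hC)).1 h1
  have hself : smChain n d ∈ P :=
    (P.add_mem_iff_left (P.mul_mem_right _ hC)).1 (hJ (smJ_self _))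
  have hstep : ∀ k : Fin n, (∀ j : Fin n, k < j → X j.castSucc ∈ P) → X k.castSucc ∈ P := by
    intro k hk
    have h1 := hder k.succ
    unfold smChain at h1
    rw [map_add, map_sum, pderiv_pow] at h1
    have h2 : C (d : ℤ) * (X (Fin.last n) ^ (d - 1) *
        (pderiv k.succ (X (Fin.last n) : MvPolynomial (Fin (n + 1)) ℤ))) ∈ P :=
      P.mul_mem_right _ hdP
    have h3 : ∑ x : Fin n, pderiv k.succ
        ((X x.castSucc : MvPolynomial (Fin (n + 1)) ℤ) ^ (d - 1) * X x.succ) ∈ P := by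
      refine (P.add_mem_iff_left ?_).1 h1
      convert h2 using 1
      simp [mul_assoc]
    rw [← Finset.add_sum_erase _ _ (Finset.mem_univ k)] at h3
    have h4 : ∑ x ∈ Finset.univ.erase k, pderiv k.succ
        ((X x.castSucc : MvPolynomial (Fin (n + 1)) ℤ) ^ (d - 1) * X x.succ) ∈ P := by
      refine Ideal.sum_mem _ fun x hx => ?_
      have hxk : x ≠ k := (Finset.mem_erase.1 hx).1
      have hne : x.succ ≠ k.succ := fun e => hxk (Fin.succ_injective _ e)
      rw [pderiv_mul, pderiv_X_of_ne hne, mul_zero, add_zero, pderiv_pow]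
      by_cases hx2 : x.castSucc = k.succ
      · have hlt : k < x := by
          have : (x : ℕ) = k + 1 := by
            have := congrArg Fin.val hx2
            simpa using this
          exact Fin.lt_def.2 (by omega)
        have hm := hk x hlt
        have hpow : (X x.castSucc : MvPolynomial (Fin (n + 1)) ℤ) ^ (d - 1 - 1) ∈ P :=
          P.pow_mem_of_mem hm _ (by omega)
        exact P.mul_mem_right _ (P.mul_mem_right _ (P.mul_mem_left _ hpow))
      · rw [pderiv_X_of_ne hx2, mul_zero, zero_mul]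
        exact P.zero_mem
    have h5 : pderiv k.succ
        ((X k.castSucc : MvPolynomial (Fin (n + 1)) ℤ) ^ (d - 1) * X k.succ) ∈ P :=
      (P.add_mem_iff_left h4).1 h3
    have hne : k.castSucc ≠ k.succ := (Fin.castSucc_lt_succ (i := k)).ne
    rw [pderiv_mul, pderiv_pow, pderiv_X_of_ne hne, pderiv_X_self, mul_zero, zero_mul, zero_add,
      mul_one] at h5
    exact (inferInstance : P.IsPrime).mem_of_pow_mem _ h5
  have hall : ∀ m : ℕ, ∀ k : Fin n, n - (k : ℕ) ≤ m → X k.castSucc ∈ P := by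
    intro m
    induction m with
    | zero =>
      intro k hk
      have := k.2
      omega
    | succ m ih =>
      intro k hk
      refine hstep k fun j hj => ih j ?_
      have := Fin.lt_def.1 hj
      omega
  have hcast : ∀ k : Fin n, X k.castSucc ∈ P := fun k => hall _ k le_rfl
  refine Fin.lastCases ?_ hcast i
  have h6 : ∑ i : Fin n, (X i.castSucc : MvPolynomial (Fin (n + 1)) ℤ) ^ (d - 1) * X i.succ ∈ P :=
    Ideal.sum_mem _ fun x _ => P.mul_mem_right _ (P.pow_mem_of_mem (hcast x) _ (by omega))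
  have h7 : (X (Fin.last n) : MvPolynomial (Fin (n + 1)) ℤ) ^ d ∈ P :=
    (P.add_mem_iff_right h6).1 hself
  exact (inferInstance : P.IsPrime).mem_of_pow_mem _ h7

/-- Coefficients of a form which is smooth modulo a given prime. -/
theorem sm_prime {n d : ℕ} (hd : 3 ≤ d) (p : ℕ) (hp : p.Prime) :
    ∃ s : Mono n d → ℤ, ∀ h : MvPolynomial (Fin (n + 1)) ℤ,
      ∀ P : Ideal (MvPolynomial (Fin (n + 1)) ℤ), P.IsPrime → C (p : ℤ) ∈ P →
        smJ (form s + C (p : ℤ) * h) ≤ P → ∀ i, X i ∈ P := by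
  by_cases hpd : p ∣ d
  · obtain ⟨s, hs⟩ := smForm_exists (smChain_homog (n := n) (d := d) (by omega))
    refine ⟨s, fun h P hP hC hJ i => ?_⟩
    rw [hs] at hJ
    exact sm_chain hd hpd h P hC hJ i
  · obtain ⟨s, hs⟩ := smForm_exists (n := n) (d := d) (R := ℤ) (f := ∑ i, X i ^ d)
      (IsHomogeneous.sum _ _ _ fun i _ => isHomogeneous_X_pow i d)
    refine ⟨s, fun h P hP hC hJ i => ?_⟩
    rw [hs] at hJ
    exact sm_fermat hp hpd h P hC hJ i

/-- The Nakayama step. -/
theorem sm_nakayama {n d : ℕ} {f : MvPolynomial (Fin (n + 1)) ℤ} (hf : f.IsHomogeneous d) (q : ℤ)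
    (hrad : ∀ P : Ideal (MvPolynomial (Fin (n + 1)) ℤ), P.IsPrime → C q ∈ P → smJ f ≤ P →
      ∀ i, X i ∈ P) :
    ∃ (m : ℤ) (K : ℕ), q ∣ m - 1 ∧ ∀ i, C m * X i ^ K ∈ smJ f := by
  classical
  have h1 : idealOfVars (Fin (n + 1)) ℤ ≤ (smJ f ⊔ Ideal.span {C q}).radical := by
    rw [Ideal.radical_eq_sInf, idealOfVars, Ideal.span_le]
    rintro _ ⟨i, rfl⟩
    rw [SetLike.mem_coe, Submodule.mem_sInf]
    rintro P ⟨hP1, hP2⟩
    refine hrad P hP2 ?_ ?_ i
    · exact hP1 (Ideal.mem_sup_right (Ideal.mem_span_singleton_self _))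
    · exact le_sup_left.trans hP1
  obtain ⟨K, hK⟩ := Ideal.exists_pow_le_of_le_radical_of_fg h1 (idealOfVars_fg _ _)
  have hJhom : (smJ f).IsHomogeneous (homogeneousSubmodule (Fin (n + 1)) ℤ) := by
    refine Ideal.homogeneous_span _ _ ?_
    rintro x (rfl | ⟨l, rfl⟩)
    · exact ⟨d, hf⟩
    · exact ⟨d - 1, hf.pderiv⟩
  set V := homogeneousSubmodule (Fin (n + 1)) ℤ K with hV
  have hVfg : V.FG := homogeneousSubmodule_fg _ _ _
  set J' : Submodule ℤ (MvPolynomial (Fin (n + 1)) ℤ) := (smJ f).restrictScalars ℤ with hJ'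
  have hVle : V ≤ J' ⊔ (Ideal.span {q} : Ideal ℤ) • V := by
    intro v hv
    have hvh : v.IsHomogeneous K := hv
    have hv1 : v ∈ idealOfVars (Fin (n + 1)) ℤ ^ K := by
      rw [mem_pow_idealOfVars_iff']
      intro x hx
      exact hvh.coeff_eq_zero hx.ne
    obtain ⟨j, hj, w, hw, hjw⟩ := Submodule.mem_sup.1 (hK hv1)
    obtain ⟨c, rfl⟩ := Ideal.mem_span_singleton'.1 hw
    have h2 : v = homogeneousComponent K j + q • homogeneousComponent K c := by
      conv_lhs => rw [← homogeneousComponent_eq_self hvh, ← hjw]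
      rw [map_add, mul_comm, homogeneousComponent_C_mul, ← smul_eq_C_mul]
    rw [h2]
    refine Submodule.add_mem_sup ?_ ?_
    · exact homogeneousComponent_mem_of_mem hJhom hj K
    · exact Submodule.smul_mem_smul (Ideal.mem_span_singleton_self q)
        (homogeneousComponent_isHomogeneous K c)
  obtain ⟨m, hm1, hm2⟩ := Submodule.exists_sub_one_mem_and_smul_le_of_fg_of_le_sup hVfg le_rfl hVle
  refine ⟨m, K, Ideal.mem_span_singleton.1 hm1, fun i => ?_⟩
  have h3 : m • (X i ^ K : MvPolynomial (Fin (n + 1)) ℤ) ∈ m • V :=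
    Submodule.smul_mem_pointwise_smul _ _ _ (isHomogeneous_X_pow i K)
  have h4 := hm2 h3
  rw [smul_eq_C_mul] at h4
  exact h4

/-- TASK C1 (smooth residue classes). -/
theorem dens_exists_smooth_class {n d : ℕ} (hd : 3 ≤ d) (M : ℕ) (hM : 2 ≤ M) :
    ∃ (q : ℕ) (r : Mono n d → ℤ), 1 ≤ q ∧ (∀ p : ℕ, p.Prime → p ∣ q → p ≤ M) ∧
      ∀ a : Mono n d → ℤ, ∃ (m : ℤ) (K : ℕ), m ≠ 0 ∧ (∀ p : ℕ, p.Prime → p ≤ M → ¬ (p : ℤ) ∣ m) ∧
        ∀ i, C m * X i ^ K ∈ Ideal.span
          (insert (form fun μ => r μ + q * a μ)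
            (Set.range fun l => pderiv l (form fun μ => r μ + q * a μ))) := by
  classical
  choose! s hs using fun p (hp : p.Prime) => sm_prime (n := n) hd p hp
  set T : Finset ℕ := (Finset.range (M + 1)).filter Nat.Prime with hT
  have hTp : ∀ p ∈ T, p.Prime := fun p hp => (Finset.mem_filter.1 hp).2
  have hTM : ∀ p ∈ T, p ≤ M := fun p hp =>
    Nat.lt_succ_iff.1 (Finset.mem_range.1 (Finset.mem_filter.1 hp).1)
  have hmemT : ∀ p : ℕ, p.Prime → p ≤ M → p ∈ T := fun p hp hpM =>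
    Finset.mem_filter.2 ⟨Finset.mem_range.2 (Nat.lt_succ_of_le hpM), hp⟩
  have hcop : Set.Pairwise (T : Set ℕ) (Function.onFun Nat.Coprime fun p => p) := by
    intro a ha b hb hab
    exact (Nat.coprime_primes (hTp a ha) (hTp b hb)).2 hab
  have hcrt : ∀ μ : Mono n d, ∃ r : ℤ, ∀ p ∈ T, (p : ℤ) ∣ r - s p μ := by
    intro μ
    obtain ⟨k, hk⟩ := Nat.chineseRemainderOfFinset (fun p => (s p μ % (p : ℤ)).toNat)
      (fun p => p) T (fun p hp => (hTp p hp).ne_zero) hcop
    refine ⟨k, fun p hp => ?_⟩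
    have h1 := (Nat.modEq_iff_dvd.1 (hk p hp).symm)
    have hp0 : (p : ℤ) ≠ 0 := by exact_mod_cast (hTp p hp).ne_zero
    rw [Int.toNat_of_nonneg (Int.emod_nonneg _ hp0)] at h1
    have h2 : (p : ℤ) ∣ s p μ % (p : ℤ) - s p μ := by
      rw [Int.emod_def]
      exact ⟨-(s p μ / p), by ring⟩
    have h3 := dvd_add h1 h2
    have h4 : (k : ℤ) - s p μ % (p : ℤ) + (s p μ % (p : ℤ) - s p μ) = k - s p μ := by ring
    rwa [h4] at h3
  choose r hr using hcrt
  set q : ℕ := ∏ p ∈ T, p with hq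
  have hq1 : 1 ≤ q := Nat.one_le_iff_ne_zero.2
    (Finset.prod_ne_zero_iff.2 fun p hp => (hTp p hp).ne_zero)
  have hdvd : ∀ p ∈ T, p ∣ q := fun p hp => Finset.dvd_prod_of_mem _ hp
  refine ⟨q, r, hq1, ?_, fun a => ?_⟩
  · intro p hp hpq
    obtain ⟨l, hl, hpl⟩ := (Nat.Prime.prime hp).exists_mem_finset_dvd hpq
    exact (Nat.le_of_dvd (hTp l hl).pos hpl).trans (hTM l hl)
  · set f := form (fun μ => r μ + (q : ℤ) * a μ) with hf
    have hfp : ∀ p ∈ T, ∃ h, f = form (s p) + C (p : ℤ) * h := by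
      intro p hp
      have hex : ∀ μ, ∃ t : ℤ, r μ + (q : ℤ) * a μ = s p μ + p * t := by
        intro μ
        obtain ⟨t1, ht1⟩ := hr μ p hp
        obtain ⟨t2, ht2⟩ := hdvd p hp
        refine ⟨t1 + t2 * a μ, ?_⟩
        have : (q : ℤ) = p * t2 := by exact_mod_cast ht2
        rw [this]
        linear_combination ht1
      choose t ht using hex
      refine ⟨form t, ?_⟩
      rw [hf, ← smForm_smul, ← smForm_add]
      congr 1
      funext μ
      simpa using ht μ
    obtain ⟨m, K, hm, hmK⟩ := sm_nakayama (smForm_isHomogeneous _ : f.IsHomogeneous d) (q : ℤ) (by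
      intro P hP hCq hJ i
      have h1 : ∏ p ∈ T, (C (p : ℤ) : MvPolynomial (Fin (n + 1)) ℤ) ∈ P := by
        have : (∏ p ∈ T, (C (p : ℤ) : MvPolynomial (Fin (n + 1)) ℤ)) = C (q : ℤ) := by
          rw [hq, Nat.cast_prod, map_prod]
        rw [this]
        exact hCq
      obtain ⟨p, hp, hpP⟩ := hP.prod_mem_iff.1 h1
      obtain ⟨h, hh⟩ := hfp p hp
      refine hs p (hTp p hp) h P hP hpP ?_ i
      rw [← hh]
      exact hJ)
    have hpm : ∀ p : ℕ, p.Prime → p ≤ M → ¬ (p : ℤ) ∣ m := by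
      intro p hp hpM hpm
      have h1 : (p : ℤ) ∣ m - 1 :=
        (Int.natCast_dvd_natCast.2 (hdvd p (hmemT p hp hpM))).trans hm
      have h2 : (p : ℤ) ∣ 1 := by
        have := dvd_sub hpm h1
        simpa using this
      have h3 : p ∣ 1 := by exact_mod_cast h2
      exact hp.one_lt.ne' (Nat.dvd_one.1 h3)
    refine ⟨m, K, ?_, hpm, hmK⟩
    rintro rfl
    exact hpm 2 Nat.prime_two hM (dvd_zero _)

end Pool.Agent.Lib.MP_6a3dac_ag
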