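import Pool.Agent.Lib.MP_6a3dac_ag.Dens.Nondeg
import Pool.Agent.Lib.MP_6a3dac_ag.Mg.G065
import Pool.Agent.Lib.MP_6a3dac_ag.Dens.SmoothClass

/-!
# A positive proportion of the forms is good
-/

set_option autoImplicit false

namespace Pool.Agent.Lib.MP_6a3dac_ag

open MvPolynomial

/-- The forms whose bad fibres have only nondegenerate double points. -/
def GoodCoeffs {n d : ℕ} (a : Mono n d → ℤ) : Prop :=
  ∃ (m : ℤ) (K : ℕ), m ≠ 0 ∧
    (∀ i, C m * X i ^ K ∈ Ideal.span (insert (form a) (Set.range fun l => pderiv l (form a)))) ∧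
    ∀ p : ℕ, p.Prime → (p : ℤ) ∣ m → p ≠ 2 ∧ ∀ i, NondegAt p (dehom i (form a))

theorem card_box (ι : Type) [Fintype ι] [DecidableEq ι] (H : ℕ) :
    ((box ι H).card : ℝ) = (2 * H + 1) ^ Fintype.card ι := by
  rw [box, Fintype.card_piFinset, Finset.prod_const, Int.card_Icc, Finset.card_univ]
  have h1 : ((H : ℤ) + 1 - -(H : ℤ)).toNat = 2 * H + 1 := by omega
  rw [h1]
  push_cast
  rfl

theorem mem_box {ι : Type} [Fintype ι] [DecidableEq ι] {H : ℕ} {a : ι → ℤ} :
    a ∈ box ι H ↔ ∀ i, |a i| ≤ H := by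
  rw [box, Fintype.mem_piFinset]
  simp only [Finset.mem_Icc, abs_le]

open Classical in
theorem exists_many_good {n d : ℕ} (hd : 3 ≤ d) : ∃ c : ℝ, 0 < c ∧ ∀ᶠ H : ℕ in Filter.atTop,
    c * (box (Mono n d) H).card ≤ ((box (Mono n d) H).filter fun a => GoodCoeffs a).card := by
  have hex := fun i : Fin (n + 1) => dens_exists_pair (n := n) (d := d) (by omega) i
  choose g P hg hgP hpair using hex
  choose Cs hCs using fun i => dens_sieve (g i) (P i) (hg i) (hgP i)
  obtain ⟨M, hM⟩ : ∃ M : ℕ, M = max 2 ⌈4 * ∑ i, |Cs i|⌉₊ := ⟨_, rfl⟩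
  have hM2 : 2 ≤ M := hM ▸ le_max_left _ _
  have hMC : 4 * ∑ i, |Cs i| ≤ M := by
    refine (Nat.le_ceil _).trans ?_
    exact_mod_cast hM ▸ le_max_right _ _
  have hM0 : (0 : ℝ) < M := by exact_mod_cast (by omega : 0 < M)
  obtain ⟨q, r, hq1, hq2, hsm⟩ := dens_exists_smooth_class (n := n) hd M hM2
  choose Cs' hCs' using fun i => hCs i M q (by omega) hq1 hq2 r
  have hq0 : (0 : ℝ) < q := by exact_mod_cast hq1
  obtain ⟨R, hR⟩ : ∃ R : ℕ, ∀ μ, |r μ| ≤ R := by
    refine ⟨∑ μ, (r μ).natAbs, fun μ => ?_⟩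
    rw [Int.abs_eq_natAbs]
    exact_mod_cast Finset.single_le_sum (f := fun μ => (r μ).natAbs) (fun _ _ => Nat.zero_le _)
      (Finset.mem_univ μ)
  obtain ⟨B, hB⟩ := exists_nat_ge (4 * ∑ i, |Cs' i|)
  refine ⟨1 / (2 * (2 * q) ^ Fintype.card (Mono n d)), by positivity, ?_⟩
  rw [Filter.eventually_atTop]
  refine ⟨2 * R + q + q * B + R + 1, fun H hH => ?_⟩
  obtain ⟨H', hH'⟩ : ∃ H', H' = (H - R) / q := ⟨_, rfl⟩
  have hqH1 : q * H' ≤ H - R := hH' ▸ Nat.mul_div_le _ _
  have hqH2 : H - R < q * (H' + 1) := by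
    rw [hH']
    exact Nat.lt_mul_div_succ _ hq1
  have hBH : B ≤ H' := by
    rw [hH', Nat.le_div_iff_mul_le hq1]
    have : B * q = q * B := mul_comm _ _
    omega
  have hbig : (2 * (H : ℝ) + 1) / (2 * q) ≤ 2 * H' + 1 := by
    rw [div_le_iff₀ (by positivity)]
    have h1 : ((H - R : ℕ) : ℝ) < q * (H' + 1) := by exact_mod_cast hqH2
    rw [Nat.cast_sub (by omega)] at h1
    have h2 : ((2 * R + q + q * B + R + 1 : ℕ) : ℝ) ≤ H := by exact_mod_cast hH
    push_cast at h2
    have h3 : (0 : ℝ) ≤ q * B := by positivity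
    have h4 : (1 : ℝ) ≤ q := by exact_mod_cast hq1
    have h5 : (0 : ℝ) ≤ R := by positivity
    nlinarith
  -- the good vectors in the small box
  let bad : Fin (n + 1) → Finset (Mono n d → ℤ) := fun i =>
    (box (Mono n d) H').filter fun a => ∃ p : ℕ, p.Prime ∧ M < p ∧
      (p : ℤ) ∣ eval (fun μ => r μ + q * a μ) (g i) ∧
      (p : ℤ) ∣ eval (fun μ => r μ + q * a μ) (P i)
  let gd : Finset (Mono n d → ℤ) := box (Mono n d) H' \ Finset.univ.biUnion bad
  have hgd1 : ∀ a ∈ gd, GoodCoeffs fun μ => r μ + q * a μ := by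
    intro a ha
    obtain ⟨m, K, hm0, hmp, hmK⟩ := hsm a
    refine ⟨m, K, hm0, hmK, fun p hp hpm => ?_⟩
    have hMp : M < p := by
      by_contra hcon
      exact hmp p hp (by omega) hpm
    refine ⟨by omega, fun i => nondegAt_of_pair (hpair i) _ hp fun h => ?_⟩
    rw [Finset.mem_sdiff] at ha
    apply ha.2
    rw [Finset.mem_biUnion]
    exact ⟨i, Finset.mem_univ _, Finset.mem_filter.mpr ⟨ha.1, p, hp, hMp, h⟩⟩
  let sh : (Mono n d → ℤ) → (Mono n d → ℤ) := fun a μ => r μ + q * a μ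
  have hsh : Function.Injective sh := by
    intro a b hab
    funext μ
    have h1 := congrFun hab μ
    have h2 : (q : ℤ) * a μ = q * b μ := by
      change r μ + q * a μ = r μ + q * b μ at h1
      linarith
    exact mul_left_cancel₀ (by exact_mod_cast (by omega : q ≠ 0)) h2
  have hsub : gd.image sh ⊆ (box (Mono n d) H).filter fun a => GoodCoeffs a := by
    intro b hb
    obtain ⟨a, ha, rfl⟩ := Finset.mem_image.mp hb
    refine Finset.mem_filter.mpr ⟨?_, hgd1 a ha⟩
    have ha1 := mem_box.mp (Finset.mem_sdiff.mp ha).1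
    rw [mem_box]
    intro μ
    change |r μ + q * a μ| ≤ H
    have h1 : |(q : ℤ) * a μ| ≤ q * H' := by
      rw [abs_mul, Nat.abs_cast]
      exact mul_le_mul_of_nonneg_left (ha1 μ) (by positivity)
    have h2 : ((q * H' : ℕ) : ℤ) ≤ ((H - R : ℕ) : ℤ) := by exact_mod_cast hqH1
    rw [Nat.cast_sub (by omega)] at h2
    push_cast at h2
    calc |r μ + q * a μ| ≤ |r μ| + |(q : ℤ) * a μ| := abs_add_le _ _
      _ ≤ R + q * H' := add_le_add (hR μ) h1
      _ ≤ H := by linarith
  have hcard1 : (gd.card : ℝ) ≤ ((box (Mono n d) H).filter fun a => GoodCoeffs a).card := by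
    rw [← Finset.card_image_of_injective gd hsh]
    exact_mod_cast Finset.card_le_card hsub
  have hN0 : (0 : ℝ) < 2 * H' + 1 := by positivity
  have hbad : ((Finset.univ.biUnion bad).card : ℝ) ≤
      1 / 2 * (2 * H' + 1) ^ Fintype.card (Mono n d) := by
    calc ((Finset.univ.biUnion bad).card : ℝ) ≤ ∑ i, ((bad i).card : ℝ) := by
          exact_mod_cast Finset.card_biUnion_le
      _ ≤ ∑ i, (Cs i / M + Cs' i / (2 * H' + 1)) * (2 * H' + 1) ^ Fintype.card (Mono n d) :=
          Finset.sum_le_sum fun i _ => hCs' i H'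
      _ ≤ ∑ i, (|Cs i| / M + |Cs' i| / (2 * H' + 1)) * (2 * H' + 1) ^ Fintype.card (Mono n d) := by
          refine Finset.sum_le_sum fun i _ => mul_le_mul_of_nonneg_right (add_le_add ?_ ?_)
            (by positivity)
          · exact div_le_div_of_nonneg_right (le_abs_self _) hM0.le
          · exact div_le_div_of_nonneg_right (le_abs_self _) hN0.le
      _ = ((∑ i, |Cs i|) / M + (∑ i, |Cs' i|) / (2 * H' + 1)) *
          (2 * H' + 1) ^ Fintype.card (Mono n d) := by
          rw [← Finset.sum_mul, Finset.sum_add_distrib, Finset.sum_div, Finset.sum_div]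
      _ ≤ _ := by
          refine mul_le_mul_of_nonneg_right ?_ (by positivity)
          have h1 : (∑ i, |Cs i|) / M ≤ 1 / 4 := by
            rw [div_le_iff₀ hM0]
            linarith
          have h2 : (∑ i, |Cs' i|) / (2 * (H' : ℝ) + 1) ≤ 1 / 4 := by
            rw [div_le_iff₀ hN0]
            have : (B : ℝ) ≤ H' := by exact_mod_cast hBH
            linarith
          linarith
  have hgd2 : 1 / 2 * (2 * (H' : ℝ) + 1) ^ Fintype.card (Mono n d) ≤ gd.card := by
    have h1 : (box (Mono n d) H').card ≤ gd.card + (Finset.univ.biUnion bad).card := by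
      exact Finset.card_le_card_sdiff_add_card
    have h2 : ((box (Mono n d) H').card : ℝ) ≤ gd.card + (Finset.univ.biUnion bad).card := by
      exact_mod_cast h1
    rw [card_box] at h2
    linarith
  rw [card_box]
  calc 1 / (2 * (2 * (q : ℝ)) ^ Fintype.card (Mono n d)) *
        (2 * H + 1) ^ Fintype.card (Mono n d) =
        1 / 2 * ((2 * (H : ℝ) + 1) / (2 * q)) ^ Fintype.card (Mono n d) := by
        rw [div_pow]
        field_simp
    _ ≤ 1 / 2 * (2 * (H' : ℝ) + 1) ^ Fintype.card (Mono n d) := by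
        refine mul_le_mul_of_nonneg_left ?_ (by norm_num)
        exact pow_le_pow_left₀ (by positivity) hbig _
    _ ≤ gd.card := hgd2
    _ ≤ _ := hcard1

end Pool.Agent.Lib.MP_6a3dac_ag
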