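import Pool.Agent.Lib.MP_6a3dac_ag.Dens.ModelD

/-!
# Regular models of hypersurfaces with nondegenerate double points: the concrete form
-/

set_option autoImplicit false

namespace Pool.Agent.Lib.MP_6a3dac_ag.Dens

open MvPolynomial IsLocalRing IsDedekindDomain CategoryTheory Limits AlgebraicGeometry

/-- Clearing the denominators of a polynomial. -/
theorem exists_clear {σ : Type} (q : MvPolynomial σ ℚ) : ∃ (m : ℤ) (Q : MvPolynomial σ ℤ),
    m ≠ 0 ∧ map (Int.castRingHom ℚ) Q = C (m : ℚ) * q := by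
  induction q using MvPolynomial.induction_on with
  | C a =>
    refine ⟨a.den, C a.num, by exact_mod_cast a.den_nz, ?_⟩
    rw [map_C, ← C_mul]
    congr 1
    have := Rat.den_mul_eq_num a
    simp
  | add a b ha hb =>
    obtain ⟨m, Q, hm, hQ⟩ := ha
    obtain ⟨m', Q', hm', hQ'⟩ := hb
    refine ⟨m * m', C m' * Q + C m * Q', mul_ne_zero hm hm', ?_⟩
    rw [map_add, map_mul, map_mul, hQ, hQ', map_C, map_C]
    push_cast
    rw [C_mul]
    change C (m' : ℚ) * _ + C (m : ℚ) * _ = _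
    ring
  | mul_X a k ha =>
    obtain ⟨m, Q, hm, hQ⟩ := ha
    refine ⟨m, Q * X k, hm, ?_⟩
    rw [map_mul, hQ, map_X]
    ring

section

variable {n d : ℕ} {f : MvPolynomial (Fin (n + 1)) ℤ} (hf : f.IsHomogeneous d)
  (𝔞 : HomIdeal ℚ (n + 1)) (h𝔞 : 𝔞.ideal = Ideal.span {map (Int.castRingHom ℚ) f})

/-- The map from the polynomials with integer coefficients to the coordinate ring. -/
noncomputable def piZ : MvPolynomial (Fin (n + 1)) ℤ →+* HCoord 𝔞 :=
  (hMk 𝔞 : MvPolynomial (Fin (n + 1)) ℚ →+* HCoord 𝔞).comp (map (Int.castRingHom ℚ))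

include hf h𝔞

theorem hypData_form : HypData (hGr 𝔞) (piZ 𝔞) f d where
  deg q e hq := ⟨map (Int.castRingHom ℚ) q, hq.map _, rfl⟩
  hf := hf
  zero := by
    change Ideal.Quotient.mk 𝔞.ideal (map (Int.castRingHom ℚ) f) = 0
    rw [Ideal.Quotient.eq_zero_iff_mem, h𝔞]
    exact Ideal.subset_span rfl
  ker g hg := by
    change Ideal.Quotient.mk 𝔞.ideal (map (Int.castRingHom ℚ) g) = 0 at hg
    rw [Ideal.Quotient.eq_zero_iff_mem, h𝔞, Ideal.mem_span_singleton] at hg
    obtain ⟨q, hq⟩ := hg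
    obtain ⟨m, Q, hm, hQ⟩ := exists_clear q
    refine ⟨m, hm, Q, ?_⟩
    apply map_injective (Int.castRingHom ℚ) Int.cast_injective
    rw [map_mul, map_mul, hQ, hq, map_C]
    change C (m : ℚ) * _ = _
    ring
  gen := by
    rw [eq_top_iff]
    rintro a -
    obtain ⟨q, rfl⟩ := Ideal.Quotient.mk_surjective a
    change hMk 𝔞 q ∈ _
    induction q using MvPolynomial.induction_on with
    | C c =>
      have h1 : hMk 𝔞 (C c) = algebraMap ℚ (HCoord 𝔞) c := (hMk 𝔞).commutes c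
      rw [h1]
      exact Subalgebra.algebraMap_mem _ _
    | add a b ha hb => rw [map_add]; exact Subalgebra.add_mem _ ha hb
    | mul_X a k ha =>
      rw [map_mul]
      refine Subalgebra.mul_mem _ ha (Algebra.subset_adjoin ⟨k, ?_⟩)
      change hMk 𝔞 (map (Int.castRingHom ℚ) (X k)) = _
      rw [map_X]

omit hf h𝔞 in
/-- The Jacobian criterion over the rational numbers. -/
theorem jac_rat {m : ℤ} (hm : m ≠ 0) {K : ℕ} {i : Fin (n + 1)}
    (hmK : C m * X i ^ K ∈ Ideal.span (insert f (Set.range fun l => pderiv l f))) :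
    (X i : MvPolynomial (Fin (n + 1)) ℚ) ^ K ∈ Ideal.span
      (insert (map (Int.castRingHom ℚ) f)
        (Set.range fun l => pderiv l (map (Int.castRingHom ℚ) f))) := by
  have h1 := Ideal.mem_map_of_mem (map (Int.castRingHom ℚ)) hmK
  rw [Ideal.map_span, Set.image_insert_eq, ← Set.range_comp, map_mul, map_C, map_pow, map_X] at h1
  have h2 : ((map (Int.castRingHom ℚ)) ∘ fun l => pderiv l f) =
      fun l => pderiv l (map (Int.castRingHom ℚ) f) := by
    funext l
    exact (pderiv_map (φ := Int.castRingHom ℚ) (f := f) (i := l)).symm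
  rw [h2] at h1
  have h3 := Ideal.mul_mem_left _ (C ((m : ℚ)⁻¹)) h1
  rw [← mul_assoc, ← C_mul] at h3
  have h4 : (m : ℚ)⁻¹ * (Int.castRingHom ℚ) m = 1 := by
    rw [eq_intCast]
    exact inv_mul_cancel₀ (by exact_mod_cast hm)
  rwa [h4, C_1, one_mul] at h3

theorem exists_model_form (hn : 2 ≤ n) (hd : 2 ≤ d) {m : ℤ} (hm : m ≠ 0) {K : ℕ}
    (hmK : ∀ i, C m * X i ^ K ∈ Ideal.span (insert f (Set.range fun l => pderiv l f)))
    (hsing : ∀ p : ℕ, p.Prime → (p : ℤ) ∣ m → p ≠ 2 ∧ ∀ i, NondegAt p (dehom i f)) :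
    ∃ (Y : Scheme.{0}) (g : Y ⟶ Spec (CommRingCat.of ℤ)),
      IsProper g ∧ Flat g ∧ (∀ y : Y, IsRegularLocalRing (Y.presheaf.stalk y)) ∧
      ∃ e : pullback g (Spec.map (CommRingCat.ofHom (algebraMap ℤ ℚ))) ≅ hProj 𝔞,
        e.hom ≫ hProjTo 𝔞 =
          pullback.snd g (Spec.map (CommRingCat.ofHom (algebraMap ℤ ℚ))) := by
  have hirr : Irreducible (map (Int.castRingHom ℚ) f) :=
    dens_irreducible hn (by omega) (hf.map _) fun i => jac_rat hm (hmK i)
  have hprime : 𝔞.ideal.IsPrime := by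
    rw [h𝔞, Ideal.span_singleton_prime hirr.ne_zero]
    exact hirr.prime
  have : IsDomain (HCoord 𝔞) := Ideal.Quotient.isDomain 𝔞.ideal
  exact (hypData_form hf 𝔞 h𝔞).exists_model hd hm hmK hsing

end

end Pool.Agent.Lib.MP_6a3dac_ag.Dens
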