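import Pool.Agent.Lib.MP_6a3dac_ag.Dens.Hyper
import Pool.Agent.Lib.MP_6a3dac_ag.Dens.Count
import Pool.Agent.Lib.MP_6a3dac_ag.Dens.FormModel
import Pool.Agent.Lib.MP_6a3dac_ag.Mg.G029

/-!
# A positive proportion of the hypersurfaces has a regular model
-/

set_option autoImplicit false

namespace Pool.Agent.Lib.MP_6a3dac_ag

open MvPolynomial CategoryTheory Limits AlgebraicGeometry

variable {n d : ℕ}

theorem smooth_of_good {a : Mono n d → ℤ} (ha : GoodCoeffs a) :
    Smooth (hProjTo (formIdeal fun μ => (a μ : ℚ))) := by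
  obtain ⟨m, K, hm, hK, -⟩ := ha
  have h1 : map (Int.castRingHom ℚ) (form a) = form fun μ => (a μ : ℚ) :=
    map_form (Int.castRingHom ℚ) a
  exact smooth_projTo_of_jac (formIdeal fun μ => (a μ : ℚ)).toHom
    (isHomogeneous_form fun μ => (a μ : ℚ)) rfl
    fun i => by
      have := Dens.jac_rat hm (hK i)
      rwa [h1] at this

theorem hasRegularModel_of_good (hn : 2 ≤ n) (hd : 3 ≤ d) {a : Mono n d → ℤ}
    (ha : GoodCoeffs a) : HasRegularModel (hProjTo (formIdeal fun μ => (a μ : ℚ))) := by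
  obtain ⟨m, K, hm, hK, hsing⟩ := ha
  exact Dens.exists_model_form (isHomogeneous_form a) (formIdeal fun μ => (a μ : ℚ))
    (by
      change Ideal.span {form fun μ => (a μ : ℚ)} = _
      rw [map_form]
      rfl) hn (by omega) hm hK hsing

open Classical in
theorem hypersurface_density (hn : 2 ≤ n) (hd : 3 ≤ d) :
    ∃ c : ℝ, 0 < c ∧ ∀ᶠ H : ℕ in Filter.atTop,
      c * (box (Mono n d) H).card ≤ ((box (Mono n d) H).filter fun a =>
        Smooth (hProjTo (formIdeal fun μ => (a μ : ℚ))) ∧
        HasRegularModel (hProjTo (formIdeal fun μ => (a μ : ℚ)))).card := by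
  obtain ⟨c, hc, h⟩ := exists_many_good (n := n) hd
  refine ⟨c, hc, h.mono fun H hH => hH.trans ?_⟩
  have := Finset.card_le_card (s := (box (Mono n d) H).filter fun a => GoodCoeffs a)
    (t := (box (Mono n d) H).filter fun a =>
        Smooth (hProjTo (formIdeal fun μ => (a μ : ℚ))) ∧
        HasRegularModel (hProjTo (formIdeal fun μ => (a μ : ℚ))))
    (fun a ha => by
      rw [Finset.mem_filter] at ha ⊢
      exact ⟨ha.1, smooth_of_good ha.2, hasRegularModel_of_good hn hd ha.2⟩)
  exact_mod_cast this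

end Pool.Agent.Lib.MP_6a3dac_ag
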