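import Pool.Agent.Lib.MP_6a3dac_ag.Mg.G072
import Pool.Agent.Lib.MP_6a3dac_ag.Mg.G002

/-!
# Local parameters of the affine space over `ℤ`
-/

set_option autoImplicit false

namespace Pool.Agent.Lib.MP_6a3dac_ag

open MvPolynomial IsLocalRing

section NotSq

variable {σ : Type} [Finite σ]

theorem mul_prime_notMem_sq {p : ℕ} (hp : p.Prime) (Y : Ideal (MvPolynomial σ ℤ)) [Y.IsPrime]
    (hY : C (p : ℤ) ∈ Y) {s : MvPolynomial σ ℤ} (hs : s ∉ Y) : s * C (p : ℤ) ∉ Y ^ 2 := by
  have : Fact p.Prime := ⟨hp⟩
  let ψ : MvPolynomial σ ℤ →+* MvPolynomial σ (ZMod p) := MvPolynomial.map (Int.castRingHom _)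
  have hψ : Function.Surjective ψ :=
    MvPolynomial.map_surjective _ (ZMod.ringHom_surjective _)
  have hker : RingHom.ker ψ = Ideal.span {C (p : ℤ)} := by
    change RingHom.ker (MvPolynomial.map (Int.castRingHom (ZMod p))) = _
    rw [MvPolynomial.ker_map, ZMod.ker_intCastRingHom, Ideal.map_span, Set.image_singleton]
  have hkerY : RingHom.ker ψ ≤ Y := by
    rw [hker, Ideal.span_singleton_le_iff_mem]
    exact hY
  have hyp : (Y.map ψ).IsPrime := Ideal.map_isPrime_of_surjective hψ hkerY
  have hYy : Y = (Y.map ψ).comap ψ := by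
    rw [Ideal.comap_map_of_surjective' _ hψ, sup_of_le_left hkerY]
  have key : ∀ (y : Ideal (MvPolynomial σ (ZMod p))) (_ : y.IsPrime)
      (s : MvPolynomial σ ℤ), s ∉ y.comap ψ → s * C (p : ℤ) ∉ (y.comap ψ) ^ 2 := by
    intro y _ s hs hsπ
    set L := Localization.AtPrime (y.comap ψ) with hL
    have hπy : C (p : ℤ) ∈ y.comap ψ := by
      have h1 : C (p : ℤ) ∈ RingHom.ker ψ := by
        rw [hker]
        exact Ideal.mem_span_singleton_self _
      rw [Ideal.mem_comap, RingHom.mem_ker.mp h1]
      exact y.zero_mem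
    have ht : algebraMap (MvPolynomial σ ℤ) L (C (p : ℤ)) ∈ maximalIdeal L := by
      rw [← Localization.AtPrime.map_eq_maximalIdeal]
      exact Ideal.mem_map_of_mem _ hπy
    have hk : RingHom.ker (Localization.localRingHom (y.comap ψ) y ψ rfl) =
        Ideal.span {algebraMap (MvPolynomial σ ℤ) L (C (p : ℤ))} := by
      rw [ker_localRingHom ψ hψ y, hker, Ideal.map_span, Set.image_singleton]
    let e := RingHom.quotientKerEquivOfSurjective (localRingHom_surjective ψ hψ y)
    let e' := (Ideal.quotEquivOfEq hk.symm).trans e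
    have hreg : IsRegularLocalRing (L ⧸ Ideal.span {algebraMap (MvPolynomial σ ℤ) L (C (p : ℤ))}) :=
      IsRegularLocalRing.of_ringEquiv e'.symm
    have hnzd : algebraMap (MvPolynomial σ ℤ) L (C (p : ℤ)) ∈ nonZeroDivisors L := by
      apply mem_nonZeroDivisors_of_ne_zero
      rw [Ne, FaithfulSMul.algebraMap_eq_zero_iff, C_eq_zero]
      exact_mod_cast hp.ne_zero
    apply notMem_sq_of_quotient ht hnzd hreg
    rw [mem_maximalIdeal_pow_iff]
    exact ⟨s, hs, hsπ⟩
  have h1 := key (Y.map ψ) hyp s
  rw [← hYy] at h1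
  exact h1 hs

end NotSq

section Span

/-- In a regular local ring of dimension at most `r`, independent elements `f 0, ..., f (r-1)`
generate the maximal ideal. -/
theorem span_range_eq_maximalIdeal {O : Type} [CommRing O] [IsLocalRing O]
    (hO : IsRegularLocalRing O) {r : ℕ} (hdim : ringKrullDim O ≤ r) (f : Fin r → O)
    (hf : ∀ i, f i ∈ maximalIdeal O)
    (hind : ∀ c : Fin r → O, ∑ i, c i * f i ∈ maximalIdeal O ^ 2 → ∀ i, c i ∈ maximalIdeal O) :
    Ideal.span (Set.range f) = maximalIdeal O := by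
  have hreg := (isRegularLocalRing_iff O).mp hO
  have hfin : Module.finrank (ResidueField O) (CotangentSpace O) ≤ r := by
    rw [← IsLocalRing.spanFinrank_maximalIdeal_eq_finrank_cotangentSpace]
    have h1 : ((maximalIdeal O).spanFinrank : WithBot ℕ∞) ≤ (r : WithBot ℕ∞) := by
      rw [hreg]; exact hdim
    exact_mod_cast h1
  let v : Fin r → CotangentSpace O := fun i => (maximalIdeal O).toCotangent ⟨f i, hf i⟩
  have hli : LinearIndependent (ResidueField O) v := by
    rw [Fintype.linearIndependent_iff]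
    intro c hc i
    choose d hd using fun i => residue_surjective (c i)
    have h1 : (maximalIdeal O).toCotangent (∑ i, d i • ⟨f i, hf i⟩) = 0 := by
      rw [map_sum, ← hc]
      refine Finset.sum_congr rfl fun j _ => ?_
      rw [map_smul, ← hd j]
      rfl
    rw [Ideal.toCotangent_eq_zero] at h1
    have h2 : ((∑ i, d i • (⟨f i, hf i⟩ : maximalIdeal O) : maximalIdeal O) : O) =
        ∑ i, d i * f i := by
      rw [AddSubmonoidClass.coe_finsetSum]
      rfl
    rw [h2] at h1
    have h3 := hind d h1 i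
    rw [← hd i]
    exact (residue_eq_zero_iff _).mpr h3
  have hcard : Fintype.card (Fin r) = Module.finrank (ResidueField O) (CotangentSpace O) := by
    apply le_antisymm
    · exact hli.fintype_card_le_finrank
    · rw [Fintype.card_fin]; exact hfin
  have htop := hli.span_eq_top_of_card_eq_finrank' hcard
  have h1 : Set.range v = (maximalIdeal O).toCotangent '' (Set.range fun i => ⟨f i, hf i⟩) := by
    rw [← Set.range_comp]
    rfl
  rw [h1, CotangentSpace.span_image_eq_top_iff] at htop
  apply le_antisymm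
  · rw [Ideal.span_le]
    rintro _ ⟨i, rfl⟩
    exact hf i
  · intro x hx
    have h2 : (⟨x, hx⟩ : maximalIdeal O) ∈ Submodule.span O (Set.range fun i =>
        (⟨f i, hf i⟩ : maximalIdeal O)) := by
      rw [htop]; exact Submodule.mem_top
    have h3 := Submodule.mem_map_of_mem (f := (maximalIdeal O).subtype) h2
    rw [Submodule.map_span, ← Set.range_comp] at h3
    exact h3

end Span

section Param

variable {σ : Type} [Fintype σ] [DecidableEq σ] {p : ℕ} (hp : p.Prime)
  (Q : Ideal (MvPolynomial σ ℤ)) [hQp : Q.IsPrime] (hQ : C (p : ℤ) ∈ Q)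
  {y : σ → MvPolynomial σ ℤ} (hy : ∀ j, y j ∈ Q)
  (hdet : (Matrix.of fun i j => pderiv i (y j)).det ∉ Q)
include hp hQ hy hdet

/-- Independence of `p` and the `y j`. -/
theorem param_indep {s c₀ : MvPolynomial σ ℤ} {c : σ → MvPolynomial σ ℤ} (hs : s ∉ Q)
    (h : s * (c₀ * C (p : ℤ) + ∑ j, c j * y j) ∈ Q ^ 2) : c₀ ∈ Q ∧ ∀ j, c j ∈ Q := by
  have hc : ∀ j, c j ∈ Q := by
    have h1 : ∀ i, ∑ j, (Matrix.of fun i j => pderiv i (y j)) i j * c j ∈ Q := by
      intro i
      have h2 := derivation_mem Q (pderiv i) hs h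
      rw [map_add, Derivation.leibniz, pderiv_C, smul_zero, zero_add, map_sum] at h2
      have h3 : (C (p : ℤ) : MvPolynomial σ ℤ) • (pderiv i c₀ : MvPolynomial σ ℤ) ∈ Q := by
        rw [smul_eq_mul]; exact Q.mul_mem_right _ hQ
      have h4 := (Submodule.add_mem_iff_right Q h3).mp h2
      have h5 : ∑ j, pderiv i (c j * y j) = ∑ j, (Matrix.of fun i j => pderiv i (y j)) i j * c j +
          ∑ j, y j * pderiv i (c j) := by
        rw [← Finset.sum_add_distrib]
        refine Finset.sum_congr rfl fun j _ => ?_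
        rw [Derivation.leibniz, smul_eq_mul, smul_eq_mul, Matrix.of_apply]
        ring
      rw [h5] at h4
      exact (Submodule.add_mem_iff_left Q (Q.sum_mem fun j _ => Q.mul_mem_right _ (hy j))).mp h4
    intro j
    have h2 : (Matrix.of fun i j => pderiv i (y j)).det * c j ∈ Q := by
      have h3 : ((Matrix.of fun i j => pderiv i (y j)).adjugate.mulVec
          ((Matrix.of fun i j => pderiv i (y j)).mulVec c)) j =
          (Matrix.of fun i j => pderiv i (y j)).det * c j := by
        rw [Matrix.mulVec_mulVec, Matrix.adjugate_mul, Matrix.smul_mulVec, Matrix.one_mulVec,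
          Pi.smul_apply, smul_eq_mul]
      rw [← h3]
      exact Q.sum_mem fun i _ => Q.mul_mem_left _ (h1 i)
    exact (hQp.mem_or_mem h2).resolve_left hdet
  refine ⟨?_, hc⟩
  by_contra hc₀
  have h1 : s * (∑ j, c j * y j) ∈ Q ^ 2 := by
    refine Ideal.mul_mem_left _ _ (Ideal.sum_mem _ fun j _ => ?_)
    rw [pow_two]
    exact Ideal.mul_mem_mul (hc j) (hy j)
  rw [mul_add] at h
  have h2 := (Submodule.add_mem_iff_left _ h1).mp h
  rw [← mul_assoc] at h2
  exact mul_prime_notMem_sq hp Q hQ (hQp.mul_notMem hs hc₀) h2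

theorem param_indep_loc (c₀ : Localization.AtPrime Q) (c : σ → Localization.AtPrime Q)
    (h : c₀ * algebraMap (MvPolynomial σ ℤ) _ (C (p : ℤ)) +
      ∑ j, c j * algebraMap (MvPolynomial σ ℤ) _ (y j) ∈
      maximalIdeal (Localization.AtPrime Q) ^ 2) :
    c₀ ∈ maximalIdeal (Localization.AtPrime Q) ∧
      ∀ j, c j ∈ maximalIdeal (Localization.AtPrime Q) := by
  let P := MvPolynomial σ ℤ
  let R := Localization.AtPrime Q
  let c' : Option σ → R := fun o => o.elim c₀ c
  obtain ⟨s, hs⟩ := IsLocalization.exist_integer_multiples_of_finite Q.primeCompl c'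
  choose a ha using hs
  have h1 : algebraMap P R (a none * C (p : ℤ) + ∑ j, a (some j) * y j) ∈
      maximalIdeal R ^ 2 := by
    have h2 : algebraMap P R (a none * C (p : ℤ) + ∑ j, a (some j) * y j) =
        algebraMap P R s * (c₀ * algebraMap P R (C (p : ℤ)) + ∑ j, c j * algebraMap P R (y j)) := by
      rw [map_add, map_sum, mul_add, Finset.mul_sum, map_mul, ha none, Algebra.smul_def]
      congr 1
      · change algebraMap P R s * c₀ * _ = _
        ring
      · refine Finset.sum_congr rfl fun j _ => ?_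
        rw [map_mul, ha (some j), Algebra.smul_def]
        change algebraMap P R s * c j * _ = _
        ring
    rw [h2]
    exact Ideal.mul_mem_left _ _ h
  rw [mem_maximalIdeal_pow_iff] at h1
  obtain ⟨s', hs', hs2⟩ := h1
  obtain ⟨h3, h4⟩ := param_indep hp Q hQ hy hdet hs' hs2
  have h5 : ∀ o, a o ∈ Q → c' o ∈ maximalIdeal R := by
    intro o ho
    have h6 : algebraMap P R (a o) ∈ maximalIdeal R := by
      rw [← Localization.AtPrime.map_eq_maximalIdeal]
      exact Ideal.mem_map_of_mem _ ho
    rw [ha, Algebra.smul_def] at h6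
    exact (Ideal.unit_mul_mem_iff_mem _ (IsLocalization.map_units R s)).mp h6
  exact ⟨h5 none h3, fun j => h5 (some j) (h4 j)⟩

/-- The prime is generated locally by `p` and the `y j`. -/
theorem param_span {g : MvPolynomial σ ℤ} (hg : g ∈ Q) :
    ∃ s, s ∉ Q ∧ ∃ (c₀ : MvPolynomial σ ℤ) (c : σ → MvPolynomial σ ℤ),
      s * g = c₀ * C (p : ℤ) + ∑ j, c j * y j := by
  let P := MvPolynomial σ ℤ
  let R := Localization.AtPrime Q
  let e := Fintype.equivFin (Option σ)
  let f' : Option σ → P := fun o => o.elim (C (p : ℤ)) y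
  have hf' : ∀ o, f' o ∈ Q := by
    rintro (_ | j)
    · exact hQ
    · exact hy j
  let f : Fin (Fintype.card (Option σ)) → R := fun i => algebraMap P R (f' (e.symm i))
  have hdim : ringKrullDim R ≤ (Fintype.card (Option σ) : ℕ) := by
    rw [IsLocalization.AtPrime.ringKrullDim_eq_height Q]
    refine (Ideal.height_le_ringKrullDim_of_ne_top hQp.ne_top).trans ?_
    rw [MvPolynomial.ringKrullDim_of_isNoetherianRing,
      IsPrincipalIdealRing.ringKrullDim_eq_one ℤ Int.not_isField, Nat.card_eq_fintype_card,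
      Fintype.card_option, add_comm]
    push_cast
    rfl
  have h1 := span_range_eq_maximalIdeal (O := R) inferInstance hdim f (by
    intro i
    rw [← Localization.AtPrime.map_eq_maximalIdeal]
    exact Ideal.mem_map_of_mem _ (hf' _)) (by
    intro c hc i
    have h2 : c (e none) * algebraMap P R (C (p : ℤ)) +
        ∑ j, c (e (some j)) * algebraMap P R (y j) ∈ maximalIdeal R ^ 2 := by
      have h3 : ∑ i, c i * f i = c (e none) * algebraMap P R (C (p : ℤ)) +
          ∑ j, c (e (some j)) * algebraMap P R (y j) := by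
        rw [← Equiv.sum_comp e, Fintype.sum_option]
        simp only [f, Equiv.symm_apply_apply]
        rfl
      rw [← h3]
      exact hc
    obtain ⟨h3, h4⟩ := param_indep_loc hp Q hQ hy hdet _ _ h2
    obtain ⟨o, rfl⟩ := e.surjective i
    rcases o with _ | j
    · exact h3
    · exact h4 j)
  have h2 : algebraMap P R g ∈ (Ideal.span (Set.range f')).map (algebraMap P R) := by
    have h3 : (Ideal.span (Set.range f')).map (algebraMap P R) = maximalIdeal R := by
      rw [← h1, Ideal.map_span, ← Set.range_comp]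
      congr 1
      ext x
      constructor
      · rintro ⟨o, rfl⟩
        exact ⟨e o, by simp only [f, Equiv.symm_apply_apply]; rfl⟩
      · rintro ⟨i, rfl⟩
        exact ⟨e.symm i, rfl⟩
    rw [h3, ← Localization.AtPrime.map_eq_maximalIdeal]
    exact Ideal.mem_map_of_mem _ hg
  rw [IsLocalization.algebraMap_mem_map_algebraMap_iff Q.primeCompl] at h2
  obtain ⟨s, hs, hsg⟩ := h2
  refine ⟨s, hs, ?_⟩
  obtain ⟨c, hc⟩ := (Ideal.mem_span_range_iff_exists_fun).mp hsg
  rw [Fintype.sum_option] at hc
  exact ⟨c none, fun j => c (some j), hc.symm⟩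

/-- No power of `p` lies locally in the ideal of the `y j`. -/
theorem param_pow_notMem (N : ℕ) {s : MvPolynomial σ ℤ} (hs : s ∉ Q)
    {c : σ → MvPolynomial σ ℤ} (h : s * C (p : ℤ) ^ N = ∑ j, c j * y j) : False := by
  let P := MvPolynomial σ ℤ
  let R := Localization.AtPrime Q
  have hR : IsRegularLocalRing R := inferInstance
  let e := Fintype.equivFin σ
  let f : Fin (Fintype.card σ) → R := fun i => algebraMap P R (y (e.symm i))
  have hfm : ∀ i, f i ∈ maximalIdeal R := by
    intro i
    rw [← Localization.AtPrime.map_eq_maximalIdeal]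
    exact Ideal.mem_map_of_mem _ (hy _)
  have hconv : ∀ c : Fin (Fintype.card σ) → R, ∑ i, c i * f i =
      ∑ j, c (e j) * algebraMap P R (y j) := by
    intro c
    rw [← Equiv.sum_comp e]
    simp only [f, Equiv.symm_apply_apply]
  have hreg := isRegularLocalRing_quotient_range _ R hR f hfm (by
    intro c hc i
    rw [hconv] at hc
    obtain ⟨-, h4⟩ := param_indep_loc hp Q hQ hy hdet 0 (fun j => c (e j)) (by
      rw [zero_mul, zero_add]; exact hc)
    obtain ⟨j, rfl⟩ := e.surjective i
    exact h4 j)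
  have hdom : IsDomain (R ⧸ Ideal.span (Set.range f)) :=
    isDomain_aux _ (R ⧸ Ideal.span (Set.range f)) le_rfl
  have h1 : Ideal.Quotient.mk (Ideal.span (Set.range f)) (algebraMap P R (s * C (p : ℤ) ^ N)) = 0 := by
    rw [Ideal.Quotient.eq_zero_iff_mem, h, map_sum]
    refine Ideal.sum_mem _ fun j _ => ?_
    rw [map_mul]
    refine Ideal.mul_mem_left _ _ (Ideal.subset_span ⟨e j, ?_⟩)
    simp only [f, Equiv.symm_apply_apply]
  rw [map_mul, map_mul, map_pow, map_pow] at h1
  rcases mul_eq_zero.mp h1 with h2 | h2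
  · rw [Ideal.Quotient.eq_zero_iff_mem] at h2
    have h3 : algebraMap P R s ∈ maximalIdeal R := by
      refine (Ideal.span_le.mpr ?_) h2
      rintro _ ⟨i, rfl⟩
      exact hfm i
    have h4 : IsUnit (algebraMap P R s) := IsLocalization.map_units R (⟨s, hs⟩ : Q.primeCompl)
    exact (IsLocalRing.mem_maximalIdeal _).mp h3 h4
  · have h3 := eq_zero_of_pow_eq_zero h2
    rw [Ideal.Quotient.eq_zero_iff_mem] at h3
    obtain ⟨c', hc'⟩ := (Ideal.mem_span_range_iff_exists_fun).mp h3
    rw [hconv] at hc'
    obtain ⟨h4, -⟩ := param_indep_loc hp Q hQ hy hdet 1 (fun j => - c' (e j)) (by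
      have h5 : (1 : R) * algebraMap P R (C (p : ℤ)) +
          ∑ j, -c' (e j) * algebraMap P R (y j) = 0 := by
        rw [one_mul, ← hc', ← Finset.sum_add_distrib]
        exact Finset.sum_eq_zero fun j _ => by ring
      rw [h5]
      exact Ideal.zero_mem _)
    exact (maximalIdeal.isMaximal R).ne_top ((Ideal.eq_top_iff_one _).mpr h4)

end Param

end Pool.Agent.Lib.MP_6a3dac_ag
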