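import Pool.Agent.Lib.MP_6a3dac_ag.Mg.G001
import Pool.Agent.Lib.MP_6a3dac_ag.Dens.Param

/-!
# Independence of the equations of the charts over nondegenerate double points
-/

set_option autoImplicit false

namespace Pool.Agent.Lib.MP_6a3dac_ag

open MvPolynomial Matrix

/-- The variables of the charts. -/
abbrev CVar (σ : Type) : Type := σ ⊕ σ ⊕ Bool

section defs

variable {σ : Type}

/-- The embedding of the polynomials in the coordinates. -/
noncomputable def emb : MvPolynomial σ ℤ →ₐ[ℤ] MvPolynomial (CVar σ) ℤ := rename Sum.inl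

/-- The variable `w_j`. -/
noncomputable def cw (j : σ) : MvPolynomial (CVar σ) ℤ := X (Sum.inr (Sum.inl j))

variable (σ) in
/-- The variable `v`. -/
noncomputable def cv : MvPolynomial (CVar σ) ℤ := X (Sum.inr (Sum.inr true))

variable (σ) in
/-- The variable `t`. -/
noncomputable def ct : MvPolynomial (CVar σ) ℤ := X (Sum.inr (Sum.inr false))

theorem pderiv_emb (j : σ) (q : MvPolynomial σ ℤ) :
    pderiv (Sum.inl j) (emb q) = emb (pderiv j q) :=
  pderiv_rename Sum.inl_injective j q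

theorem pderiv_inr_emb (z : σ ⊕ Bool) (q : MvPolynomial σ ℤ) :
    pderiv (Sum.inr z) (emb q) = 0 := by
  classical
  apply pderiv_eq_zero_of_notMem_vars
  intro h
  have h1 := vars_rename (Sum.inl : σ → CVar σ) q h
  rw [Finset.mem_image] at h1
  obtain ⟨a, -, ha⟩ := h1
  exact absurd ha (by simp)

variable [Fintype σ] (p : ℕ) (F : MvPolynomial σ ℤ) (l₀ : σ) (U : MvPolynomial σ ℤ)
  (β : Matrix σ σ (MvPolynomial σ ℤ)) (k e : ℕ)

/-- The strict transform. -/
noncomputable def strictF : MvPolynomial (CVar σ) ℤ :=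
  emb U * cv σ ^ (e - (2 * k + 2)) * ct σ ^ (e - 2 * k) +
    cv σ ^ (2 * k + 2 - e) * ct σ ^ (2 * k - e) * ∑ i, ∑ j, emb (β i j) * (cw i * cw j)

/-- The equations of the chart. -/
noncomputable def crel : σ ⊕ Fin 3 → MvPolynomial (CVar σ) ℤ :=
  Sum.elim (fun l => emb (pderiv l F) - C (p : ℤ) ^ k * cv σ * cw l)
    ![cv σ * ct σ - C (p : ℤ), cw l₀ - 1, strictF U β k e]

end defs

section Deriv

variable {σ : Type} [Fintype σ] [DecidableEq σ] (U : MvPolynomial σ ℤ)
  (β : Matrix σ σ (MvPolynomial σ ℤ)) (k e : ℕ) {κ : Type} [Field κ]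
  (φ : MvPolynomial (CVar σ) ℤ →+* κ)

omit [Fintype σ] [DecidableEq σ] in
theorem dw_cv (z : σ) : pderiv (Sum.inr (Sum.inl z)) (cv σ) = 0 := by
  classical
  rw [cv, pderiv_X_of_ne (by simp)]

omit [Fintype σ] [DecidableEq σ] in
theorem dw_ct (z : σ) : pderiv (Sum.inr (Sum.inl z)) (ct σ) = 0 := by
  classical
  rw [ct, pderiv_X_of_ne (by simp)]

omit [Fintype σ] in
theorem dw_cw (j l : σ) : pderiv (Sum.inr (Sum.inl j)) (cw l) = if j = l then 1 else 0 := by
  rw [cw, pderiv_X]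
  by_cases hjl : j = l
  · subst hjl
    simp
  · rw [if_neg hjl, Pi.single_eq_of_ne]
    intro h4
    exact hjl (by simpa using h4.symm)

omit [Fintype σ] [DecidableEq σ] in
theorem db_cw (b : Bool) (l : σ) : pderiv (Sum.inr (Sum.inr b)) (cw l) = 0 := by
  classical
  rw [cw, pderiv_X_of_ne (by simp)]

omit [Fintype σ] [DecidableEq σ] in
theorem dt_cv : pderiv (Sum.inr (Sum.inr false)) (cv σ) = 0 := by
  classical
  rw [cv, pderiv_X_of_ne (by simp)]

omit [Fintype σ] [DecidableEq σ] in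
theorem dt_ct : pderiv (Sum.inr (Sum.inr false)) (ct σ) = 1 := by
  classical
  rw [ct, pderiv_X_self]

omit [Fintype σ] [DecidableEq σ] in
theorem dv_cv : pderiv (Sum.inr (Sum.inr true)) (cv σ) = 1 := by
  classical
  rw [cv, pderiv_X_self]

omit [Fintype σ] [DecidableEq σ] in
theorem dv_ct : pderiv (Sum.inr (Sum.inr true)) (ct σ) = 0 := by
  classical
  rw [ct, pderiv_X_of_ne (by simp)]

/-- The quadratic part. -/
noncomputable def qpart : MvPolynomial (CVar σ) ℤ := ∑ i, ∑ j, emb (β i j) * (cw i * cw j)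

omit [DecidableEq σ] in
theorem phi_qpart : φ (qpart β) =
    qval (β.map fun x => φ (emb x)) (fun j => φ (cw j)) := by
  rw [qpart, map_sum, qval]
  refine Finset.sum_congr rfl fun i _ => ?_
  rw [map_sum]
  refine Finset.sum_congr rfl fun j _ => ?_
  rw [map_mul, map_mul]
  rfl

omit [DecidableEq σ] in
theorem db_qpart (b : Bool) : pderiv (Sum.inr (Sum.inr b)) (qpart β) = 0 := by
  rw [qpart, map_sum]
  refine Finset.sum_eq_zero fun i _ => ?_
  rw [map_sum]
  refine Finset.sum_eq_zero fun l _ => ?_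
  rw [Derivation.leibniz, Derivation.leibniz, pderiv_inr_emb, db_cw, db_cw]
  simp

theorem dw_qpart (j : σ) : pderiv (Sum.inr (Sum.inl j)) (qpart β) =
    ∑ l, emb ((β + βᵀ) j l) * cw l := by
  have h1 : ∀ i l, pderiv (Sum.inr (Sum.inl j)) (emb (β i l) * (cw i * cw l)) =
      emb (β i l) * (cw i * (if j = l then 1 else 0)) +
        emb (β i l) * (cw l * (if j = i then 1 else 0)) := by
    intro i l
    rw [Derivation.leibniz, Derivation.leibniz, pderiv_inr_emb, dw_cw, dw_cw, smul_zero,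
      add_zero, smul_eq_mul, smul_eq_mul, smul_eq_mul]
    ring
  rw [qpart, map_sum]
  simp only [map_sum, h1, Finset.sum_add_distrib, Matrix.add_apply, Matrix.transpose_apply,
    map_add, add_mul]
  rw [add_comm]
  congr 1
  · rw [Finset.sum_comm]
    refine Finset.sum_congr rfl fun l _ => ?_
    simp
  · refine Finset.sum_congr rfl fun i _ => ?_
    simp

omit [DecidableEq σ] in
theorem strictF_eq : strictF U β k e =
    emb U * cv σ ^ (e - (2 * k + 2)) * ct σ ^ (e - 2 * k) +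
    cv σ ^ (2 * k + 2 - e) * ct σ ^ (2 * k - e) * qpart β := rfl

theorem dw_strictF (j : σ) : pderiv (Sum.inr (Sum.inl j)) (strictF U β k e) =
    cv σ ^ (2 * k + 2 - e) * ct σ ^ (2 * k - e) * ∑ l, emb ((β + βᵀ) j l) * cw l := by
  have f1 : pderiv (Sum.inr (Sum.inl j)) (cv σ ^ (2 * k + 2 - e) * ct σ ^ (2 * k - e)) =
      0 := by
    rw [Derivation.leibniz, Derivation.leibniz_pow, Derivation.leibniz_pow, dw_cv, dw_ct]
    simp
  have f2 : pderiv (Sum.inr (Sum.inl j)) (emb U * cv σ ^ (e - (2 * k + 2)) *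
      ct σ ^ (e - 2 * k)) = 0 := by
    rw [Derivation.leibniz, Derivation.leibniz, Derivation.leibniz_pow,
      Derivation.leibniz_pow, dw_cv, dw_ct, pderiv_inr_emb]
    simp
  rw [strictF_eq, map_add, f2, zero_add, Derivation.leibniz, f1, smul_zero, add_zero,
    smul_eq_mul, dw_qpart]

theorem dt_strictF : pderiv (Sum.inr (Sum.inr false)) (strictF U β k e) =
    emb U * cv σ ^ (e - (2 * k + 2)) * ((e - 2 * k : ℕ) * ct σ ^ (e - 2 * k - 1)) +
      cv σ ^ (2 * k + 2 - e) * ((2 * k - e : ℕ) * ct σ ^ (2 * k - e - 1)) * qpart β := by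
  rw [strictF_eq, map_add]
  congr 1
  · rw [Derivation.leibniz, Derivation.leibniz, Derivation.leibniz_pow,
      Derivation.leibniz_pow, dt_cv, dt_ct, pderiv_inr_emb]
    simp only [smul_eq_mul, mul_one, nsmul_eq_mul]
    ring
  · rw [Derivation.leibniz, db_qpart, Derivation.leibniz, Derivation.leibniz_pow,
      Derivation.leibniz_pow, dt_cv, dt_ct]
    simp only [smul_eq_mul, mul_one, nsmul_eq_mul]
    ring

theorem dv_strictF : pderiv (Sum.inr (Sum.inr true)) (strictF U β k e) =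
    emb U * ((e - (2 * k + 2) : ℕ) * cv σ ^ (e - (2 * k + 2) - 1)) * ct σ ^ (e - 2 * k) +
      ((2 * k + 2 - e : ℕ) * cv σ ^ (2 * k + 2 - e - 1)) * ct σ ^ (2 * k - e) * qpart β := by
  rw [strictF_eq, map_add]
  congr 1
  · rw [Derivation.leibniz, Derivation.leibniz, Derivation.leibniz_pow,
      Derivation.leibniz_pow, dv_cv, dv_ct, pderiv_inr_emb]
    simp only [smul_eq_mul, mul_one, nsmul_eq_mul]
    ring
  · rw [Derivation.leibniz, db_qpart, Derivation.leibniz, Derivation.leibniz_pow,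
      Derivation.leibniz_pow, dv_cv, dv_ct]
    simp only [smul_eq_mul, mul_one, nsmul_eq_mul]
    ring

end Deriv

section Indep

variable {σ : Type} [Fintype σ] [DecidableEq σ] {p : ℕ} {F : MvPolynomial σ ℤ} {l₀ : σ}
  {U : MvPolynomial σ ℤ} {β : Matrix σ σ (MvPolynomial σ ℤ)} {k e : ℕ}

theorem crel_indep (hp : p.Prime) (hp2 : p ≠ 2) (he : 1 ≤ e)
    (Q : Ideal (MvPolynomial (CVar σ) ℤ)) [hQ : Q.IsPrime] (hpQ : C (p : ℤ) ∈ Q)
    (hrel : ∀ i, crel p F l₀ U β k e i ∈ Q) (hy : ∀ l, emb (pderiv l F) ∈ Q)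
    (hU : emb U ∉ Q) (hdet : emb (Matrix.of fun i j => pderiv i (pderiv j F)).det ∉ Q)
    (hβ : emb (β + βᵀ).det ∉ Q) {s : MvPolynomial (CVar σ) ℤ} (hs : s ∉ Q)
    (c : σ ⊕ Fin 3 → MvPolynomial (CVar σ) ℤ)
    (h : s * ∑ i, c i * crel p F l₀ U β k e i ∈ Q ^ 2) : ∀ i, c i ∈ Q := by
  let κ := FractionRing (MvPolynomial (CVar σ) ℤ ⧸ Q)
  let φ : MvPolynomial (CVar σ) ℤ →+* κ :=
    (algebraMap (MvPolynomial (CVar σ) ℤ ⧸ Q) κ).comp (Ideal.Quotient.mk Q)
  have hφ : ∀ x, φ x = 0 ↔ x ∈ Q := by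
    intro x
    simp only [φ, RingHom.comp_apply]
    rw [FaithfulSMul.algebraMap_eq_zero_iff, Ideal.Quotient.eq_zero_iff_mem]
  have hφp : φ (C (p : ℤ)) = 0 := (hφ _).mpr hpQ
  have hφrel : ∀ i, φ (crel p F l₀ U β k e i) = 0 := fun i => (hφ _).mpr (hrel i)
  have h2 : (2 : κ) ≠ 0 := by
    intro h2
    have h3 : φ (C (2 : ℤ)) = 0 := by
      rw [← h2]
      exact map_ofNat (φ.comp C) 2
    have hcop : Nat.Coprime p 2 := (Nat.coprime_primes hp Nat.prime_two).mpr hp2
    have h4 : IsCoprime (p : ℤ) 2 := by exact_mod_cast hcop.isCoprime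
    obtain ⟨a, b, hab⟩ := h4
    have h5 : φ (C (1 : ℤ)) = 0 := by
      rw [← hab, C_add, C_mul, C_mul, map_add, map_mul, map_mul, hφp, h3]
      ring
    rw [C_1, map_one] at h5
    exact one_ne_zero h5
  -- the equations given by the derivations
  have hD : ∀ z : CVar σ, ∑ i, φ (c i) * φ (pderiv z (crel p F l₀ U β k e i)) = 0 := by
    intro z
    have h1 := (hφ _).mpr (derivation_mem Q (pderiv z) hs h)
    rw [map_sum, map_sum] at h1
    rw [← h1]
    refine Finset.sum_congr rfl fun i _ => ?_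
    rw [Derivation.leibniz, smul_eq_mul, smul_eq_mul, map_add, map_mul, map_mul, hφrel, zero_mul,
      add_zero]
  -- names
  obtain ⟨v, hv⟩ : ∃ v, v = φ (cv σ) := ⟨_, rfl⟩
  obtain ⟨t, ht⟩ : ∃ t, t = φ (ct σ) := ⟨_, rfl⟩
  obtain ⟨w, hw⟩ : ∃ w : σ → κ, w = fun j => φ (cw j) := ⟨_, rfl⟩
  obtain ⟨u, hu⟩ : ∃ u, u = φ (emb U) := ⟨_, rfl⟩
  obtain ⟨B, hB⟩ : ∃ B : Matrix σ σ κ, B = β.map fun x => φ (emb x) := ⟨_, rfl⟩
  obtain ⟨H, hH⟩ : ∃ H : Matrix σ σ κ, H = (Matrix.of fun i j => pderiv i (pderiv j F)).map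
    fun x => φ (emb x) := ⟨_, rfl⟩
  have hu0 : u ≠ 0 := by rw [hu]; exact (hφ _).not.mpr hU
  have hH0 : H.det ≠ 0 := by
    have h3 := (hφ _).not.mpr hdet
    rw [hH]
    intro h4
    apply h3
    rw [← h4]
    exact RingHom.map_det (φ.comp (emb : MvPolynomial σ ℤ →ₐ[ℤ] _).toRingHom) _
  have hB0 : (B + Bᵀ).det ≠ 0 := by
    have h3 := (hφ _).not.mpr hβ
    rw [hB]
    intro h4
    apply h3
    rw [← h4]
    have h5 := RingHom.map_det (φ.comp (emb : MvPolynomial σ ℤ →ₐ[ℤ] _).toRingHom) (β + βᵀ)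
    rw [RingHom.mapMatrix_apply, Matrix.map_add _ (fun a b => map_add _ a b),
      Matrix.transpose_map] at h5
    exact h5
  have hq : φ (qpart β) = qval B w := by
    rw [phi_qpart, hB, hw]
  have r0 := hφrel (Sum.inr 0)
  have r1 := hφrel (Sum.inr 1)
  have r2 := hφrel (Sum.inr 2)
  have rl := fun l => hφrel (Sum.inl l)
  simp only [crel, Sum.elim_inr, Sum.elim_inl, Matrix.cons_val_zero, Matrix.cons_val_one,
    Matrix.cons_val] at r0 r1 r2 rl
  rw [map_sub, map_mul, hφp, sub_zero, ← hv, ← ht] at r0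
  rw [map_sub, map_one, sub_eq_zero] at r1
  have hwl : w l₀ = 1 := by rw [hw]; exact r1
  rw [strictF_eq, map_add, map_mul, map_mul, map_mul, map_mul, map_pow, map_pow, map_pow,
    map_pow, hq, ← hu, ← hv, ← ht] at r2
  have hyl : ∀ l, φ (emb (pderiv l F)) = 0 := fun l => (hφ _).mpr (hy l)
  have hpkv : φ (C (p : ℤ)) ^ k * v = 0 := by
    have h3 := rl l₀
    rw [map_sub, hyl, zero_sub, neg_eq_zero, map_mul, map_mul, map_pow, r1, mul_one, ← hv] at h3
    exact h3
  -- the derivations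
  have dx : ∀ j, ∑ l, φ (c (Sum.inl l)) * H j l + φ (c (Sum.inr 2)) *
      φ (pderiv (Sum.inl j) (strictF U β k e)) = 0 := by
    intro j
    have h3 := hD (Sum.inl j)
    rw [Fintype.sum_sum_type, Fin.sum_univ_three] at h3
    simp only [crel, Sum.elim_inr, Sum.elim_inl, Matrix.cons_val_zero, Matrix.cons_val_one,
      Matrix.cons_val] at h3
    have e0 : pderiv (Sum.inl j) (cv σ * ct σ - C (p : ℤ)) = 0 := by
      rw [map_sub, Derivation.leibniz, pderiv_C, cv, ct, pderiv_X_of_ne (by simp),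
        pderiv_X_of_ne (by simp)]
      simp
    have e1 : pderiv (Sum.inl j) (cw l₀ - 1) = 0 := by
      rw [map_sub, cw, pderiv_X_of_ne (by simp), pderiv_one, sub_zero]
    have e2 : ∀ l, φ (pderiv (Sum.inl j) (emb (pderiv l F) - C (p : ℤ) ^ k * cv σ * cw l)) =
        H j l := by
      intro l
      have e3 : pderiv (Sum.inl j) (C (p : ℤ) ^ k * cv σ * cw l) = 0 := by
        rw [← map_pow, mul_assoc, pderiv_C_mul, Derivation.leibniz, cv, cw,
          pderiv_X_of_ne (by simp), pderiv_X_of_ne (by simp)]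
        simp
      rw [map_sub, e3, sub_zero, pderiv_emb, hH]
      rfl
    rw [e0, e1] at h3
    simp only [e2, map_zero, mul_zero, zero_add] at h3
    exact h3
  have dw : ∀ j, φ (c (Sum.inr 1)) * (if j = l₀ then 1 else 0) + φ (c (Sum.inr 2)) *
      (v ^ (2 * k + 2 - e) * t ^ (2 * k - e) * ((B + Bᵀ) *ᵥ w) j) = 0 := by
    intro j
    have h3 := hD (Sum.inr (Sum.inl j))
    rw [Fintype.sum_sum_type, Fin.sum_univ_three] at h3
    simp only [crel, Sum.elim_inr, Sum.elim_inl, Matrix.cons_val_zero, Matrix.cons_val_one,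
      Matrix.cons_val] at h3
    have e0 : pderiv (Sum.inr (Sum.inl j)) (cv σ * ct σ - C (p : ℤ)) = 0 := by
      rw [map_sub, Derivation.leibniz, pderiv_C, dw_cv, dw_ct]
      simp
    have e1 : φ (pderiv (Sum.inr (Sum.inl j)) (cw l₀ - 1)) = if j = l₀ then 1 else 0 := by
      rw [map_sub, dw_cw, pderiv_one, sub_zero]
      split_ifs <;> simp
    have e2 : ∀ l, φ (pderiv (Sum.inr (Sum.inl j)) (emb (pderiv l F) -
        C (p : ℤ) ^ k * cv σ * cw l)) = 0 := by
      intro l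
      rw [map_sub, pderiv_inr_emb, ← map_pow, mul_assoc, pderiv_C_mul, Derivation.leibniz, dw_cv,
        dw_cw, smul_zero, add_zero, zero_sub, map_neg, map_mul, smul_eq_mul, map_mul, map_pow, map_pow,
        ← hv, ← mul_assoc, hpkv, zero_mul, neg_zero]
    have e3 : φ (pderiv (Sum.inr (Sum.inl j)) (strictF U β k e)) =
        v ^ (2 * k + 2 - e) * t ^ (2 * k - e) * ((B + Bᵀ) *ᵥ w) j := by
      rw [dw_strictF, map_mul, map_mul, map_pow, map_pow, ← hv, ← ht, map_sum, mulVec, dotProduct,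
        hw, hB]
      congr 1
      refine Finset.sum_congr rfl fun l _ => ?_
      rw [map_mul, Matrix.add_apply, Matrix.add_apply, Matrix.transpose_apply,
        Matrix.transpose_apply, map_add, map_add]
      rfl
    rw [e0, e1, e3] at h3
    simp only [e2, map_zero, mul_zero, zero_add, Finset.sum_const_zero] at h3
    exact h3
  have dt : φ (c (Sum.inr 0)) * v + φ (c (Sum.inr 2)) * (u * v ^ (e - (2 * k + 2)) *
      ((e - 2 * k : ℕ) * t ^ (e - 2 * k - 1)) +
      v ^ (2 * k + 2 - e) * ((2 * k - e : ℕ) * t ^ (2 * k - e - 1)) * qval B w) = 0 := by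
    have h3 := hD (Sum.inr (Sum.inr false))
    rw [Fintype.sum_sum_type, Fin.sum_univ_three] at h3
    simp only [crel, Sum.elim_inr, Sum.elim_inl, Matrix.cons_val_zero, Matrix.cons_val_one,
      Matrix.cons_val] at h3
    have e0 : pderiv (Sum.inr (Sum.inr false)) (cv σ * ct σ - C (p : ℤ)) = cv σ := by
      rw [map_sub, Derivation.leibniz, pderiv_C, dt_cv, dt_ct]
      simp
    have e1 : pderiv (Sum.inr (Sum.inr false)) (cw l₀ - 1) = 0 := by
      rw [map_sub, db_cw, pderiv_one, sub_zero]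
    have e2 : ∀ l, pderiv (Sum.inr (Sum.inr false)) (emb (pderiv l F) -
        C (p : ℤ) ^ k * cv σ * cw l) = 0 := by
      intro l
      rw [map_sub, pderiv_inr_emb, ← map_pow, mul_assoc, pderiv_C_mul, Derivation.leibniz, dt_cv,
        db_cw]
      simp
    have e3 : φ (pderiv (Sum.inr (Sum.inr false)) (strictF U β k e)) =
        u * v ^ (e - (2 * k + 2)) * ((e - 2 * k : ℕ) * t ^ (e - 2 * k - 1)) +
      v ^ (2 * k + 2 - e) * ((2 * k - e : ℕ) * t ^ (2 * k - e - 1)) * qval B w := by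
      rw [dt_strictF]
      simp only [map_add, map_mul, map_pow, map_natCast, ← hv, ← ht, ← hu, hq]
    rw [e0, e1, e3, ← hv] at h3
    simp only [e2, map_zero, mul_zero, zero_add, add_zero, Finset.sum_const_zero] at h3
    exact h3
  have dv : φ (c (Sum.inr 0)) * t - φ (C (p : ℤ)) ^ k * ∑ l, φ (c (Sum.inl l)) * w l +
      φ (c (Sum.inr 2)) * (u * ((e - (2 * k + 2) : ℕ) * v ^ (e - (2 * k + 2) - 1)) *
      t ^ (e - 2 * k) + ((2 * k + 2 - e : ℕ) * v ^ (2 * k + 2 - e - 1)) * t ^ (2 * k - e) *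
        qval B w) = 0 := by
    have h3 := hD (Sum.inr (Sum.inr true))
    rw [Fintype.sum_sum_type, Fin.sum_univ_three] at h3
    simp only [crel, Sum.elim_inr, Sum.elim_inl, Matrix.cons_val_zero, Matrix.cons_val_one,
      Matrix.cons_val] at h3
    have e0 : pderiv (Sum.inr (Sum.inr true)) (cv σ * ct σ - C (p : ℤ)) = ct σ := by
      rw [map_sub, Derivation.leibniz, pderiv_C, dv_cv, dv_ct]
      simp
    have e1 : pderiv (Sum.inr (Sum.inr true)) (cw l₀ - 1) = 0 := by
      rw [map_sub, db_cw, pderiv_one, sub_zero]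
    have e2 : ∀ l, φ (pderiv (Sum.inr (Sum.inr true)) (emb (pderiv l F) -
        C (p : ℤ) ^ k * cv σ * cw l)) = - (φ (C (p : ℤ)) ^ k * w l) := by
      intro l
      rw [map_sub, pderiv_inr_emb, ← map_pow, mul_assoc, pderiv_C_mul, Derivation.leibniz, dv_cv,
        db_cw, hw]
      simp
    have e3 : φ (pderiv (Sum.inr (Sum.inr true)) (strictF U β k e)) =
        u * ((e - (2 * k + 2) : ℕ) * v ^ (e - (2 * k + 2) - 1)) *
      t ^ (e - 2 * k) + ((2 * k + 2 - e : ℕ) * v ^ (2 * k + 2 - e - 1)) * t ^ (2 * k - e) *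
        qval B w := by
      rw [dv_strictF]
      simp only [map_add, map_mul, map_pow, map_natCast, ← hv, ← ht, ← hu, hq]
    rw [e0, e1, e3, ← ht] at h3
    simp only [e2, map_zero, mul_zero, add_zero] at h3
    rw [← h3, Finset.mul_sum]
    have f4 : ∑ l, φ (c (Sum.inl l)) * -(φ (C (p : ℤ)) ^ k * w l) =
        - ∑ l, φ (C (p : ℤ)) ^ k * (φ (c (Sum.inl l)) * w l) := by
      rw [← Finset.sum_neg_distrib]
      refine Finset.sum_congr rfl fun l _ => ?_
      ring
    rw [f4]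
    ring
  -- conclusion
  have hcF : φ (c (Sum.inr 2)) = 0 := by
    refine core_eq_zero (c₀ := φ (c (Sum.inr 0))) h2 hB0 hwl hu0 r0 he r2 ?_ dt ?_
    · intro j hj
      have := dw j
      rw [if_neg hj, mul_zero, zero_add] at this
      exact this
    · intro hk
      have h3 := dv
      rw [hφp, zero_pow (by omega), zero_mul, sub_zero] at h3
      exact h3
  have hcl : ∀ l, φ (c (Sum.inl l)) = 0 := by
    have h3 : H *ᵥ (fun l => φ (c (Sum.inl l))) = 0 := by
      funext j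
      have h4 := dx j
      rw [hcF, zero_mul, add_zero] at h4
      rw [mulVec, dotProduct, Pi.zero_apply, ← h4]
      exact Finset.sum_congr rfl fun l _ => mul_comm _ _
    have h4 := Matrix.eq_zero_of_mulVec_eq_zero hH0 h3
    exact fun l => congrFun h4 l
  have hc1 : φ (c (Sum.inr 1)) = 0 := by
    have h3 := dw l₀
    rw [hcF, zero_mul, add_zero, if_pos rfl, mul_one] at h3
    exact h3
  have hc0 : φ (c (Sum.inr 0)) = 0 := by
    by_contra hc0
    rw [hcF, zero_mul, add_zero] at dt dv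
    have hv0 : v = 0 := (mul_eq_zero.mp dt).resolve_left hc0
    have ht0 : t = 0 := by
      have h3 : ∑ l, φ (c (Sum.inl l)) * w l = 0 :=
        Finset.sum_eq_zero fun l _ => by rw [hcl, zero_mul]
      rw [h3, mul_zero, sub_zero] at dv
      exact (mul_eq_zero.mp dv).resolve_left hc0
    have hvQ : cv σ ∈ Q := (hφ _).mp (by rw [← hv, hv0])
    have htQ : ct σ ∈ Q := (hφ _).mp (by rw [← ht, ht0])
    have hsq : ∀ x ∈ Q, ∀ y ∈ Q, x * y ∈ Q ^ 2 := fun x hx y hy => by
      rw [pow_two]; exact Ideal.mul_mem_mul hx hy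
    rw [Fintype.sum_sum_type, Fin.sum_univ_three] at h
    have h3 : s * (∑ l, c (Sum.inl l) * crel p F l₀ U β k e (Sum.inl l) +
        c (Sum.inr 0) * (cv σ * ct σ) +
        c (Sum.inr 1) * crel p F l₀ U β k e (Sum.inr 1) +
        c (Sum.inr 2) * crel p F l₀ U β k e (Sum.inr 2)) ∈ Q ^ 2 := by
      apply Ideal.mul_mem_left
      refine Ideal.add_mem _ (Ideal.add_mem _ (Ideal.add_mem _ (Ideal.sum_mem _ fun l _ => ?_)
        (Ideal.mul_mem_left _ _ (hsq _ hvQ _ htQ))) ?_) ?_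
      · exact hsq _ ((hφ _).mp (hcl l)) _ (hrel _)
      · exact hsq _ ((hφ _).mp hc1) _ (hrel _)
      · exact hsq _ ((hφ _).mp hcF) _ (hrel _)
    have h4 := Ideal.sub_mem _ h3 h
    have h5 : s * (∑ l, c (Sum.inl l) * crel p F l₀ U β k e (Sum.inl l) +
        c (Sum.inr 0) * (cv σ * ct σ) +
        c (Sum.inr 1) * crel p F l₀ U β k e (Sum.inr 1) +
        c (Sum.inr 2) * crel p F l₀ U β k e (Sum.inr 2)) -
        s * (∑ l, c (Sum.inl l) * crel p F l₀ U β k e (Sum.inl l) +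
        (c (Sum.inr 0) * crel p F l₀ U β k e (Sum.inr 0) +
        c (Sum.inr 1) * crel p F l₀ U β k e (Sum.inr 1) +
        c (Sum.inr 2) * crel p F l₀ U β k e (Sum.inr 2))) =
        s * c (Sum.inr 0) * C (p : ℤ) := by
      have h6 : crel p F l₀ U β k e (Sum.inr 0) = cv σ * ct σ - C (p : ℤ) := rfl
      rw [h6]
      ring
    rw [h5] at h4
    exact mul_prime_notMem_sq hp Q hpQ (hQ.mul_notMem hs ((hφ _).not.mp hc0)) h4
  intro i
  rcases i with l | i
  · exact (hφ _).mp (hcl l)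
  · fin_cases i
    · exact (hφ _).mp hc0
    · exact (hφ _).mp hc1
    · exact (hφ _).mp hcF

end Indep

end Pool.Agent.Lib.MP_6a3dac_ag
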