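import Pool.Agent.Lib.MP_6a3dac_ag.Mg.G003

/-!
# The blow-up order of a product of ideals and its charts
-/

set_option autoImplicit false

namespace Pool.Agent.Lib.MP_6a3dac_ag.Dens

section Sets

variable {M I : Type} [CommRing M] (x : I → M) (B : ℕ → Set M) (ϖ : M)

/-- The products of generators of the first `r` ideals. -/
def PSet (r : ℕ) : Set M :=
  {w | ∃ β : ℕ → M, (∀ j ∈ Finset.Icc 1 r, β j ∈ B j) ∧ w = ∏ j ∈ Finset.Icc 1 r, β j}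

/-- The generators of degree `δ r + 1`. -/
def WSet (r : ℕ) : Set M := {w | ∃ i, ∃ q ∈ PSet B r, w = x i * q}

/-- The generators of degree one. -/
def W1Set (r : ℕ) : Set M := {w | ∃ i, w = (∏ j ∈ Finset.Icc 1 r, ϖ ^ j) * x i}

variable {x B ϖ}

theorem finite_PSet (hB : ∀ j, (B j).Finite) (r : ℕ) : (PSet B r).Finite := by
  induction r with
  | zero =>
    refine (Set.finite_singleton (1 : M)).subset ?_
    rintro w ⟨β, -, rfl⟩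
    simp
  | succ r ih =>
    refine (Set.Finite.image2 (fun a b => a * b) ih (hB (r + 1))).subset ?_
    rintro w ⟨β, hβ, rfl⟩
    rw [Finset.prod_Icc_succ_top (by omega)]
    refine ⟨_, ⟨β, fun j hj => hβ j ?_, rfl⟩, _, hβ (r + 1) (by simp), rfl⟩
    rw [Finset.mem_Icc] at hj ⊢
    omega

theorem finite_WSet [Finite I] (hB : ∀ j, (B j).Finite) (r : ℕ) : (WSet x B r).Finite := by
  refine (Set.Finite.image2 (fun a b => a * b) (Set.finite_range x)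
    (finite_PSet hB r)).subset ?_
  rintro w ⟨i, q, hq, rfl⟩
  exact ⟨_, ⟨i, rfl⟩, q, hq, rfl⟩

theorem finite_W1Set [Finite I] (r : ℕ) : (W1Set x ϖ r).Finite := by
  refine (Set.finite_range fun i => (∏ j ∈ Finset.Icc 1 r, ϖ ^ j) * x i).subset ?_
  rintro w ⟨i, rfl⟩
  exact ⟨i, rfl⟩

end Sets

section Order

variable {R L M F I : Type} [CommRing R] [CommRing L] [CommRing M] [Algebra R L] [Algebra L M]
  [Algebra R M] [IsScalarTower R L M] [Field F] (ℳ : ℕ → Submodule L M) [GradedAlgebra ℳ]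
  (x : I → M) (B : ℕ → Set M) (δ : ℕ) (ϖ : M) (Λ : Subring M) (r : ℕ) (T : Subalgebra R M)

/-- The hypotheses on the order `T`. -/
structure OrderHyp : Prop where
  xdeg : ∀ i, x i ∈ ℳ 1
  δpos : 1 ≤ δ
  B_deg : ∀ j, ∀ b ∈ B j, b ∈ ℳ δ
  B_pow : ∀ j i, ϖ ^ j * x i ^ δ ∈ B j
  Λdeg : ∀ c ∈ Λ, c ∈ ℳ 0
  ϖΛ : ϖ ∈ Λ
  hom : IsHomog ℳ T
  Λ_le : ∀ c ∈ Λ, c ∈ T
  W_le : ∀ c ∈ WSet x B r, c ∈ T
  W1_le : ∀ c ∈ W1Set x ϖ r, c ∈ T
  gen : ∀ N : Subring M, (∀ c ∈ Λ, c ∈ N) → (∀ c ∈ WSet x B r, c ∈ N) →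
    (∀ c ∈ W1Set x ϖ r, c ∈ N) → ∀ t ∈ T, t ∈ N

variable {ℳ x B δ ϖ Λ r T} (h : OrderHyp ℳ x B δ ϖ Λ r T)
include h

omit [IsScalarTower R L M] in
theorem OrderHyp.ϖdeg : ϖ ∈ ℳ 0 := h.Λdeg _ h.ϖΛ

omit [IsScalarTower R L M] in
theorem OrderHyp.pow_deg (j : ℕ) : ϖ ^ j ∈ ℳ 0 := by
  have := SetLike.pow_mem_graded j h.ϖdeg
  simpa using this

omit [IsScalarTower R L M] in
theorem OrderHyp.prod_deg (s : Finset ℕ) {β : ℕ → M} (hβ : ∀ j ∈ s, β j ∈ B j) :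
    ∏ j ∈ s, β j ∈ ℳ (δ * s.card) := by
  classical
  induction s using Finset.induction_on with
  | empty => simpa using (SetLike.GradedOne.one_mem (A := ℳ))
  | insert a s ha ih =>
    rw [Finset.prod_insert ha, Finset.card_insert_of_notMem ha]
    have h1 := h.B_deg _ _ (hβ a (Finset.mem_insert_self _ _))
    have h2 := ih fun j hj => hβ j (Finset.mem_insert_of_mem hj)
    have := SetLike.mul_mem_graded h1 h2
    rwa [show δ * (s.card + 1) = δ + δ * s.card by ring]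

omit [IsScalarTower R L M] in
theorem OrderHyp.W_deg {w : M} (hw : w ∈ WSet x B r) : w ∈ ℳ (δ * r + 1) := by
  obtain ⟨i, q, ⟨β, hβ, rfl⟩, rfl⟩ := hw
  have h1 := h.prod_deg _ hβ
  rw [Nat.card_Icc, Nat.add_sub_cancel] at h1
  have := SetLike.mul_mem_graded (h.xdeg i) h1
  rwa [add_comm] at this

omit [IsScalarTower R L M] in
theorem OrderHyp.theta_deg : (∏ j ∈ Finset.Icc 1 r, ϖ ^ j) ∈ ℳ 0 := by
  classical
  have : ∀ s : Finset ℕ, (∏ j ∈ s, ϖ ^ j) ∈ ℳ 0 := by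
    intro s
    induction s using Finset.induction_on with
    | empty => simpa using (SetLike.GradedOne.one_mem (A := ℳ))
    | insert a s ha ih =>
      rw [Finset.prod_insert ha]
      have := SetLike.mul_mem_graded (h.pow_deg a) ih
      simpa using this
  exact this _

omit [IsScalarTower R L M] in
theorem OrderHyp.W1_deg {w : M} (hw : w ∈ W1Set x ϖ r) : w ∈ ℳ 1 := by
  obtain ⟨i, rfl⟩ := hw
  have := SetLike.mul_mem_graded h.theta_deg (h.xdeg i)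
  simpa using this

/-- Some generator of degree `2 r + 1` lies outside a relevant prime. -/
theorem OrderHyp.exists_notMem (Q : Ideal T) [hQ : Q.IsPrime]
    (hrel : ∃ n, 0 < n ∧ ∃ t : T, (t : M) ∈ ℳ n ∧ t ∉ Q) :
    ∃ i, ∃ β : ℕ → M, (∀ j ∈ Finset.Icc 1 r, β j ∈ B j) ∧
      ∃ hf : x i * ∏ j ∈ Finset.Icc 1 r, β j ∈ T,
        (⟨x i * ∏ j ∈ Finset.Icc 1 r, β j, hf⟩ : T) ∉ Q := by
  classical
  by_contra hcon
  push Not at hcon
  have hW : ∀ w (hw : w ∈ WSet x B r), (⟨w, h.W_le w hw⟩ : T) ∈ Q := by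
    rintro w ⟨i, q, ⟨β, hβ, rfl⟩, rfl⟩
    exact hcon i β hβ _
  have hTh : (∏ j ∈ Finset.Icc 1 r, ϖ ^ j) ∈ T := by
    apply h.Λ_le
    exact Λ.prod_mem fun j _ => Λ.pow_mem h.ϖΛ j
  have hW1 : ∀ w (hw : w ∈ W1Set x ϖ r), (⟨w, h.W1_le w hw⟩ : T) ∈ Q := by
    rintro w hw
    obtain ⟨i, hi⟩ := hw
    apply hQ.mem_of_pow_mem (δ * r + 1)
    have h1 : x i * ∏ j ∈ Finset.Icc 1 r, (ϖ ^ j * x i ^ δ) ∈ WSet x B r :=
      ⟨i, _, ⟨fun j => ϖ ^ j * x i ^ δ, fun j _ => h.B_pow j i, rfl⟩, rfl⟩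
    have h2 : (⟨w, h.W1_le w ⟨i, hi⟩⟩ : T) ^ (δ * r + 1) =
        (⟨_, hTh⟩ : T) ^ (δ * r) * ⟨_, h.W_le _ h1⟩ := by
      apply Subtype.ext
      rw [SubmonoidClass.coe_pow, Subalgebra.coe_mul, SubmonoidClass.coe_pow]
      change w ^ (δ * r + 1) = (∏ j ∈ Finset.Icc 1 r, ϖ ^ j) ^ (δ * r) *
        (x i * ∏ j ∈ Finset.Icc 1 r, (ϖ ^ j * x i ^ δ))
      rw [Finset.prod_mul_distrib, Finset.prod_const, Nat.card_Icc, Nat.add_sub_cancel, hi]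
      ring
    rw [h2]
    exact Q.mul_mem_left _ (hW _ h1)
  -- all elements of positive degree lie in `Q`
  let N : ℕ → AddSubgroup M := fun i =>
    { carrier := {t | ∃ ht : t ∈ T, 0 < i → (⟨t, ht⟩ : T) ∈ Q}
      add_mem' := by
        rintro a b ⟨ha, ha'⟩ ⟨hb, hb'⟩
        exact ⟨T.add_mem ha hb, fun hi => Q.add_mem (ha' hi) (hb' hi)⟩
      zero_mem' := ⟨T.zero_mem, fun _ => Q.zero_mem⟩
      neg_mem' := by
        rintro a ⟨ha, ha'⟩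
        exact ⟨T.neg_mem ha, fun hi => Q.neg_mem (ha' hi)⟩ }
  have hN : ∀ i t, t ∈ N i ↔ ∃ ht : t ∈ T, 0 < i → (⟨t, ht⟩ : T) ∈ Q := fun _ _ => Iff.rfl
  have hN1 : (1 : M) ∈ N 0 := ⟨T.one_mem, fun hi => absurd hi (lt_irrefl 0)⟩
  have hNmul : ∀ k l a b, a ∈ N k → b ∈ N l → a * b ∈ N (k + l) := by
    rintro k l a b ⟨ha, ha'⟩ ⟨hb, hb'⟩
    refine ⟨T.mul_mem ha hb, fun hi => ?_⟩
    rcases Nat.eq_zero_or_pos k with rfl | hk
    · exact Q.mul_mem_left ⟨a, ha⟩ (hb' (by omega))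
    · exact Q.mul_mem_right ⟨b, hb⟩ (ha' hk)
  obtain ⟨n, hn, t, ht, htQ⟩ := hrel
  apply htQ
  have htN : (t : M) ∈ gradedSub ℳ N hN1 hNmul := by
    refine h.gen _ ?_ ?_ ?_ t t.2
    · intro c hc
      exact mem_gradedSub_of_mem ℳ (h.Λdeg c hc) ⟨h.Λ_le c hc, fun hi => absurd hi (lt_irrefl 0)⟩
    · intro c hc
      exact mem_gradedSub_of_mem ℳ (h.W_deg hc) ⟨h.W_le c hc, fun _ => hW c hc⟩
    · intro c hc
      exact mem_gradedSub_of_mem ℳ (h.W1_deg hc) ⟨h.W1_le c hc, fun _ => hW1 c hc⟩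
  obtain ⟨ht', ht2⟩ := mem_of_mem_gradedSub ℳ ht htN
  exact ht2 hn

section Chart

variable (ι : M →+* F) (hι : Function.Injective ι) (Q : Ideal T) [hQ : Q.IsPrime] {i : I}
  {β : ℕ → M} (hβ : ∀ j ∈ Finset.Icc 1 r, β j ∈ B j)
  (hf : x i * ∏ j ∈ Finset.Icc 1 r, β j ∈ T)
  (hfQ : (⟨x i * ∏ j ∈ Finset.Icc 1 r, β j, hf⟩ : T) ∉ Q)
include hι hβ hfQ

omit [IsScalarTower R L M] h hβ in
theorem OrderHyp.chart_ne_zero : ι (x i) ≠ 0 ∧ ∀ j ∈ Finset.Icc 1 r, ι (β j) ≠ 0 := by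
  have h1 := map_ne_zero_of_notMem ι T Q hι hfQ
  change ι (x i * ∏ j ∈ Finset.Icc 1 r, β j) ≠ 0 at h1
  rw [map_mul, map_prod] at h1
  exact ⟨left_ne_zero_of_mul h1, fun j hj => (Finset.prod_ne_zero_iff.mp
    (right_ne_zero_of_mul h1)) j hj⟩

theorem OrderHyp.coord_mem (k : I) : ι (x k) / ι (x i) ∈ homLoc ℳ ι T Q := by
  obtain ⟨h1, h2⟩ := OrderHyp.chart_ne_zero ι hι Q hf hfQ
  have hw : x k * ∏ j ∈ Finset.Icc 1 r, β j ∈ WSet x B r := ⟨k, _, ⟨β, hβ, rfl⟩, rfl⟩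
  refine ⟨δ * r + 1, ⟨_, h.W_le _ hw⟩, ⟨_, hf⟩, h.W_deg hw,
    h.W_deg ⟨i, _, ⟨β, hβ, rfl⟩, rfl⟩, hfQ, ?_⟩
  change ι (x k) / ι (x i) * ι (x i * ∏ j ∈ Finset.Icc 1 r, β j) =
    ι (x k * ∏ j ∈ Finset.Icc 1 r, β j)
  rw [map_mul, map_mul, ← mul_assoc, div_mul_cancel₀ _ h1]

/-- Another coordinate can be used if the quotient is a unit. -/
theorem OrderHyp.change (k : I) (hk : x k * ∏ j ∈ Finset.Icc 1 r, β j ∈ T)
    (hu : IsUnit (⟨_, h.coord_mem ι hι Q hβ hf hfQ k⟩ : homLoc ℳ ι T Q)) :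
    (⟨x k * ∏ j ∈ Finset.Icc 1 r, β j, hk⟩ : T) ∉ Q := by
  obtain ⟨h1, h2⟩ := OrderHyp.chart_ne_zero ι hι Q hf hfQ
  refine (isUnit_homLoc_iff ℳ ι T Q hι _ (n := δ * r + 1)
    (a := ⟨x k * ∏ j ∈ Finset.Icc 1 r, β j, hk⟩)
    (s := ⟨x i * ∏ j ∈ Finset.Icc 1 r, β j, hf⟩)
    (h.W_deg ⟨k, _, ⟨β, hβ, rfl⟩, rfl⟩)
    (h.W_deg ⟨i, _, ⟨β, hβ, rfl⟩, rfl⟩) hfQ ?_).mp hu
  change ι (x k) / ι (x i) * ι (x i * ∏ j ∈ Finset.Icc 1 r, β j) =
    ι (x k * ∏ j ∈ Finset.Icc 1 r, β j)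
  rw [map_mul, map_mul, ← mul_assoc, div_mul_cancel₀ _ h1]

theorem OrderHyp.const_mem {c : M} (hc : c ∈ Λ) : ι c ∈ homLoc ℳ ι T Q := by
  have h1 := SetLike.mul_mem_graded (h.Λdeg c hc) (h.W_deg ⟨i, _, ⟨β, hβ, rfl⟩, rfl⟩)
  rw [zero_add] at h1
  refine ⟨δ * r + 1, ⟨_, h.Λ_le c hc⟩ * ⟨_, hf⟩, ⟨_, hf⟩, h1,
    h.W_deg ⟨i, _, ⟨β, hβ, rfl⟩, rfl⟩, hfQ, ?_⟩
  exact (map_mul ι c _).symm

theorem OrderHyp.ratio_mem {j : ℕ} (hj : j ∈ Finset.Icc 1 r) {b : M} (hb : b ∈ B j) :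
    ι b / ι (β j) ∈ homLoc ℳ ι T Q := by
  classical
  obtain ⟨h1, h2⟩ := OrderHyp.chart_ne_zero ι hι Q hf hfQ
  have hβ' : ∀ l ∈ Finset.Icc 1 r, Function.update β j b l ∈ B l := by
    intro l hl
    by_cases hlj : l = j
    · subst hlj
      rwa [Function.update_self]
    · rw [Function.update_of_ne hlj]
      exact hβ l hl
  have hw : x i * ∏ l ∈ Finset.Icc 1 r, Function.update β j b l ∈ WSet x B r :=
    ⟨i, _, ⟨_, hβ', rfl⟩, rfl⟩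
  refine ⟨δ * r + 1, ⟨_, h.W_le _ hw⟩, ⟨_, hf⟩, h.W_deg hw,
    h.W_deg ⟨i, _, ⟨β, hβ, rfl⟩, rfl⟩, hfQ, ?_⟩
  change ι b / ι (β j) * ι (x i * ∏ j ∈ Finset.Icc 1 r, β j) =
    ι (x i * ∏ l ∈ Finset.Icc 1 r, Function.update β j b l)
  rw [Finset.prod_update_of_mem hj, ← Finset.mul_prod_erase _ _ hj, Finset.sdiff_singleton_eq_erase]
  simp only [map_mul]
  have := h2 j hj
  field_simp

/-- **Generation of the homogeneous local ring.** -/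
theorem OrderHyp.eq_top (R' : Subring F) (hR' : R' ≤ homLoc ℳ ι T Q)
    (hdom : ∀ a ∈ R', ∀ b ∈ homLoc ℳ ι T Q, a * b = 1 → b ∈ R')
    (hΛ : ∀ c ∈ Λ, ι c ∈ R') (hx : ∀ k, ι (x k) / ι (x i) ∈ R')
    (hB : ∀ j ∈ Finset.Icc 1 r, ∀ b ∈ B j, ι b / ι (β j) ∈ R') :
    ∀ z ∈ homLoc ℳ ι T Q, z ∈ R' := by
  classical
  obtain ⟨h1, h2⟩ := OrderHyp.chart_ne_zero ι hι Q hf hfQ
  obtain ⟨f, hfdef⟩ : ∃ f, f = x i * ∏ j ∈ Finset.Icc 1 r, β j := ⟨_, rfl⟩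
  obtain ⟨m, hm⟩ : ∃ m, m = δ * r + 1 := ⟨_, rfl⟩
  have hf0 : ι f ≠ 0 := by
    rw [hfdef]
    exact map_ne_zero_of_notMem ι T Q hι hfQ
  obtain ⟨γ, hγ⟩ : ∃ γ, γ = ι (∏ j ∈ Finset.Icc 1 r, ϖ ^ j) * ι (x i) := ⟨_, rfl⟩
  -- `γ ^ m` is divisible by `f`
  have hγm : ∃ ρ ∈ R', γ ^ m = ι f * ρ := by
    refine ⟨ι (∏ j ∈ Finset.Icc 1 r, ϖ ^ j) ^ (δ * r) *
      ∏ j ∈ Finset.Icc 1 r, ι (ϖ ^ j * x i ^ δ) / ι (β j), ?_, ?_⟩
    · refine R'.mul_mem (R'.pow_mem (hΛ _ (Λ.prod_mem fun j _ => Λ.pow_mem h.ϖΛ j)) _)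
        (R'.prod_mem fun j hj => hB j hj _ (h.B_pow j i))
    · have h3 : (∏ j ∈ Finset.Icc 1 r, ι (β j)) ≠ 0 := Finset.prod_ne_zero_iff.mpr h2
      rw [Finset.prod_div_distrib, hfdef, hγ, hm, map_mul, map_prod ι β]
      have h4 : ∏ j ∈ Finset.Icc 1 r, ι (ϖ ^ j * x i ^ δ) =
          ι (∏ j ∈ Finset.Icc 1 r, ϖ ^ j) * (ι (x i) ^ δ) ^ r := by
        rw [← map_prod, Finset.prod_mul_distrib, Finset.prod_const, Nat.card_Icc,
          Nat.add_sub_cancel]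
        simp only [map_mul, map_pow]
      rw [h4]
      field_simp
      ring
  obtain ⟨ρ₀, hρ₀, hρ₀2⟩ := hγm
  let N : ℕ → AddSubgroup M := fun i =>
    { carrier := {a | ∃ ρ ∈ R', ι a = γ ^ (i % m) * ι f ^ (i / m) * ρ}
      add_mem' := by
        rintro a b ⟨ρ, hρ, h3⟩ ⟨ρ', hρ', h4⟩
        exact ⟨ρ + ρ', R'.add_mem hρ hρ', by rw [map_add, h3, h4]; ring⟩
      zero_mem' := ⟨0, R'.zero_mem, by simp⟩
      neg_mem' := by
        rintro a ⟨ρ, hρ, h3⟩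
        exact ⟨-ρ, R'.neg_mem hρ, by rw [map_neg, h3]; ring⟩ }
  have hN1 : (1 : M) ∈ N 0 := ⟨1, R'.one_mem, by simp⟩
  have hNmul : ∀ k l a b, a ∈ N k → b ∈ N l → a * b ∈ N (k + l) := by
    rintro k l a b ⟨ρ, hρ, h3⟩ ⟨ρ', hρ', h4⟩
    have hm0 : 0 < m := by omega
    rcases Nat.lt_or_ge (k % m + l % m) m with hlt | hge
    · refine ⟨ρ * ρ', R'.mul_mem hρ hρ', ?_⟩
      have e1 : (k + l) % m = k % m + l % m := by rw [Nat.add_mod, Nat.mod_eq_of_lt hlt]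
      have e2 : (k + l) / m = k / m + l / m := Nat.add_div_eq_of_add_mod_lt hlt
      rw [e1, e2, map_mul, h3, h4, pow_add, pow_add]
      ring
    · refine ⟨ρ₀ * (ρ * ρ'), R'.mul_mem hρ₀ (R'.mul_mem hρ hρ'), ?_⟩
      have e2 : (k + l) / m = k / m + l / m + 1 := Nat.add_div_eq_of_le_mod_add_mod hge hm0
      have e1 : k % m + l % m = (k + l) % m + m := by
        have a1 := Nat.div_add_mod (k + l) m
        have a2 := Nat.div_add_mod k m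
        have a3 := Nat.div_add_mod l m
        rw [e2] at a1
        have : m * (k / m + l / m + 1) = m * (k / m) + m * (l / m) + m := by ring
        omega
      have e3 : γ ^ (k % m) * γ ^ (l % m) = γ ^ ((k + l) % m) * (ι f * ρ₀) := by
        rw [← pow_add, e1, pow_add, hρ₀2]
      rw [e2, map_mul, h3, h4, pow_succ, pow_add]
      linear_combination (ι f ^ (k / m) * ι f ^ (l / m) * ρ * ρ') * e3
  have hT : ∀ t ∈ T, t ∈ gradedSub ℳ N hN1 hNmul := by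
    refine h.gen _ ?_ ?_ ?_
    · intro c hc
      refine mem_gradedSub_of_mem ℳ (h.Λdeg c hc) ⟨ι c, hΛ c hc, by simp⟩
    · intro c hc
      refine mem_gradedSub_of_mem ℳ (h.W_deg hc) ?_
      obtain ⟨k, q, ⟨β', hβ', rfl⟩, rfl⟩ := hc
      refine ⟨ι (x k) / ι (x i) * ∏ j ∈ Finset.Icc 1 r, ι (β' j) / ι (β j),
        R'.mul_mem (hx k) (R'.prod_mem fun j hj => hB j hj _ (hβ' j hj)), ?_⟩
      rw [← hm, Nat.mod_self, Nat.div_self (by omega), pow_zero, pow_one, one_mul, hfdef,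
        Finset.prod_div_distrib, map_mul, map_mul, map_prod, map_prod]
      have h3 : (∏ j ∈ Finset.Icc 1 r, ι (β j)) ≠ 0 := Finset.prod_ne_zero_iff.mpr h2
      field_simp
    · intro c hc
      refine mem_gradedSub_of_mem ℳ (h.W1_deg hc) ?_
      obtain ⟨k, rfl⟩ := hc
      refine ⟨ι (x k) / ι (x i), hx k, ?_⟩
      rcases Nat.eq_zero_or_pos r with hr | hr
      · subst hr
        have : m = 1 := hm
        subst this
        rw [hfdef]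
        simp only [Finset.Icc_eq_empty_of_lt zero_lt_one, Finset.prod_empty, mul_one, one_mul,
          Nat.mod_one, Nat.div_one, pow_zero, pow_one]
        field_simp
      · have hδr : 0 < δ * r := Nat.mul_pos h.δpos hr
        rw [Nat.mod_eq_of_lt (by omega), Nat.div_eq_of_lt (by omega), pow_one, pow_zero, mul_one,
          hγ, map_mul]
        field_simp
  rintro z ⟨n, a, s, ha, hs, hsQ, hz⟩
  have hs0 := map_ne_zero_of_notMem ι T Q hι hsQ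
  have hsm : ((s : M) ^ m) ∈ ℳ (m * n) := SetLike.pow_mem_graded m hs
  have ham : ((a : M) * s ^ (δ * r)) ∈ ℳ (m * n) := by
    have := SetLike.mul_mem_graded ha (SetLike.pow_mem_graded (δ * r) hs)
    rw [hm, show (δ * r + 1) * n = n + (δ * r) • n by rw [smul_eq_mul]; ring]
    exact this
  obtain ⟨ρ, hρ, h3⟩ := mem_of_mem_gradedSub ℳ hsm (hT _ (T.pow_mem s.2 m))
  obtain ⟨ρ', hρ', h4⟩ := mem_of_mem_gradedSub ℳ ham (hT _ (T.mul_mem a.2 (T.pow_mem s.2 _)))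
  rw [Nat.mul_mod_right, Nat.mul_div_cancel_left _ (by omega : 0 < m), pow_zero, one_mul] at h3 h4
  have hfn : ι f ^ n ≠ 0 := pow_ne_zero _ hf0
  have hρ0 : ρ ≠ 0 := by
    rintro rfl
    rw [mul_zero, map_pow] at h3
    exact pow_ne_zero _ hs0 h3
  have hρinv : ρ⁻¹ ∈ homLoc ℳ ι T Q := by
    refine ⟨m * n, ⟨f, hfdef ▸ hf⟩ ^ n, s ^ m, ?_, hsm, fun h => hsQ (hQ.mem_of_pow_mem m h), ?_⟩
    · rw [SubmonoidClass.coe_pow]
      have : f ∈ ℳ m := by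
        rw [hfdef, hm]
        exact h.W_deg ⟨i, _, ⟨β, hβ, rfl⟩, rfl⟩
      have := SetLike.pow_mem_graded n this
      rwa [smul_eq_mul, mul_comm] at this
    · rw [SubmonoidClass.coe_pow, SubmonoidClass.coe_pow, h3, map_pow]
      field_simp
  have h5 : z = ρ' * ρ⁻¹ := by
    rw [map_mul, ← hz, map_pow] at h4
    rw [map_pow, hm, pow_succ] at h3
    have h6 : z * (ι f ^ n * ρ) = ι f ^ n * ρ' := by
      rw [← h3, ← h4]
      ring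
    field_simp
    apply mul_left_cancel₀ hfn
    linear_combination h6
  rw [h5]
  exact R'.mul_mem hρ' (hdom ρ hρ _ hρinv (mul_inv_cancel₀ hρ0))

end Chart

end Order

end Pool.Agent.Lib.MP_6a3dac_ag.Dens
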