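import Pool.Agent.Lib.MP_6a3dac_ag.Dens.Dehom
import Pool.Agent.Lib.MP_6a3dac_ag.Dens.LocalD
import Pool.Agent.Lib.MP_6a3dac_ag.Dens.Order
import Pool.Agent.Lib.MP_6a3dac_ag.Mg.G002

/-!
# The local rings of the blow-up of a hypersurface
-/

set_option autoImplicit false
set_option linter.unusedSectionVars false

namespace Pool.Agent.Lib.MP_6a3dac_ag.Dens

open MvPolynomial IsLocalRing

section

variable {A : Type} [CommRing A] [IsDomain A] [Algebra ℚ A] (𝒜 : ℕ → Submodule ℚ A)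
  [GradedAlgebra 𝒜] {n : ℕ} (π : MvPolynomial (Fin (n + 1)) ℤ →+* A)
  (f : MvPolynomial (Fin (n + 1)) ℤ) (d : ℕ)

/-- The homogeneous coordinate ring of a hypersurface. -/
structure HypData : Prop where
  deg : ∀ q e, q.IsHomogeneous e → π q ∈ 𝒜 e
  hf : f.IsHomogeneous d
  zero : π f = 0
  ker : ∀ g, π g = 0 → ∃ m : ℤ, m ≠ 0 ∧ ∃ q, C m * g = f * q
  gen : Algebra.adjoin ℚ (Set.range fun k => π (X k)) = ⊤

/-- The generators of the `j`-th ideal. -/
def bset (p : ℕ) (j : ℕ) : Set A :=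
  {b | (∃ k, b = (p : A) ^ j * π (X k) ^ (d - 1)) ∨ ∃ l, b = π (pderiv l f)}

omit [IsDomain A] [Algebra ℚ A] in
theorem finite_bset (p j : ℕ) : (bset π f d p j).Finite := by
  refine ((Set.finite_range fun k => (p : A) ^ j * π (X k) ^ (d - 1)).union
    (Set.finite_range fun l => π (pderiv l f))).subset ?_
  rintro b (⟨k, rfl⟩ | ⟨l, rfl⟩)
  · exact Or.inl ⟨k, rfl⟩
  · exact Or.inr ⟨l, rfl⟩

variable (A) in
/-- The localization of `ℤ` at `p`, inside `A`. -/
def lamZ (p : ℕ) [hp : Fact p.Prime] : Subring A where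
  carrier := {m | ∃ a c : ℤ, ¬ (p : ℤ) ∣ a ∧ (a : A) * m = c}
  mul_mem' := by
    rintro m m' ⟨a, c, ha, h⟩ ⟨a', c', ha', h'⟩
    refine ⟨a * a', c * c', fun hd => ?_, ?_⟩
    · exact ((Nat.prime_iff_prime_int.mp hp.out).dvd_or_dvd hd).elim ha ha'
    · push_cast
      rw [← h, ← h']
      ring
  one_mem' := ⟨1, 1, fun h => (Nat.prime_iff_prime_int.mp hp.out).not_isUnit
    (isUnit_of_dvd_one h), by simp⟩
  add_mem' := by
    rintro m m' ⟨a, c, ha, h⟩ ⟨a', c', ha', h'⟩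
    refine ⟨a * a', c * a' + a * c', fun hd => ?_, ?_⟩
    · exact ((Nat.prime_iff_prime_int.mp hp.out).dvd_or_dvd hd).elim ha ha'
    · push_cast
      rw [← h, ← h']
      ring
  zero_mem' := ⟨1, 0, fun h => (Nat.prime_iff_prime_int.mp hp.out).not_isUnit
    (isUnit_of_dvd_one h), by simp⟩
  neg_mem' := by
    rintro m ⟨a, c, ha, h⟩
    exact ⟨a, -c, ha, by push_cast; rw [← h]; ring⟩

variable {π f d}

/-- An integer which is not divisible by `p` is invertible in `lamZ A p`. -/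
theorem exists_inv_lamZ (p : ℕ) [hp : Fact p.Prime] {a : ℤ} (ha : ¬ (p : ℤ) ∣ a) :
    ∃ m ∈ lamZ A p, (a : A) * m = 1 := by
  have ha0 : (a : ℚ) ≠ 0 := by
    intro h
    apply ha
    have : a = 0 := by exact_mod_cast h
    rw [this]
    exact dvd_zero _
  have h1 : (a : A) * algebraMap ℚ A (a : ℚ)⁻¹ = 1 := by
    have h2 : (a : A) = algebraMap ℚ A (a : ℚ) := by simp
    rw [h2, ← map_mul, mul_inv_cancel₀ ha0, map_one]
  exact ⟨_, ⟨a, 1, ha, by rw [h1]; simp⟩, h1⟩

theorem lamZ_deg (p : ℕ) [hp : Fact p.Prime] {m : A} (hm : m ∈ lamZ A p) : m ∈ 𝒜 0 := by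
  obtain ⟨a, c, ha, h⟩ := hm
  obtain ⟨b, -, hb⟩ := exists_inv_lamZ (A := A) p ha
  have ha0 : (a : ℚ) ≠ 0 := by
    intro h
    apply ha
    have : a = 0 := by exact_mod_cast h
    rw [this]
    exact dvd_zero _
  have h1 : m = algebraMap ℚ A ((a : ℚ)⁻¹ * c) := by
    have h2 : (a : A) * algebraMap ℚ A (a : ℚ)⁻¹ = 1 := by
      have h3 : (a : A) = algebraMap ℚ A (a : ℚ) := by simp
      rw [h3, ← map_mul, mul_inv_cancel₀ ha0, map_one]
    have h3 : (c : A) = algebraMap ℚ A (c : ℚ) := by simp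
    rw [map_mul, ← h3, ← h]
    calc m = ((a : A) * algebraMap ℚ A (a : ℚ)⁻¹) * m := by rw [h2, one_mul]
      _ = _ := by ring
  rw [h1]
  exact SetLike.algebraMap_mem_graded 𝒜 _

variable {𝒜} (h : HypData 𝒜 π f d) (hd : 2 ≤ d)
include h hd

theorem HypData.orderHyp (p : ℕ) [hp : Fact p.Prime] (P : Ideal ℤ) [P.IsPrime]
    (hP : ∀ a : ℤ, a ∈ P ↔ (p : ℤ) ∣ a) (r : ℕ) :
    OrderHyp 𝒜 (fun k => π (X k)) (bset π f d p) (d - 1) (p : A) (lamZ A p) r
      (locSub P (Algebra.adjoin ℤ (WSet (fun k => π (X k)) (bset π f d p) r ∪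
        W1Set (fun k => π (X k)) (p : A) r))) := by
  have hp0 : (p : A) ∈ 𝒜 0 := by
    have h1 : (p : A) = algebraMap ℚ A (p : ℚ) := by simp
    rw [h1]
    exact SetLike.algebraMap_mem_graded 𝒜 _
  have hpow : ∀ j, (p : A) ^ j ∈ 𝒜 0 := fun j => by
    simpa using SetLike.pow_mem_graded j hp0
  have hx : ∀ k, π (X k) ∈ 𝒜 1 := fun k => h.deg _ _ (isHomogeneous_X ℤ k)
  have hB : ∀ j, ∀ b ∈ bset π f d p j, b ∈ 𝒜 (d - 1) := by
    rintro j b (⟨k, rfl⟩ | ⟨l, rfl⟩)
    · have h1 := SetLike.mul_mem_graded (hpow j) (SetLike.pow_mem_graded (d - 1) (hx k))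
      simpa using h1
    · exact h.deg _ _ h.hf.pderiv
  have hadj : IsHomog 𝒜 (Algebra.adjoin ℤ (WSet (fun k => π (X k)) (bset π f d p) r ∪
        W1Set (fun k => π (X k)) (p : A) r)) := by
    apply isHomog_adjoin 𝒜
    rintro w (⟨i, q, ⟨β, hβ, rfl⟩, rfl⟩ | ⟨i, rfl⟩)
    · exact ⟨1 + ∑ j ∈ Finset.Icc 1 r, (d - 1), SetLike.mul_mem_graded (hx i)
        (SetLike.prod_mem_graded (A := 𝒜) (fun _ => d - 1) _ fun j hj => hB j _ (hβ j hj))⟩
    · exact ⟨(∑ j ∈ Finset.Icc 1 r, 0) + 1, SetLike.mul_mem_graded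
        (SetLike.prod_mem_graded (A := 𝒜) (fun _ => 0) _ fun j _ => hpow j) (hx i)⟩
  exact
    { xdeg := hx
      δpos := by omega
      B_deg := hB
      B_pow := fun j k => Or.inl ⟨k, rfl⟩
      Λdeg := fun c hc => lamZ_deg 𝒜 p hc
      ϖΛ := ⟨1, p, fun h => (Nat.prime_iff_prime_int.mp hp.out).not_isUnit
        (isUnit_of_dvd_one h), by simp⟩
      hom := isHomog_locSub 𝒜 P hadj
      Λ_le := by
        rintro m ⟨a, c, ha, hm⟩
        refine ⟨a, fun h => ha ((hP a).mp h), ?_⟩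
        rw [zsmul_eq_mul, hm]
        exact (Algebra.adjoin ℤ _).algebraMap_mem c
      W_le := fun c hc => le_locSub _ _ (Algebra.subset_adjoin (Or.inl hc))
      W1_le := fun c hc => le_locSub _ _ (Algebra.subset_adjoin (Or.inr hc))
      gen := by
        intro N hN1 hN2 hN3 t ht
        obtain ⟨a, ha, hat⟩ := ht
        have hcast : ∀ c : ℤ, (c : A) ∈ N := fun c => hN1 _ ⟨1, c, fun h =>
          (Nat.prime_iff_prime_int.mp hp.out).not_isUnit (isUnit_of_dvd_one h), by simp⟩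
        have hadjN : ∀ m ∈ Algebra.adjoin ℤ (WSet (fun k => π (X k)) (bset π f d p) r ∪
            W1Set (fun k => π (X k)) (p : A) r), m ∈ N := by
          intro m hm
          induction hm using Algebra.adjoin_induction with
          | mem m hm =>
            rcases hm with hm | hm
            · exact hN2 _ hm
            · exact hN3 _ hm
          | algebraMap a => exact hcast a
          | add a b _ _ ha hb => exact N.add_mem ha hb
          | mul a b _ _ ha hb => exact N.mul_mem ha hb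
        obtain ⟨b, hb, hab⟩ := exists_inv_lamZ (A := A) p (a := a) (fun h => ha ((hP a).mpr h))
        have h1 : t = b * (a • t) := by
          rw [zsmul_eq_mul, ← mul_assoc, mul_comm b, hab, one_mul]
        rw [h1]
        exact N.mul_mem (hN1 _ hb) (hadjN _ hat) }

/-- **The local rings are regular.** -/
theorem HypData.main {F : Type} [Field F] (ι : A →+* F) (hι : Function.Injective ι)
    (p : ℕ) [hp : Fact p.Prime] (P : Ideal ℤ) [P.IsPrime]
    (hP : ∀ a : ℤ, a ∈ P ↔ (p : ℤ) ∣ a) (r : ℕ) {T : Subalgebra ℤ A}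
    (hT : T = locSub P (Algebra.adjoin ℤ (WSet (fun k => π (X k)) (bset π f d p) r ∪
        W1Set (fun k => π (X k)) (p : A) r)))
    (hsing : r = 0 ∨ (p ≠ 2 ∧ ∀ i, NondegAt p (dehom i f)))
    {m : ℤ} (hm : ¬ (p : ℤ) ∣ m)
    (hr : ∀ i, ∃ (c₀ : MvPolynomial {l : Fin (n + 1) // l ≠ i} ℤ)
      (c : {l : Fin (n + 1) // l ≠ i} → MvPolynomial {l : Fin (n + 1) // l ≠ i} ℤ),
      C m * C (p : ℤ) ^ r = c₀ * dehom i f + ∑ l, c l * pderiv l (dehom i f))
    (Q : Ideal T) (hQ : Q.IsPrime)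
    (hrel : ∃ k, 0 < k ∧ ∃ t : T, (t : A) ∈ 𝒜 k ∧ t ∉ Q) :
    IsRegularLocalRing (homLoc 𝒜 ι T Q) := by
  classical
  have hO : OrderHyp 𝒜 (fun k => π (X k)) (bset π f d p) (d - 1) (p : A) (lamZ A p) r T := by
    rw [hT]; exact h.orderHyp hd p P hP r
  obtain ⟨i, β, hβ, hf, hfQ⟩ := hO.exists_notMem Q hrel
  have hloc := isLocalRing_homLoc 𝒜 ι T Q hι
  obtain ⟨D, hD⟩ : ∃ D, D = homLoc 𝒜 ι T Q := ⟨_, rfl⟩
  have hlocD : IsLocalRing D := hD ▸ hloc
  have hΛD : ∀ c ∈ lamZ A p, ι c ∈ D := fun c hc => hD ▸ hO.const_mem ι hι Q hβ hf hfQ hc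
  obtain ⟨hx0, hβ0⟩ := OrderHyp.chart_ne_zero (x := fun k => π (X k)) ι hι Q hf hfQ
  change ι (π (X i)) ≠ 0 at hx0
  have hcoord : ∀ k, ι (π (X k)) / ι (π (X i)) ∈ D := fun k =>
    hD ▸ hO.coord_mem ι hι Q hβ hf hfQ k
  have hratio : ∀ j ∈ Finset.Icc 1 r, ∀ b ∈ bset π f d p j, ι b / ι (β j) ∈ D := fun j hj b hb =>
    hD ▸ hO.ratio_mem ι hι Q hβ hf hfQ hj hb
  -- characteristic zero
  have hchar : ∀ a : ℤ, a ≠ 0 → (a : F) ≠ 0 := by
    intro a ha h0
    have h1 : ι (a : A) = 0 := by rw [map_intCast, h0]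
    have h2 : (a : A) = 0 := hι (by rw [h1, map_zero])
    have h3 : algebraMap ℚ A (a : ℚ) = 0 := by simpa using h2
    rw [map_eq_zero] at h3
    exact ha (by exact_mod_cast h3)
  -- the evaluation maps
  let ψ : MvPolynomial (Fin (n + 1)) ℤ →+* F := eval₂Hom (Int.castRingHom F)
    fun k => ι (π (X k)) / ι (π (X i))
  let φ : MvPolynomial {l : Fin (n + 1) // l ≠ i} ℤ →+* D := eval₂Hom (Int.castRingHom D)
    fun l => ⟨ι (π (X l.1)) / ι (π (X i)), hcoord l.1⟩
  have hφψ : ∀ q, ((φ (dehom i q) : D) : F) = ψ q := by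
    intro q
    have h1 : (D.subtype.comp φ).comp (dehom i : _ →ₐ[ℤ] _).toRingHom = ψ := by
      apply MvPolynomial.ringHom_ext
      · intro a
        change D.subtype (φ (dehom i (C a))) = ψ (C a)
        rw [dehom_C]
        simp [φ, ψ]
      · intro k
        change D.subtype (φ (dehom i (X k))) = ψ (X k)
        by_cases hk : k = i
        · subst hk
          rw [dehom_X_self, map_one, map_one]
          simp only [ψ, coe_eval₂Hom, eval₂_X]
          rw [div_self hx0]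
        · rw [show k = (⟨k, hk⟩ : {l : Fin (n + 1) // l ≠ i}).1 from rfl, dehom_X]
          simp only [φ, ψ, coe_eval₂Hom, eval₂_X]
          rfl
    exact congrArg (fun g : MvPolynomial (Fin (n + 1)) ℤ →+* F => g q) h1
  have hψhom : ∀ (e : ℕ) (q : MvPolynomial (Fin (n + 1)) ℤ), q.IsHomogeneous e →
      ι (π q) = ι (π (X i)) ^ e * ψ q := by
    intro e q hq
    have h1 : ι (π q) = eval₂ (Int.castRingHom F) (fun k => ι (π (X k))) q := by
      have h2 : ι.comp π = eval₂Hom (Int.castRingHom F) (fun k => ι (π (X k))) := by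
        apply MvPolynomial.ringHom_ext
        · intro a
          simp only [RingHom.comp_apply, coe_eval₂Hom, eval₂_C]
          exact eq_intCast ((ι.comp π).comp C) a
        · intro k
          simp only [RingHom.comp_apply, coe_eval₂Hom, eval₂_X]
      exact congrArg (fun g : MvPolynomial (Fin (n + 1)) ℤ →+* F => g q) h2
    rw [h1]
    change _ = ι (π (X i)) ^ e * eval₂ (Int.castRingHom F)
      (fun k => ι (π (X k)) / ι (π (X i))) q
    rw [eval₂_eq, eval₂_eq, Finset.mul_sum]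
    refine Finset.sum_congr rfl fun s hs => ?_
    have h3 : s.degree = e := by
      have := hq (mem_support_iff.mp hs)
      rw [← this, Finsupp.degree_eq_weight_one]
      rfl
    have h4 : ∏ k ∈ s.support, (ι (π (X k)) / ι (π (X i))) ^ s k =
        (∏ k ∈ s.support, ι (π (X k)) ^ s k) / ι (π (X i)) ^ e := by
      rw [← h3, Finsupp.degree_apply, ← Finset.prod_pow_eq_pow_sum, ← Finset.prod_div_distrib]
      refine Finset.prod_congr rfl fun k _ => ?_
      rw [div_pow]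
    rw [h4]
    field_simp
  have hφf : φ (dehom i f) = 0 := by
    apply Subtype.ext
    rw [hφψ]
    have h1 := hψhom d f h.hf
    rw [h.zero, map_zero] at h1
    exact (mul_eq_zero.mp h1.symm).resolve_left (pow_ne_zero _ hx0)
  have hker : ∀ g, φ g = 0 → ∃ m : ℤ, m ≠ 0 ∧ ∃ q, C m * g = dehom i f * q := by
    intro g hg
    obtain ⟨N, G, hG, rfl⟩ := exists_homog i g
    have h1 := hψhom N G hG
    rw [← hφψ, hg] at h1
    have h2 : π G = 0 := by
      apply hι
      rw [h1, map_zero]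
      exact mul_zero _
    obtain ⟨m, hm, q, hq⟩ := h.ker G h2
    refine ⟨m, hm, dehom i q, ?_⟩
    rw [← dehom_C i, ← map_mul, hq, map_mul]
  have hunit : ∀ a : ℤ, ¬ (p : ℤ) ∣ a → IsUnit (a : D) := by
    intro a ha
    obtain ⟨b, hb, hab⟩ := exists_inv_lamZ (A := A) p ha
    refine IsUnit.of_mul_eq_one ⟨ι b, hΛD b hb⟩ (Subtype.ext ?_)
    change ((a : D) : F) * ι b = 1
    have h1 : ((a : D) : F) = ι (a : A) := by simp
    rw [h1, ← map_mul, hab, map_one]
  have hpD : ((p : D) : F) = ι (p : A) := by simp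
  -- the ideal
  obtain ⟨Z, hZ⟩ : ∃ Z : Finset D, Z = Finset.univ.image fun l => φ (pderiv l (dehom i f)) :=
    ⟨_, rfl⟩
  have hZmem : ∀ z, z ∈ Z ↔ ∃ l, φ (pderiv l (dehom i f)) = z := by
    intro z
    rw [hZ]
    simp
  have hφloc : ∀ g, φ g ∈ locIn φ := map_mem_locIn φ
  have hB : ∀ j, ∀ b ∈ bset π f d p j, ∃ y : D, (y : F) = ι b / ι (π (X i)) ^ (d - 1) ∧
      InJ (locIn φ) (p : D) Z j y := by
    rintro j b (⟨k, rfl⟩ | ⟨l, rfl⟩)
    · refine ⟨φ (dehom i (X k)) ^ (d - 1) * (p : D) ^ j, ?_,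
        (inJ_pow _ _ _ _).mono_subset _ (Subring.pow_mem _ (hφloc _) _)⟩
      rw [Subring.coe_mul, Subring.coe_pow, Subring.coe_pow, hφψ, hpD, map_mul, map_pow, map_pow]
      simp only [ψ, coe_eval₂Hom, eval₂_X]
      rw [div_pow]
      ring
    · refine ⟨φ (dehom i (pderiv l f)), ?_, ?_⟩
      · rw [hφψ, hψhom (d - 1) _ h.hf.pderiv]
        field_simp
      · by_cases hl : l = i
        · subst hl
          rw [euler_dehom l h.hf, map_sub, map_mul, hφf, mul_zero, zero_sub, map_sum,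
            ← Finset.sum_neg_distrib]
          have key : ∀ s : Finset {k : Fin (n + 1) // k ≠ l},
              InJ (locIn φ) (p : D) Z j (∑ k ∈ s, -φ (X k * pderiv k (dehom l f))) := by
            intro s
            induction s using Finset.induction_on with
            | empty =>
              rw [Finset.sum_empty]
              exact ⟨0, Subring.zero_mem _, fun _ => 0, fun _ _ => Subring.zero_mem _, by simp⟩
            | insert a s ha ih =>
              rw [Finset.sum_insert ha]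
              refine InJ.add ?_ ih
              rw [map_mul, ← neg_mul]
              exact (inJ_of_mem _ _ _ ((hZmem _).mpr ⟨a, rfl⟩)).mono_subset _
                (Subring.neg_mem _ (hφloc _))
          exact key Finset.univ
        · rw [← pderiv_dehom i ⟨l, hl⟩]
          exact inJ_of_mem _ _ _ ((hZmem _).mpr ⟨_, rfl⟩)
  choose! bG hbG1 hbG2 using fun j (hj : j ∈ Finset.Icc 1 r) => hB j (β j) (hβ j hj)
  have hx1 : ι (π (X i)) ^ (d - 1) ≠ 0 := pow_ne_zero _ hx0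
  subst hD
  obtain ⟨c₀, c, hc⟩ := hr i
  refine isRegularLocalRing_local φ (F := dehom i f) hp.out hφf hker ?_ hunit (r := r)
    (hsing.imp id fun h1 => ⟨h1.1, h1.2 i⟩) hm hc hZmem bG ?_ ?_
  · intro a ha h0
    apply hchar a ha
    have := congrArg (fun z : homLoc 𝒜 ι T Q => (z : F)) h0
    simpa using this
  · intro j hj1 hj2
    have hj : j ∈ Finset.Icc 1 r := Finset.mem_Icc.mpr ⟨hj1, hj2⟩
    have hb0 := hβ0 j hj
    refine ⟨?_, hbG2 j hj, ?_, ?_⟩
    · intro h0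
      have h1 := congrArg (fun z : homLoc 𝒜 ι T Q => (z : F)) h0
      change (bG j : F) = 0 at h1
      rw [hbG1 j hj, div_eq_zero_iff] at h1
      rcases h1 with h1 | h1
      · exact hb0 h1
      · exact hx1 h1
    · refine ⟨⟨_, hratio j hj ((p : A) ^ j * π (X i) ^ (d - 1)) (Or.inl ⟨i, rfl⟩)⟩,
        Subtype.ext ?_⟩
      have e : ι ((p : A) ^ j * π (X i) ^ (d - 1)) = ι (p : A) ^ j * ι (π (X i)) ^ (d - 1) := by
        rw [map_mul, map_pow, map_pow]
      rw [Subring.coe_mul, Subring.coe_pow, hpD, hbG1 j hj]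
      change ι (p : A) ^ j = ι (β j) / ι (π (X i)) ^ (d - 1) *
        (ι ((p : A) ^ j * π (X i) ^ (d - 1)) / ι (β j))
      rw [e]
      field_simp
    · intro z hz
      obtain ⟨l, rfl⟩ := (hZmem z).mp hz
      refine ⟨⟨_, hratio j hj (π (pderiv l.1 f)) (Or.inr ⟨l.1, rfl⟩)⟩, Subtype.ext ?_⟩
      have e := hψhom (d - 1) _ (h.hf.pderiv (i := l.1))
      rw [Subring.coe_mul, hbG1 j hj, pderiv_dehom, hφψ]
      change ψ (pderiv l.1 f) = ι (β j) / ι (π (X i)) ^ (d - 1) *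
        (ι (π (pderiv l.1 f)) / ι (β j))
      rw [e]
      field_simp
  · intro R' hdom hRle hRJ
    rw [eq_top_iff]
    rintro ⟨z, hz⟩ -
    have h4 := hO.eq_top ι hι Q hβ hf hfQ (R'.map (homLoc 𝒜 ι T Q).subtype) ?_ ?_ ?_ ?_ ?_ z hz
    · obtain ⟨w, hw, hwz⟩ := h4
      have : w = ⟨z, hz⟩ := Subtype.ext hwz
      rwa [← this]
    · rintro _ ⟨w, -, rfl⟩
      exact w.2
    · rintro _ ⟨a, ha, rfl⟩ b hb hab
      exact ⟨⟨b, hb⟩, hdom a ha ⟨b, hb⟩ (Subtype.ext hab), rfl⟩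
    · intro m hm
      refine ⟨⟨ι m, hΛD m hm⟩, hRle ?_, rfl⟩
      obtain ⟨a, c, ha, hac⟩ := hm
      refine ⟨C c, C a, ?_, Subtype.ext ?_⟩
      · have h1 : φ (C a) = a := eq_intCast (φ.comp C) a
        rw [h1]
        exact hunit a ha
      · have h1 : φ (C a) = a := eq_intCast (φ.comp C) a
        have h2 : φ (C c) = c := eq_intCast (φ.comp C) c
        rw [Subring.coe_mul, h1, h2]
        change ι m * ((a : homLoc 𝒜 ι T Q) : F) = ((c : homLoc 𝒜 ι T Q) : F)
        have h3 : ((a : homLoc 𝒜 ι T Q) : F) = ι (a : A) := by simp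
        have h4 : ((c : homLoc 𝒜 ι T Q) : F) = ι (c : A) := by simp
        rw [h3, h4, ← map_mul, mul_comm, hac]
    · intro k
      refine ⟨φ (dehom i (X k)), hRle (hφloc _), ?_⟩
      change ((φ (dehom i (X k)) : homLoc 𝒜 ι T Q) : F) = _
      rw [hφψ]
      simp only [ψ, coe_eval₂Hom, eval₂_X]
    · intro j hj b hb
      obtain ⟨y, hy1, hy2⟩ := hB j b hb
      refine ⟨⟨_, hratio j hj b hb⟩, ?_, rfl⟩
      have hj' := Finset.mem_Icc.mp hj
      refine hRJ j hj'.1 hj'.2 y hy2 _ (Subtype.ext ?_)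
      have hb0 := hβ0 j hj
      rw [Subring.coe_mul, hbG1 j hj, hy1]
      change ι (β j) / ι (π (X i)) ^ (d - 1) * (ι b / ι (β j)) = _
      field_simp

end

end Pool.Agent.Lib.MP_6a3dac_ag.Dens
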