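import Pool.Agent.Lib.MP_6a3dac_ag.Dens.MainD
import Pool.Agent.Lib.MP_6a3dac_ag.Mg.G028
import Pool.Agent.Lib.MP_6a3dac_ag.QWPresSch
import Pool.Agent.Lib.MP_6a3dac_ag.ModelExist

/-!
# Regular models of hypersurfaces with nondegenerate double points
-/

set_option autoImplicit false
set_option linter.unusedSectionVars false

namespace Pool.Agent.Lib.MP_6a3dac_ag.Dens

open MvPolynomial IsLocalRing IsDedekindDomain CategoryTheory Limits AlgebraicGeometry

theorem exists_nat_prime (P : HeightOneSpectrum ℤ) :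
    ∃ p : ℕ, p.Prime ∧ ∀ a : ℤ, a ∈ P.asIdeal ↔ (p : ℤ) ∣ a := by
  obtain ⟨g, hg⟩ := (IsPrincipalIdealRing.principal P.asIdeal).principal
  have hg' : P.asIdeal = Ideal.span {g} := hg
  have hg0 : g ≠ 0 := by
    rintro rfl
    apply P.ne_bot
    rw [hg']
    simp
  have hp : Prime g := by
    rw [← Ideal.span_singleton_prime hg0, ← hg']
    exact P.isPrime
  refine ⟨g.natAbs, Int.prime_iff_natAbs_prime.mp hp, fun a => ?_⟩
  rw [hg', Ideal.mem_span_singleton, Int.natAbs_dvd]

section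

variable {M I : Type} [CommRing M] {x : I → M} {B : ℕ → Set M} {ϖ : M}

theorem WSet_zero : WSet x B 0 = Set.range x := by
  ext w
  constructor
  · rintro ⟨i, q, ⟨β, -, rfl⟩, rfl⟩
    exact ⟨i, by simp⟩
  · rintro ⟨i, rfl⟩
    exact ⟨i, 1, ⟨fun _ => 0, by simp, by simp⟩, by simp⟩

theorem W1Set_zero : W1Set x ϖ 0 = Set.range x := by
  ext w
  constructor
  · rintro ⟨i, rfl⟩
    exact ⟨i, by simp⟩
  · rintro ⟨i, rfl⟩
    exact ⟨i, by simp⟩

end

section

variable {A : Type} [CommRing A] [IsDomain A] [Algebra ℚ A] {𝒜 : ℕ → Submodule ℚ A}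
  [GradedAlgebra 𝒜] {n : ℕ} {π : MvPolynomial (Fin (n + 1)) ℤ →+* A}
  {f : MvPolynomial (Fin (n + 1)) ℤ} {d : ℕ} (h : HypData 𝒜 π f d)
include h

/-- The algebra is spanned by the order. -/
theorem HypData.full {p : ℕ} (hp : p ≠ 0) (r : ℕ) (a : A) : ∃ c : ℤ, c ≠ 0 ∧
    c • a ∈ Algebra.adjoin ℤ (WSet (fun k => π (X k)) (bset π f d p) r ∪
        W1Set (fun k => π (X k)) (p : A) r) := by
  have hU : ∀ a : A, a ∈ locSub (⊥ : Ideal ℤ) (Algebra.adjoin ℤ
      (WSet (fun k => π (X k)) (bset π f d p) r ∪ W1Set (fun k => π (X k)) (p : A) r)) := by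
    intro a
    have ha : a ∈ Algebra.adjoin ℚ (Set.range fun k => π (X k)) := by
      rw [h.gen]; exact Algebra.mem_top
    induction ha using Algebra.adjoin_induction with
    | mem m hm =>
      obtain ⟨i, rfl⟩ := hm
      refine mem_locSub_of_smul _ _ (r := ∏ j ∈ Finset.Icc 1 r, (p : ℤ) ^ j) ?_ ?_
      · rw [Ideal.mem_bot]
        exact Finset.prod_ne_zero_iff.mpr fun j _ => pow_ne_zero _ (by exact_mod_cast hp)
      · refine le_locSub _ _ (Algebra.subset_adjoin (Or.inr ⟨i, ?_⟩))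
        rw [zsmul_eq_mul]
        push_cast
        rfl
    | algebraMap l =>
      refine mem_locSub_of_smul _ _ (r := (l.den : ℤ)) ?_ ?_
      · rw [Ideal.mem_bot]
        exact_mod_cast l.den_nz
      · have h1 : (l.den : ℤ) • algebraMap ℚ A l = algebraMap ℤ A l.num := by
          rw [zsmul_eq_mul]
          have h2 : (((l.den : ℤ)) : A) = algebraMap ℚ A (l.den : ℚ) := by simp
          have h3 : algebraMap ℤ A l.num = algebraMap ℚ A (l.num : ℚ) := by simp
          rw [h2, h3, ← map_mul, mul_comm, Rat.mul_den_eq_num]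
        rw [h1]
        exact Subalgebra.algebraMap_mem _ _
    | add a b _ _ ha hb => exact Subalgebra.add_mem _ ha hb
    | mul a b _ _ ha hb => exact Subalgebra.mul_mem _ ha hb
  obtain ⟨c, hc, hca⟩ := hU a
  exact ⟨c, by simpa using hc, hca⟩

/-- **Regular models of hypersurfaces.** -/
theorem HypData.exists_model (hd : 2 ≤ d) {m : ℤ} (hm : m ≠ 0) {K : ℕ}
    (hmK : ∀ i, C m * X i ^ K ∈ Ideal.span (insert f (Set.range fun l => pderiv l f)))
    (hsing : ∀ p : ℕ, p.Prime → (p : ℤ) ∣ m → p ≠ 2 ∧ ∀ i, NondegAt p (dehom i f)) :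
    ∃ (Y : Scheme.{0}) (g : Y ⟶ Spec (CommRingCat.of ℤ)),
      IsProper g ∧ Flat g ∧ (∀ y : Y, IsRegularLocalRing (Y.presheaf.stalk y)) ∧
      ∃ e : pullback g (Spec.map (CommRingCat.ofHom (algebraMap ℤ ℚ))) ≅ Proj 𝒜,
        e.hom ≫ projTo ℚ 𝒜 =
          pullback.snd g (Spec.map (CommRingCat.ofHom (algebraMap ℤ ℚ))) := by
  classical
  choose pr hpr1 hpr2 using exists_nat_prime
  let rr : HeightOneSpectrum ℤ → ℕ := fun P => padicValInt (pr P) m
  have hx : ∀ k, π (X k) ∈ 𝒜 1 := fun k => h.deg _ _ (isHomogeneous_X ℤ k)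
  have hO : ∀ P : HeightOneSpectrum ℤ, OrderHyp 𝒜 (fun k => π (X k)) (bset π f d (pr P)) (d - 1)
      ((pr P : ℕ) : A) (haveI := Fact.mk (hpr1 P); lamZ A (pr P)) (rr P)
      (locSub P.asIdeal (Algebra.adjoin ℤ (WSet (fun k => π (X k)) (bset π f d (pr P)) (rr P) ∪
        W1Set (fun k => π (X k)) (pr P : A) (rr P)))) := fun P =>
    haveI := Fact.mk (hpr1 P)
    h.orderHyp hd (pr P) P.asIdeal (hpr2 P) (rr P)
  have hLG : LocalGens (R := ℤ) 𝒜 (fun P => WSet (fun k => π (X k)) (bset π f d (pr P)) (rr P) ∪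
      W1Set (fun k => π (X k)) (pr P : A) (rr P)) (Set.range fun k => π (X k)) :=
    { finite := fun P => (finite_WSet (fun j => finite_bset π f d _ j) _).union (finite_W1Set _)
      finite₀ := Set.finite_range _
      ae := by
        refine (finite_mem_prime hm).subset ?_
        intro P hP
        by_contra hdp
        apply hP
        have h1 : rr P = 0 := by
          apply padicValInt.eq_zero_of_not_dvd
          rwa [← hpr2 P]
        change WSet (fun k => π (X k)) (bset π f d (pr P)) (rr P) ∪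
          W1Set (fun k => π (X k)) (pr P : A) (rr P) = _
        rw [h1, WSet_zero, W1Set_zero, Set.union_self]
      homog := by
        rintro P w (hw | ⟨i, rfl⟩)
        · exact ⟨_, Nat.succ_pos _, (hO P).W_deg hw⟩
        · refine ⟨1, one_pos, ?_⟩
          have := SetLike.mul_mem_graded (hO P).theta_deg ((hO P).xdeg i)
          simpa using this
      full := fun P a => h.full (hpr1 P).ne_zero (rr P) a
      full₀ := fun a => by
        have := h.full (p := 2) two_ne_zero 0 a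
        rwa [WSet_zero, W1Set_zero, Set.union_self] at this }
  have hnt : Nontrivial A := inferInstance
  refine Pool.Agent.Lib.MP_6a3dac_ag.exists_model 𝒜 hLG ?_ fun P => ?_
  · exact Int.not_isField
  intro hS y hy hyh hirr
  have := Fact.mk (hpr1 P)
  let F := FractionRing A
  let ι : A →+* F := algebraMap A F
  have hι : Function.Injective ι := IsFractionRing.injective A F
  apply isRegularLocalRing_of_homLoc 𝒜 ι _ y hι hS
  obtain ⟨m', hm'⟩ : ((pr P : ℤ) ^ rr P) ∣ m := padicValInt_dvd m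
  have hm'p : ¬ (pr P : ℤ) ∣ m' := by
    rintro ⟨c, rfl⟩
    have h1 : ((pr P : ℤ) ^ (rr P + 1)) ∣ m := ⟨c, by rw [hm']; ring⟩
    rw [padicValInt_dvd_iff] at h1
    rcases h1 with h1 | h1
    · exact hm h1
    · exact absurd h1 (by change ¬ (rr P + 1 ≤ rr P); omega)
  refine h.main hd ι hι (pr P) P.asIdeal (hpr2 P) (rr P) rfl ?_ hm'p ?_ y hy ?_
  · by_cases hp : (pr P : ℤ) ∣ m
    · exact Or.inr (hsing _ (hpr1 P) hp)
    · exact Or.inl (padicValInt.eq_zero_of_not_dvd hp)
  · intro i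
    obtain ⟨c₀, c, hc⟩ := jac_dehom i h.hf (hmK i)
    refine ⟨c₀, c, ?_⟩
    rw [← hc, ← map_pow, ← map_mul]
    congr 1
    rw [mul_comm]
    exact hm'.symm
  · by_contra hcon
    push Not at hcon
    apply hirr
    rw [HomogeneousIdeal.toIdeal_irrelevant_le]
    intro i hi s hs
    exact hcon i hi s hs

end

end Pool.Agent.Lib.MP_6a3dac_ag.Dens
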