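import Pool.Agent.Lib.MP_6a3dac_ag.Dens.Dehom
import Pool.Agent.Lib.MP_6a3dac_ag.Dens.LocalD
import Pool.Agent.Lib.MP_6a3dac_ag.Dens.Pair

/-!
# Nondegenerate double points from the coprime pair
-/

set_option autoImplicit false

namespace Pool.Agent.Lib.MP_6a3dac_ag

open MvPolynomial

section

variable {n d : ℕ}

theorem map_form {R S : Type} [CommRing R] [CommRing S] (θ : R →+* S) (a : Mono n d → R) :
    map θ (form a) = form fun μ => θ (a μ) := by
  simp [form, map_sum, map_prod]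

theorem isHomogeneous_form {R : Type} [CommRing R] (a : Mono n d → R) :
    (form a).IsHomogeneous d := by
  refine IsHomogeneous.sum _ _ _ fun μ _ => ?_
  have h1 : (∏ i, (X i : MvPolynomial (Fin (n + 1)) R) ^ (μ.1 i : ℕ)).IsHomogeneous
      (∑ i, (μ.1 i : ℕ)) := by
    refine IsHomogeneous.prod _ _ _ fun i _ => ?_
    simpa using (isHomogeneous_X R i).pow (μ.1 i : ℕ)
  rw [μ.2] at h1
  simpa using (isHomogeneous_C (Fin (n + 1)) (a μ)).mul h1

/-- Evaluation at a point of the chart. -/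
theorem eval_map_dehom {k : Type} [CommRing k] (i : Fin (n + 1))
    (θ : MvPolynomial {l : Fin (n + 1) // l ≠ i} ℤ →+* k) (q : MvPolynomial (Fin (n + 1)) ℤ) :
    eval (fun l => θ (dehom i (X l))) (map (Int.castRingHom k) q) = θ (dehom i q) := by
  have h1 : (eval fun l => θ (dehom i (X l))).comp (map (Int.castRingHom k)) =
      θ.comp (dehom i : _ →ₐ[ℤ] _).toRingHom := by
    apply MvPolynomial.ringHom_ext
    · intro c
      change eval _ (map (Int.castRingHom k) (C c)) = θ (dehom i (C c))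
      rw [map_C, eval_C, dehom_C]
      exact (eq_intCast (θ.comp C) c).symm
    · intro l
      change eval _ (map (Int.castRingHom k) (X l)) = θ (dehom i (X l))
      rw [map_X, eval_X]
  exact congrArg (fun g : MvPolynomial (Fin (n + 1)) ℤ →+* k => g q) h1

theorem nondegAt_of_pair {i : Fin (n + 1)} {g P : MvPolynomial (Mono n d) ℤ}
    (hgP : ∀ (k : Type) [Field k] (a : Mono n d → k) (x : Fin (n + 1) → k), x i = 1 →
        eval x (form a) = 0 → (∀ l, l ≠ i → eval x (pderiv l (form a)) = 0) →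
        (Matrix.of fun j l : {l : Fin (n + 1) // l ≠ i} =>
          eval x (pderiv j.1 (pderiv l.1 (form a)))).det = 0 →
        aeval a g = 0 ∧ aeval a P = 0) (a : Mono n d → ℤ) {p : ℕ} (hp : p.Prime)
    (h : ¬ ((p : ℤ) ∣ eval a g ∧ (p : ℤ) ∣ eval a P)) : NondegAt p (dehom i (form a)) := by
  intro Q hQ hpQ hFQ hdQ hdet
  apply h
  obtain ⟨k, _, θ, hθ⟩ : ∃ (k : Type) (_ : Field k)
      (θ : MvPolynomial {l : Fin (n + 1) // l ≠ i} ℤ →+* k), ∀ z ∈ Q, θ z = 0 := by
    have : IsDomain (MvPolynomial {l : Fin (n + 1) // l ≠ i} ℤ ⧸ Q) := Ideal.Quotient.isDomain Q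
    refine ⟨FractionRing (MvPolynomial {l : Fin (n + 1) // l ≠ i} ℤ ⧸ Q), inferInstance,
      (algebraMap _ _).comp (Ideal.Quotient.mk Q), fun z hz => ?_⟩
    rw [RingHom.comp_apply, Ideal.Quotient.eq_zero_iff_mem.mpr hz, map_zero]
  have hpk : ((p : ℤ) : k) = 0 := by
    have h1 := hθ _ hpQ
    rwa [show θ (C (p : ℤ)) = ((p : ℤ) : k) from eq_intCast (θ.comp C) (p : ℤ)] at h1
  have hdvd : ∀ z : ℤ, (z : k) = 0 → (p : ℤ) ∣ z := by
    intro z hz
    by_contra hcon
    obtain ⟨u, v, huv⟩ := ((Nat.prime_iff_prime_int.mp hp).irreducible.coprime_iff_not_dvd).mpr hcon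
    have h1 := congrArg (Int.cast : ℤ → k) huv
    push_cast at h1
    rw [hz, mul_zero, add_zero] at h1
    have h2 : ((p : ℕ) : k) = 0 := by exact_mod_cast hpk
    rw [h2, mul_zero] at h1
    exact zero_ne_one h1
  have hform : form (fun μ => ((a μ : ℤ) : k)) = map (Int.castRingHom k) (form a) :=
    (map_form (Int.castRingHom k) a).symm
  have e0 : eval (fun l => θ (dehom i (X l))) (form fun μ => ((a μ : ℤ) : k)) = 0 := by
    rw [hform, eval_map_dehom]
    exact hθ _ hFQ
  have e1 : ∀ l, l ≠ i → eval (fun l => θ (dehom i (X l)))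
      (pderiv l (form fun μ => ((a μ : ℤ) : k))) = 0 := by
    intro l hl
    rw [hform, pderiv_map, eval_map_dehom, ← pderiv_dehom i ⟨l, hl⟩]
    exact hθ _ (hdQ _)
  have e2 : (Matrix.of fun j l : {l : Fin (n + 1) // l ≠ i} =>
        eval (fun l => θ (dehom i (X l))) (pderiv j.1 (pderiv l.1
          (form fun μ => ((a μ : ℤ) : k))))).det = 0 := by
    have h1 : (Matrix.of fun j l : {l : Fin (n + 1) // l ≠ i} =>
        eval (fun l => θ (dehom i (X l))) (pderiv j.1 (pderiv l.1
          (form fun μ => ((a μ : ℤ) : k))))) =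
        θ.mapMatrix (Matrix.of fun j l : {l : Fin (n + 1) // l ≠ i} =>
          pderiv j (pderiv l (dehom i (form a)))) := by
      ext j l
      rw [Matrix.of_apply, RingHom.mapMatrix_apply, Matrix.map_apply, Matrix.of_apply, hform,
        pderiv_map, pderiv_map, eval_map_dehom, pderiv_dehom, pderiv_dehom]
    rw [h1, ← RingHom.map_det]
    exact hθ _ hdet
  have hae : ∀ q : MvPolynomial (Mono n d) ℤ, aeval (fun μ => ((a μ : ℤ) : k)) q =
      ((eval a q : ℤ) : k) := fun q => MvPolynomial.aeval_algebraMap_apply k a q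
  obtain ⟨h1, h2⟩ := hgP k (fun μ => ((a μ : ℤ) : k)) (fun l => θ (dehom i (X l)))
    (by rw [dehom_X_self, map_one]) e0 e1 e2
  rw [hae] at h1 h2
  exact ⟨hdvd _ h1, hdvd _ h2⟩

end

end Pool.Agent.Lib.MP_6a3dac_ag
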